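import Mathlib

/-!
# CLQD: the disc side of Theorem S (problem MP_78824b_co); definitions and statements

Everything happens inside one ambient graph `G` on `V`; the current vertex set is a set `S`.
The clique graph side enters only through a predicate `N : Set V → Prop` (the induced subgraph on
`S` is clique null) with three properties, see `KSide`.
-/

set_option autoImplicit false

namespace Pool.Agent.CLQD

variable {V : Type}

/-- adjacent or equal -/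
def AE (G : SimpleGraph V) (x y : V) : Prop := x = y ∨ G.Adj x y

/-- `d` is the distance of the connected induced subgraph on `S`. -/
structure Met (G : SimpleGraph V) (S : Set V) (d : V → V → ℕ) : Prop where
  zero : ∀ x ∈ S, ∀ y ∈ S, d x y = 0 ↔ x = y
  symm : ∀ x ∈ S, ∀ y ∈ S, d x y = d y x
  lip : ∀ x ∈ S, ∀ y ∈ S, ∀ z ∈ S, G.Adj y z → d x z ≤ d x y + 1
  geo : ∀ x ∈ S, ∀ y ∈ S, ∀ n, d x y = n + 1 → ∃ z ∈ S, G.Adj y z ∧ d x z = n

/-- triangle condition and interval-neighbourhood condition -/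
structure TI (G : SimpleGraph V) (S : Set V) (d : V → V → ℕ) : Prop where
  met : Met G S d
  tc : ∀ u ∈ S, ∀ x ∈ S, ∀ y ∈ S, ∀ k, G.Adj x y → d u x = k + 1 → d u y = k + 1 →
    ∃ z ∈ S, G.Adj x z ∧ G.Adj y z ∧ d u z = k
  inc : ∀ u ∈ S, ∀ z ∈ S, ∀ v ∈ S, ∀ w ∈ S, ∀ k, d u z = k + 1 → G.Adj z v → G.Adj z w →
    d u v = k → d u w = k → AE G v w

/-- Links have no small sets of minimum degree two: the only such set in a link is the whole link,
and it has at least six elements. -/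
def LF (G : SimpleGraph V) (S : Set V) : Prop :=
  ∀ v ∈ S, ∀ T : Finset V, T.Nonempty → (∀ x ∈ T, x ∈ S ∧ G.Adj v x) →
    (∀ x ∈ T, ∃ y ∈ T, ∃ z ∈ T, y ≠ z ∧ G.Adj x y ∧ G.Adj x z) →
    6 ≤ T.card ∧ ∀ x ∈ S, G.Adj v x → x ∈ T

/-- every edge lies in at most two triangles -/
def E2 (G : SimpleGraph V) (S : Set V) : Prop :=
  ∀ v ∈ S, ∀ x ∈ S, G.Adj v x → ∀ a ∈ S, ∀ b ∈ S, ∀ c ∈ S, a ≠ b → a ≠ c → b ≠ c →
    G.Adj v a → G.Adj v b → G.Adj v c → G.Adj x a → G.Adj x b → G.Adj x c → False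

/-- connected -/
def Cn (G : SimpleGraph V) (S : Set V) : Prop :=
  ∀ x ∈ S, ∀ y ∈ S, Relation.ReflTransGen (fun a b => G.Adj a b ∧ b ∈ S) x y

/-- the neighbours in `S` are exactly `a, b, c` and form a path (cases with one, two or three
vertices) -/
def PathNb (G : SimpleGraph V) (S : Set V) (p : V) : Prop :=
  (∃ a ∈ S, ∀ x ∈ S, G.Adj p x ↔ x = a) ∨
  (∃ a ∈ S, ∃ b ∈ S, G.Adj a b ∧ ∀ x ∈ S, G.Adj p x ↔ (x = a ∨ x = b)) ∨
  (∃ a ∈ S, ∃ b ∈ S, ∃ c ∈ S, G.Adj a b ∧ G.Adj b c ∧ a ≠ c ∧ ¬ G.Adj a c ∧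
    ∀ x ∈ S, G.Adj p x ↔ (x = a ∨ x = b ∨ x = c))

section count
open Classical

/-- number of neighbours in `S` -/
noncomputable def dg (G : SimpleGraph V) (S : Finset V) (v : V) : ℕ :=
  (S.filter (fun x => G.Adj v x)).card

/-- number of ordered adjacent pairs in the link -/
noncomputable def tr (G : SimpleGraph V) (S : Finset V) (v : V) : ℕ :=
  ((S ×ˢ S).filter (fun q => G.Adj v q.1 ∧ G.Adj v q.2 ∧ G.Adj q.1 q.2)).card

/-- six times the Euler characteristic of the clique complex of dimension two on `S` -/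
noncomputable def chi (G : SimpleGraph V) (S : Finset V) : ℤ :=
  ∑ v ∈ S, (6 - 3 * (dg G S v : ℤ) + (tr G S v : ℤ))

end count

/-- the class of contractible pieces -/
structure Cls (G : SimpleGraph V) (S : Finset V) : Prop where
  ne : S.Nonempty
  cn : Cn G (S : Set V)
  e2 : E2 G (S : Set V)
  lf : LF G (S : Set V)
  ch : chi G S = 6

/-! ### rings -/

/-- The vertex set is the disjoint union of `I` and `R`; every element of `R` has exactly two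
neighbours in `R` and two in `I`, its link is the path `r', a, b, r''`. -/
structure RingI (G : SimpleGraph V) (I R : Set V) : Prop where
  disj : ∀ v, v ∈ I → v ∈ R → False
  nb : ∀ r ∈ R, ∃ r' r'' a b, r' ∈ R ∧ r'' ∈ R ∧ a ∈ I ∧ b ∈ I ∧
    (∀ v, G.Adj r v ↔ (v = r' ∨ v = a ∨ v = b ∨ v = r'')) ∧
    G.Adj r' a ∧ G.Adj a b ∧ G.Adj b r'' ∧ r' ≠ r'' ∧ ¬ G.Adj r' b ∧ ¬ G.Adj a r'' ∧ ¬ G.Adj r' r''

/-- A cyclic ring: `e` runs through ring vertices, `w` through the inner ones. -/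
structure Rng (G : SimpleGraph V) (I R : Set V) (e w : ℤ → V) : Prop where
  eR : ∀ i, e i ∈ R
  wI : ∀ i, w i ∈ I
  nb : ∀ i v, G.Adj (e i) v ↔ (v = e (i - 1) ∨ v = e (i + 1) ∨ v = w (i - 1) ∨ v = w i)
  ww : ∀ i, G.Adj (w i) (w (i + 1))
  inj : ∀ i, w (i - 1) ≠ w (i + 1)
  ne : ∀ i, e (i - 1) ≠ e (i + 1)
  n1 : ∀ i, ¬ G.Adj (e (i - 1)) (e (i + 1))
  n2 : ∀ i, ¬ G.Adj (w (i - 1)) (e (i + 1))
  n3 : ∀ i, ¬ G.Adj (w i) (e (i - 1))
  per : ∃ n : ℕ, 0 < n ∧ ∀ i, e (i + n) = e i ∧ w (i + n) = w i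

/-- A tight strip inside the induced subgraph on `S` (indices in the integers, starting at zero). -/
structure Strp (G : SimpleGraph V) (S : Set V) (s : ℕ) (e w x : ℕ → V) : Prop where
  s1 : 1 ≤ s
  eS : ∀ i, i ≤ s + 2 → e i ∈ S
  wS : ∀ i, i ≤ s + 1 → w i ∈ S
  xS : ∀ i, i ≤ s → x i ∈ S
  ee : ∀ i, i ≤ s + 1 → G.Adj (e i) (e (i + 1))
  ww : ∀ i, i ≤ s → G.Adj (w i) (w (i + 1))
  ew : ∀ i, i ≤ s + 1 → G.Adj (e i) (w i)
  ew' : ∀ i, i ≤ s + 1 → G.Adj (e (i + 1)) (w i)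
  nb : ∀ i, 1 ≤ i → i ≤ s + 1 → ∀ v ∈ S, G.Adj (e i) v →
    (v = e (i - 1) ∨ v = e (i + 1) ∨ v = w (i - 1) ∨ v = w i)
  x0 : x 0 = w 0
  xs : x s = w (s + 1)
  xx : ∀ i, i < s → AE G (x i) (x (i + 1))
  xw : ∀ i, 1 ≤ i → i ≤ s + 1 → AE G (x (i - 1)) (w (i - 1)) ∧ AE G (x (i - 1)) (w i)
  tight : ∀ a b : V, ((a = e 0 ∧ b = e (s + 1)) ∨ (a = e 1 ∧ b = e (s + 2)) ∨
    (a = w 0 ∧ b = e (s + 1)) ∨ (a = e 1 ∧ b = w (s + 1)) ∨ (a = e 0 ∧ b = w s) ∨
    (a = w 1 ∧ b = e (s + 2))) →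
    ∃ f : V → ℕ, f a = 0 ∧ s + 1 ≤ f b ∧ ∀ x ∈ S, ∀ y ∈ S, G.Adj x y → f y ≤ f x + 1

/-- What the clique graph side provides: `N S` means that the induced subgraph on `S` is clique
null. -/
structure KSide (G : SimpleGraph V) (N : Set V → Prop) : Prop where
  one : ∀ v, N {v}
  dom : ∀ (S : Set V) (p q : V), p ∈ S → q ∈ S → G.Adj p q →
    (∀ x ∈ S, G.Adj p x → AE G q x) → N (S \ {p}) → N S
  strip : ∀ (S : Set V) (s : ℕ) (e w x : ℕ → V), Strp G S s e w x →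
    N (S \ {v | ∃ i, 1 ≤ i ∧ i ≤ s + 1 ∧ v = e i}) → N S

/-! ### statements of the modules -/

/-- D1a: extension over a vertex whose neighbours form a clique with one or two vertices -/
def St_D1a : Prop := ∀ (V : Type) (G : SimpleGraph V) (S : Set V) (p a b : V) (d : V → V → ℕ),
  p ∉ S → TI G S d → a ∈ S → b ∈ S → AE G a b → (∀ x ∈ S, G.Adj p x ↔ (x = a ∨ x = b)) →
  (∀ q ∈ S, ∀ z ∈ S, ∀ v ∈ S, ∀ y ∈ S, ∀ y' ∈ S, ∀ w ∈ S, G.Adj q z → G.Adj q v → G.Adj q y →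
    G.Adj q y' → G.Adj q w → G.Adj z v → G.Adj v y → AE G y y' → G.Adj y' w → G.Adj w z →
    v ≠ w → z ≠ y → z ≠ y' → v ≠ y' → y ≠ w → False) →
  ∃ d', TI G (insert p S) d'

/-- D1b: extension over a vertex whose neighbours form a path with three vertices -/
def St_D1b : Prop := ∀ (V : Type) (G : SimpleGraph V) (S : Set V) (p a b c : V) (d : V → V → ℕ),
  p ∉ S → TI G S d → a ∈ S → b ∈ S → c ∈ S → G.Adj a b → G.Adj b c → a ≠ c → ¬ G.Adj a c →
  (∀ x ∈ S, G.Adj p x ↔ (x = a ∨ x = b ∨ x = c)) →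
  (∀ q ∈ S, ∀ z ∈ S, ∀ v ∈ S, ∀ y ∈ S, ∀ y' ∈ S, ∀ w ∈ S, G.Adj q z → G.Adj q v → G.Adj q y →
    G.Adj q y' → G.Adj q w → G.Adj z v → G.Adj v y → AE G y y' → G.Adj y' w → G.Adj w z →
    v ≠ w → z ≠ y → z ≠ y' → v ≠ y' → y ≠ w → False) →
  (∀ x ∈ S, ∀ y ∈ S, G.Adj a x → G.Adj b x → G.Adj b y → G.Adj c y → AE G x y → False) →
  ∃ d', TI G (insert p S) d'

/-- D2: counting -/
def St_D2 : Prop := ∀ (V : Type) [DecidableEq V] (G : SimpleGraph V) (S : Finset V), Cls G S →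
  ∀ u ∈ S, (∃ x ∈ S, x ≠ u) → ∃ p ∈ S, p ≠ u ∧ PathNb G (S.erase p : Set V) p ∧
    Cls G (S.erase p)

/-- D3: members of the class are null and satisfy the two conditions -/
def St_D3 : Prop := ∀ (V : Type) (G : SimpleGraph V) (S : Finset V), Cls G S →
  (∃ d, TI G (S : Set V) d) ∧ ∀ N : Set V → Prop, KSide G N → N (S : Set V)

/-- D4: a closed walk in `I` contains a tight strip -/
def St_D4 : Prop := ∀ (V : Type) [Finite V] (G : SimpleGraph V) (I R R' : Set V) (d : V → V → ℕ)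
    (e w : ℤ → V), RingI G I R → R' ⊆ R → (∀ r ∈ R', ∀ r' ∈ R, G.Adj r r' → r' ∈ R') →
    TI G I d → LF G I → Rng G I R' e w →
    ∃ (s : ℕ) (i₀ : ℤ) (x : ℕ → V),
      Strp G (I ∪ R') s (fun i => e (i₀ + i)) (fun i => w (i₀ + i)) x

/-- D5: rings exist -/
def St_D5 : Prop := ∀ (V : Type) [Finite V] (G : SimpleGraph V) (I R R' : Set V),
    RingI G I R → R' ⊆ R → (∀ r ∈ R', ∀ r' ∈ R, G.Adj r r' → r' ∈ R') → R'.Nonempty →
    ∃ e w : ℤ → V, Rng G I R' e w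

/-- D6: the rings can be removed -/
def St_D6 : Prop := ∀ (V : Type) [Finite V] (G : SimpleGraph V) (I R : Set V) (d : V → V → ℕ)
    (N : Set V → Prop), RingI G I R → KSide G N → TI G I d → LF G I → N I → N (I ∪ R)

/-- D7: counting for a ringed graph -/
def St_D7 : Prop := ∀ (V : Type) [Fintype V] [DecidableEq V] (G : SimpleGraph V)
    (I R : Finset V), I ∪ R = Finset.univ → RingI G (I : Set V) (R : Set V) →
    chi G I = chi G Finset.univ

end Pool.Agent.CLQD
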