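import Pool.Agent.CLQD.D5

/-!
# CLQD, module D6: the rings can be removed
-/

set_option autoImplicit false

namespace Pool.Agent.CLQD

theorem thm_D6 (h4 : St_D4) : St_D6 := by
  classical
  intro V _ G I R d N hR hK hT hL hN
  have main : ∀ n : ℕ, ∀ R' : Set V, R'.ncard ≤ n → R' ⊆ R →
      (∀ r ∈ R', ∀ r' ∈ R, G.Adj r r' → r' ∈ R') → N (I ∪ R') := by
    intro n
    induction n with
    | zero =>
      intro R' hn hsub hcl
      have h0 : R' = ∅ := by
        rw [← Set.ncard_eq_zero (Set.toFinite R')]
        omega
      rw [h0, Set.union_empty]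
      exact hN
    | succ n ih =>
      intro R' hn hsub hcl
      rcases R'.eq_empty_or_nonempty with h0 | hne
      · rw [h0, Set.union_empty]
        exact hN
      obtain ⟨e, w, hr⟩ := thm_D5 V G I R R' hR hsub hcl hne
      obtain ⟨s, i0, x, hs⟩ := h4 V G I R R' d e w hR hsub hcl hT hL hr
      have hstrip := hK.strip (I ∪ R') s _ _ x hs
      obtain ⟨p, hp, hper⟩ := hr.per
      have hPer : Function.Periodic e (p : ℤ) := fun i => (hper i).1
      -- the sets in between
      have hdis : ∀ i, e i ∉ I := fun i h => hR.disj (e i) h (hsub (hr.eR i))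
      have hstep : ∀ k : ℕ, 1 ≤ k →
          N ((I ∪ R') \ {v | ∃ i : ℕ, 1 ≤ i ∧ i ≤ k + 1 ∧ v = e (i0 + i)}) →
          N ((I ∪ R') \ {v | ∃ i : ℕ, 1 ≤ i ∧ i ≤ k ∧ v = e (i0 + i)}) := by
        intro k hk hNk
        by_cases hmem : ∃ i : ℕ, 1 ≤ i ∧ i ≤ k ∧ e (i0 + (k + 1 : ℕ)) = e (i0 + i)
        · have heq : {v | ∃ i : ℕ, 1 ≤ i ∧ i ≤ k ∧ v = e (i0 + i)} =
              {v | ∃ i : ℕ, 1 ≤ i ∧ i ≤ k + 1 ∧ v = e (i0 + i)} := by
            ext v
            constructor
            · rintro ⟨i, h1, h2, h3⟩
              exact ⟨i, h1, by omega, h3⟩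
            · rintro ⟨i, h1, h2, h3⟩
              rcases Nat.lt_or_ge k i with h | h
              · have hi : i = k + 1 := by omega
                obtain ⟨j, g1, g2, g3⟩ := hmem
                rw [hi] at h3
                exact ⟨j, g1, g2, h3.trans g3⟩
              · exact ⟨i, h1, h, h3⟩
          rw [heq]
          exact hNk
        · refine hK.dom _ (e (i0 + (k + 1 : ℕ))) (w (i0 + (k + 1 : ℕ))) ?_ ?_ ?_ ?_ ?_
          · refine ⟨Or.inr (hr.eR _), fun hv => hmem ?_⟩
            obtain ⟨i, h1, h2, h3⟩ := hv
            exact ⟨i, h1, h2, h3⟩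
          · refine ⟨Or.inl (hr.wI _), fun hv => ?_⟩
            obtain ⟨i, h1, h2, h3⟩ := hv
            have h5 := hr.wI (i0 + (k + 1 : ℕ))
            rw [h3] at h5
            exact hdis _ h5
          · exact (hr.nb _ _).mpr (Or.inr (Or.inr (Or.inr rfl)))
          · intro y hy hpy
            rw [hr.nb] at hpy
            rcases hpy with h | h | h | h
            · exfalso
              apply hy.2
              refine ⟨k, hk, le_refl _, ?_⟩
              rw [h]
              congr 1
              push_cast
              ring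
            · refine Or.inr ?_
              rw [h]
              refine (((hr.nb (i0 + (k + 1 : ℕ) + 1) _).mpr ?_)).symm
              refine Or.inr (Or.inr (Or.inl ?_))
              congr 1
              ring
            · refine Or.inr ?_
              rw [h]
              have h5 := hr.ww (i0 + (k + 1 : ℕ) - 1)
              rw [show i0 + ((k + 1 : ℕ) : ℤ) - 1 + 1 = i0 + ((k + 1 : ℕ) : ℤ) by ring] at h5
              exact h5.symm
            · exact Or.inl h.symm
          · have heq : ((I ∪ R') \ {v | ∃ i : ℕ, 1 ≤ i ∧ i ≤ k ∧ v = e (i0 + i)}) \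
                {e (i0 + (k + 1 : ℕ))} =
                (I ∪ R') \ {v | ∃ i : ℕ, 1 ≤ i ∧ i ≤ k + 1 ∧ v = e (i0 + i)} := by
              ext v
              constructor
              · rintro ⟨⟨h1, h2⟩, h3⟩
                refine ⟨h1, ?_⟩
                rintro ⟨i, g1, g2, g3⟩
                rcases Nat.lt_or_ge k i with h | h
                · have hi : i = k + 1 := by omega
                  rw [hi] at g3
                  exact h3 g3
                · exact h2 ⟨i, g1, h, g3⟩
              · rintro ⟨h1, h2⟩
                refine ⟨⟨h1, ?_⟩, ?_⟩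
                · rintro ⟨i, g1, g2, g3⟩
                  exact h2 ⟨i, g1, by omega, g3⟩
                · intro g3
                  exact h2 ⟨k + 1, by omega, le_refl _, g3⟩
            rw [heq]
            exact hNk
      have hchain : ∀ m : ℕ,
          N ((I ∪ R') \ {v | ∃ i : ℕ, 1 ≤ i ∧ i ≤ s + 1 + m ∧ v = e (i0 + i)}) →
          N ((I ∪ R') \ {v | ∃ i : ℕ, 1 ≤ i ∧ i ≤ s + 1 ∧ v = e (i0 + i)}) := by
        intro m
        induction m with
        | zero => exact fun h => h
        | succ m ihm => exact fun h => ihm (hstep (s + 1 + m) (by omega) h)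
      apply hstrip
      apply hchain p
      have hrange : {v | ∃ i : ℕ, 1 ≤ i ∧ i ≤ s + 1 + p ∧ v = e (i0 + i)} = Set.range e := by
        ext v
        constructor
        · rintro ⟨i, _, _, h⟩
          exact ⟨_, h.symm⟩
        · rintro ⟨j, hj⟩
          have hp' : (0 : ℤ) < p := by exact_mod_cast hp
          have h1 := Int.emod_nonneg (j - i0 - 1) hp'.ne'
          have h2 := Int.emod_lt_of_pos (j - i0 - 1) hp'
          have h3 := Int.emod_add_mul_ediv (j - i0 - 1) (p : ℤ)
          refine ⟨((j - i0 - 1) % p).toNat + 1, by omega, by omega, ?_⟩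
          rw [← hj]
          have h5 := (hPer.int_mul ((j - i0 - 1) / p)) (i0 + (((j - i0 - 1) % p).toNat + 1 : ℕ))
          rw [← h5]
          congr 1
          push_cast
          rw [Int.toNat_of_nonneg h1]
          linarith
      rw [hrange]
      have hsplit : (I ∪ R') \ Set.range e = I ∪ (R' \ Set.range e) := by
        ext v
        constructor
        · rintro ⟨h | h, h2⟩
          · exact Or.inl h
          · exact Or.inr ⟨h, h2⟩
        · rintro (h | h)
          · refine ⟨Or.inl h, ?_⟩
            rintro ⟨i, hi⟩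
            exact hdis i (hi ▸ h)
          · exact ⟨Or.inr h.1, h.2⟩
      rw [hsplit]
      apply ih
      · have h5 : (R' \ Set.range e).ncard < R'.ncard := by
          apply Set.ncard_lt_ncard _ (Set.toFinite R')
          refine ⟨Set.sdiff_subset, fun h => ?_⟩
          exact (h (hr.eR 0)).2 ⟨0, rfl⟩
        omega
      · exact Set.sdiff_subset.trans hsub
      · intro r hr1 r' hr2 hadj
        refine ⟨hcl r hr1.1 r' hr2 hadj, ?_⟩
        rintro ⟨i, hi⟩
        have h5 : G.Adj (e i) r := by
          rw [hi]
          exact hadj.symm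
        rw [hr.nb] at h5
        rcases h5 with h | h | h | h
        · exact hr1.2 ⟨_, h.symm⟩
        · exact hr1.2 ⟨_, h.symm⟩
        · exact hR.disj r (h ▸ hr.wI _) (hsub hr1.1)
        · exact hR.disj r (h ▸ hr.wI _) (hsub hr1.1)
  exact main R.ncard R (le_refl _) Set.Subset.rfl (fun _ _ r' hr' _ => hr')

end Pool.Agent.CLQD
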