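import Pool.Agent.CLQD.D0

/-!
# CLQD, module D5: rings exist
-/

set_option autoImplicit false

namespace Pool.Agent.CLQD

section ringex

variable {V : Type} {G : SimpleGraph V} {I R : Set V}

theorem ring_nbr (hR : RingI G I R) {y x : V} (hy : y ∈ R) (_hx : x ∈ R) :
    ∃ z ∈ R, z ≠ x ∧ G.Adj y z := by
  obtain ⟨r', r'', a, b, h1, h2, h3, h4, h5, h6, h7, h8, h9, h10, h11, h12⟩ := hR.nb y hy
  by_cases h : r' = x
  · exact ⟨r'', h2, fun h' => h9 (h.trans h'.symm), (h5 r'').mpr (Or.inr (Or.inr (Or.inr rfl)))⟩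
  · exact ⟨r', h1, h, (h5 r').mpr (Or.inl rfl)⟩

theorem ring_two (hR : RingI G I R) {y x x' z : V} (hy : y ∈ R) (hx : x ∈ R) (hx' : x' ∈ R)
    (hz : z ∈ R) (h1 : G.Adj y x) (h2 : G.Adj y x') (h3 : G.Adj y z) (h4 : x ≠ z)
    (h5 : x' ≠ z) : x = x' := by
  obtain ⟨r', r'', a, b, g1, g2, g3, g4, g5, -⟩ := hR.nb y hy
  have key : ∀ t, t ∈ R → G.Adj y t → t = r' ∨ t = r'' := by
    intro t ht hyt
    rcases (g5 t).mp hyt with h | h | h | h
    · exact Or.inl h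
    · exact (hR.disj t (h ▸ g3) ht).elim
    · exact (hR.disj t (h ▸ g4) ht).elim
    · exact Or.inr h
  rcases key x hx h1 with h | h <;> rcases key x' hx' h2 with h' | h' <;>
    rcases key z hz h3 with h'' | h''
  · exact h.trans h'.symm
  · exact h.trans h'.symm
  · exact absurd (h.trans h''.symm) h4
  · exact absurd (h'.trans h''.symm) h5
  · exact absurd (h'.trans h''.symm) h5
  · exact absurd (h.trans h''.symm) h4
  · exact h.trans h'.symm
  · exact h.trans h'.symm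

theorem ring_w (hR : RingI G I R) {x y : V} (hx : x ∈ R) (hy : y ∈ R) (hxy : G.Adj x y) :
    ∃ u ∈ I, G.Adj x u ∧ G.Adj y u := by
  obtain ⟨r', r'', a, b, h1, h2, h3, h4, h5, h6, h7, h8, h9, h10, h11, h12⟩ := hR.nb x hx
  rcases (h5 y).mp hxy with h | h | h | h
  · exact ⟨a, h3, (h5 a).mpr (Or.inr (Or.inl rfl)), h ▸ h6⟩
  · exact (hR.disj y (h ▸ h3) hy).elim
  · exact (hR.disj y (h ▸ h4) hy).elim
  · exact ⟨b, h4, (h5 b).mpr (Or.inr (Or.inr (Or.inl rfl))), h ▸ h8.symm⟩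

theorem ring_key (hR : RingI G I R) {x y z u v : V} (hx : x ∈ R) (hy : y ∈ R) (hz : z ∈ R)
    (hu : u ∈ I) (hv : v ∈ I) (hyx : G.Adj y x) (hyz : G.Adj y z) (hxz : x ≠ z)
    (hyu : G.Adj y u) (hxu : G.Adj x u) (hyv : G.Adj y v) (hzv : G.Adj z v) :
    (∀ t, G.Adj y t ↔ (t = x ∨ t = z ∨ t = u ∨ t = v)) ∧ G.Adj u v ∧ ¬ G.Adj x z ∧
      ¬ G.Adj u z ∧ ¬ G.Adj v x := by
  obtain ⟨r', r'', a, b, h1, h2, h3, h4, h5, h6, h7, h8, h9, h10, h11, h12⟩ := hR.nb y hy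
  have key : ∀ t, t ∈ R → G.Adj y t → t = r' ∨ t = r'' := by
    intro t ht hyt
    rcases (h5 t).mp hyt with h | h | h | h
    · exact Or.inl h
    · exact (hR.disj t (h ▸ h3) ht).elim
    · exact (hR.disj t (h ▸ h4) ht).elim
    · exact Or.inr h
  have key' : ∀ t, t ∈ I → G.Adj y t → t = a ∨ t = b := by
    intro t ht hyt
    rcases (h5 t).mp hyt with h | h | h | h
    · exact (hR.disj t ht (h ▸ h1)).elim
    · exact Or.inl h
    · exact Or.inr h
    · exact (hR.disj t ht (h ▸ h2)).elim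
  rcases key x hx hyx with h | h
  · have hz' : z = r'' := by
      rcases key z hz hyz with h' | h'
      · exact absurd (h.trans h'.symm) hxz
      · exact h'
    have hu' : u = a := by
      rcases key' u hu hyu with h' | h'
      · exact h'
      · exact absurd (h' ▸ h ▸ hxu) h10
    have hv' : v = b := by
      rcases key' v hv hyv with h' | h'
      · exact absurd (h' ▸ hz' ▸ hzv).symm h11
      · exact h'
    subst h hz' hu' hv'
    refine ⟨fun t => ?_, h7, h12, h11, fun h => h10 h.symm⟩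
    rw [h5]
    tauto
  · have hz' : z = r' := by
      rcases key z hz hyz with h' | h'
      · exact h'
      · exact absurd (h.trans h'.symm) hxz
    have hu' : u = b := by
      rcases key' u hu hyu with h' | h'
      · exact absurd (h' ▸ h ▸ hxu).symm h11
      · exact h'
    have hv' : v = a := by
      rcases key' v hv hyv with h' | h'
      · exact h'
      · exact absurd (h' ▸ hz' ▸ hzv) h10
    subst h hz' hu' hv'
    refine ⟨fun t => ?_, h7.symm, fun h => h12 h.symm, fun h => h10 h.symm, h11⟩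
    rw [h5]
    tauto

end ringex

theorem thm_D5 : St_D5 := by
  classical
  intro V _ G I R R' hR hsub hcl hne
  have hc : ∀ p : {p : V × V // p.1 ∈ R' ∧ p.2 ∈ R' ∧ G.Adj p.1 p.2},
      ∃ q : {p : V × V // p.1 ∈ R' ∧ p.2 ∈ R' ∧ G.Adj p.1 p.2},
        q.1.1 = p.1.2 ∧ q.1.2 ≠ p.1.1 := by
    rintro ⟨⟨x, y⟩, hx, hy, hxy⟩
    obtain ⟨z, hz, hzx, hyz⟩ := ring_nbr hR (hsub hy) (hsub hx)
    exact ⟨⟨(y, z), hy, hcl y hy z hz hyz, hyz⟩, rfl, hzx⟩
  choose nx hnx1 hnx2 using hc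
  have hinj : Function.Injective nx := by
    intro p q hpq
    have e1 : p.1.2 = q.1.2 := by rw [← hnx1 p, ← hnx1 q, hpq]
    have e2 : p.1.1 = q.1.1 := by
      apply ring_two hR (y := p.1.2) (z := (nx p).1.2) (hsub p.2.2.1) (hsub p.2.1) (hsub q.2.1)
        (hsub (nx p).2.2.1) p.2.2.2.symm
      · rw [e1]
        exact q.2.2.2.symm
      · rw [← hnx1 p]
        exact (nx p).2.2.2
      · exact (hnx2 p).symm
      · rw [hpq]
        exact (hnx2 q).symm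
    exact Subtype.ext (Prod.ext e2 e1)
  have hbij : Function.Bijective nx := ⟨hinj, Finite.injective_iff_surjective.mp hinj⟩
  obtain ⟨σ, hσ⟩ : ∃ σ : Equiv.Perm {p : V × V // p.1 ∈ R' ∧ p.2 ∈ R' ∧ G.Adj p.1 p.2},
      ∀ p, σ p = nx p := ⟨Equiv.ofBijective nx hbij, fun p => rfl⟩
  have hW : ∀ p : {p : V × V // p.1 ∈ R' ∧ p.2 ∈ R' ∧ G.Adj p.1 p.2},
      ∃ u ∈ I, G.Adj p.1.1 u ∧ G.Adj p.1.2 u := fun p =>
    ring_w hR (hsub p.2.1) (hsub p.2.2.1) p.2.2.2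
  choose W hW1 hW2 hW3 using hW
  obtain ⟨r, hr⟩ := hne
  obtain ⟨z, hz, _, hrz⟩ := ring_nbr hR (hsub hr) (hsub hr)
  obtain ⟨p0, -⟩ : ∃ p0 : {p : V × V // p.1 ∈ R' ∧ p.2 ∈ R' ∧ G.Adj p.1 p.2}, p0 = p0 :=
    ⟨⟨(r, z), hr, hcl r hr z hz hrz, hrz⟩, rfl⟩
  -- the states
  obtain ⟨st, hst⟩ : ∃ st : ℤ → {p : V × V // p.1 ∈ R' ∧ p.2 ∈ R' ∧ G.Adj p.1 p.2},
      ∀ i, st i = (σ ^ i) p0 := ⟨_, fun _ => rfl⟩
  have hs : ∀ i, st (i + 1) = nx (st i) := by
    intro i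
    rw [hst, hst, ← hσ, add_comm, zpow_add, zpow_one]
    rfl
  have h2 : ∀ i, (st (i + 1)).1.1 = (st i).1.2 := fun i => by rw [hs, hnx1]
  have key : ∀ i, (∀ t, G.Adj (st (i + 1)).1.1 t ↔ (t = (st i).1.1 ∨ t = (st (i + 2)).1.1 ∨
      t = W (st i) ∨ t = W (st (i + 1)))) ∧ G.Adj (W (st i)) (W (st (i + 1))) ∧
      ¬ G.Adj (st i).1.1 (st (i + 2)).1.1 ∧ ¬ G.Adj (W (st i)) (st (i + 2)).1.1 ∧
      ¬ G.Adj (W (st (i + 1))) (st i).1.1 ∧ (st i).1.1 ≠ (st (i + 2)).1.1 := by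
    intro i
    have h3 : (st (i + 2)).1.1 = (st (i + 1)).1.2 := by
      have := h2 (i + 1)
      rw [show i + 1 + 1 = i + 2 by ring] at this
      exact this
    have h4 : (st i).1.1 ≠ (st (i + 1)).1.2 := by
      rw [hs]
      exact (hnx2 (st i)).symm
    have h5 := ring_key hR (x := (st i).1.1) (y := (st (i + 1)).1.1) (z := (st (i + 1)).1.2)
      (u := W (st i)) (v := W (st (i + 1))) (hsub (st i).2.1) (hsub (st (i + 1)).2.1)
      (hsub (st (i + 1)).2.2.1) (hW1 _) (hW1 _) (by rw [h2]; exact (st i).2.2.2.symm)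
      (st (i + 1)).2.2.2 h4 (by rw [h2]; exact hW3 (st i)) (hW2 (st i)) (hW2 (st (i + 1)))
      (hW3 (st (i + 1)))
    rw [h3]
    exact ⟨h5.1, h5.2.1, h5.2.2.1, h5.2.2.2.1, h5.2.2.2.2, h4⟩
  have key' : ∀ i, (∀ t, G.Adj (st i).1.1 t ↔ (t = (st (i - 1)).1.1 ∨ t = (st (i + 1)).1.1 ∨
      t = W (st (i - 1)) ∨ t = W (st i))) ∧ G.Adj (W (st (i - 1))) (W (st i)) ∧
      ¬ G.Adj (st (i - 1)).1.1 (st (i + 1)).1.1 ∧ ¬ G.Adj (W (st (i - 1))) (st (i + 1)).1.1 ∧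
      ¬ G.Adj (W (st i)) (st (i - 1)).1.1 ∧ (st (i - 1)).1.1 ≠ (st (i + 1)).1.1 := by
    intro i
    have h3 := key (i - 1)
    rw [show i - 1 + 1 = i by ring, show i - 1 + 2 = i + 1 by ring] at h3
    exact h3
  refine ⟨fun i => (st i).1.1, fun i => W (st i), ?_⟩
  refine
    { eR := fun i => (st i).2.1
      wI := fun i => hW1 _
      nb := fun i => (key' i).1
      ww := fun i => (key i).2.1
      inj := ?_
      ne := fun i => (key' i).2.2.2.2.2
      n1 := fun i => (key' i).2.2.1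
      n2 := fun i => (key' i).2.2.2.1
      n3 := fun i => (key' i).2.2.2.2.1
      per := ?_ }
  · intro i h
    have h3 := (key' i).2.2.2.1
    have h' : W (st (i - 1)) = W (st (i + 1)) := h
    rw [h'] at h3
    exact h3 (hW2 (st (i + 1))).symm
  · refine ⟨orderOf σ, orderOf_pos σ, fun i => ?_⟩
    have h3 : st (i + orderOf σ) = st i := by
      rw [hst, hst, zpow_add, zpow_natCast, pow_orderOf_eq_one, mul_one]
    show (st (i + orderOf σ)).1.1 = (st i).1.1 ∧ W (st (i + orderOf σ)) = W (st i)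
    rw [h3]
    exact ⟨rfl, rfl⟩

end Pool.Agent.CLQD
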