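import Pool.Agent.CLQD.D7
import Pool.Agent.CLQD.D5

/-!
# CLQD, module D8: the link with the frozen hypotheses
-/

set_option autoImplicit false

namespace Pool.Agent.CLQD

section lk

variable {V : Type}

/-- boundary vertex -/
def Bd (G : SimpleGraph V) (v : V) : Prop := (G.induce (G.neighborSet v)).IsAcyclic

/-- number of common neighbours -/
noncomputable def cdg (G : SimpleGraph V) (v x : V) : ℕ := {y | G.Adj v y ∧ G.Adj x y}.ncard

theorem cdg_comm (G : SimpleGraph V) (v x : V) : cdg G v x = cdg G x v := by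
  unfold cdg
  congr 1
  ext y
  exact And.comm

theorem link_ncard (G : SimpleGraph V) (v : V) (w : G.neighborSet v) :
    ((G.induce (G.neighborSet v)).neighborSet w).ncard = cdg G v w.1 := by
  unfold cdg
  rw [← Set.ncard_image_of_injective _ Subtype.val_injective]
  congr 1
  ext y
  constructor
  · rintro ⟨z, hz, rfl⟩
    exact ⟨z.2, hz⟩
  · rintro ⟨h1, h2⟩
    exact ⟨⟨y, h1⟩, h2, rfl⟩

theorem ncard_degree {W : Type} [Fintype W] (L : SimpleGraph W) [DecidableRel L.Adj] (w : W) :
    (L.neighborSet w).ncard = L.degree w := by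
  classical
  rw [Set.ncard_eq_toFinset_card']
  rfl

theorem tree_sum {W : Type} [Fintype W] (L : SimpleGraph W) (h : L.IsTree) :
    ∑ w, (L.neighborSet w).ncard + 2 = 2 * Fintype.card W := by
  classical
  have h1 := h.card_edgeFinset
  have h2 := L.sum_degrees_eq_twice_card_edges
  have h3 : ∑ w, (L.neighborSet w).ncard = ∑ w, L.degree w :=
    Finset.sum_congr rfl fun w _ => ncard_degree L w
  rw [h3, h2, ← h1]
  ring

theorem two_regular {W : Type} [Fintype W] (L : SimpleGraph W) (hc : L.Connected)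
    (h2 : ∀ w, (L.neighborSet w).ncard = 2) : ¬ L.IsAcyclic := by
  intro ha
  have h1 := tree_sum L ⟨hc, ha⟩
  rw [Finset.sum_congr rfl fun w _ => h2 w, Finset.sum_const, smul_eq_mul,
    Finset.card_univ] at h1
  omega

theorem cdg_two {G : SimpleGraph V} {v x y z t : V} (h : cdg G v x = 2) (hy : G.Adj v y)
    (hy' : G.Adj x y) (hz : G.Adj v z) (hz' : G.Adj x z) (hyz : y ≠ z) (ht : G.Adj v t)
    (ht' : G.Adj x t) : t = y ∨ t = z := by
  unfold cdg at h
  rw [Set.ncard_eq_two] at h
  obtain ⟨p, q, hpq, hS⟩ := h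
  have e1 : y ∈ ({p, q} : Set V) := hS ▸ ⟨hy, hy'⟩
  have e2 : z ∈ ({p, q} : Set V) := hS ▸ ⟨hz, hz'⟩
  have e3 : t ∈ ({p, q} : Set V) := hS ▸ ⟨ht, ht'⟩
  rcases e1 with e1 | e1 <;> rcases e2 with e2 | e2 <;> rcases e3 with e3 | e3
  · exact Or.inl (e3.trans e1.symm)
  · exact absurd (e1.trans e2.symm) hyz
  · exact Or.inl (e3.trans e1.symm)
  · exact Or.inr (e3.trans e2.symm)
  · exact Or.inr (e3.trans e2.symm)
  · exact Or.inl (e3.trans e1.symm)
  · exact absurd (e1.trans e2.symm) hyz
  · exact Or.inl (e3.trans e1.symm)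

theorem ad_adj {G : SimpleGraph V} {x y : V} (h : ad G x y = 1) : G.Adj x y := by
  by_contra h'
  rw [ad_of_not G h'] at h
  exact absurd h (by norm_num)

theorem ad_nadj {G : SimpleGraph V} {x y : V} (h : ad G x y = 0) : ¬ G.Adj x y := by
  intro h'
  rw [ad_of G h'] at h
  exact absurd h (by norm_num)

/-- the common neighbours inside an explicit neighbourhood -/
theorem cdg_sum [DecidableEq V] {G : SimpleGraph V} {v : V} {S : Finset V}
    (hS : ∀ x, G.Adj v x ↔ x ∈ S) (x : V) : (cdg G v x : ℤ) = ∑ y ∈ S, ad G x y := by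
  classical
  rw [← dg_eq]
  unfold cdg dg
  congr 1
  rw [← Set.ncard_coe_finset]
  congr 1
  ext y
  simp only [Set.mem_ofPred_eq, Finset.coe_filter, hS]

theorem sum_four [DecidableEq V] {p q r s : V} (h1 : p ≠ q) (h2 : p ≠ r) (h3 : p ≠ s)
    (h4 : q ≠ r) (h5 : q ≠ s) (h6 : r ≠ s) (f : V → ℤ) :
    ∑ y ∈ ({p, q, r, s} : Finset V), f y = f p + f q + f r + f s := by
  rw [Finset.sum_insert (by simp [h1, h2, h3]), Finset.sum_insert (by simp [h4, h5]),
    Finset.sum_insert (by simp [h6]), Finset.sum_singleton]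
  ring

/-- the structure of a boundary link -/
theorem bd_link [Fintype V] [DecidableEq V] {G : SimpleGraph V} {v r s a b : V}
    (ht : (G.induce (G.neighborSet v)).IsTree) (hrs : r ≠ s) (hab : a ≠ b) (hra : r ≠ a)
    (hrb : r ≠ b) (hsa : s ≠ a) (hsb : s ≠ b)
    (hN : ∀ x, G.Adj v x ↔ x ∈ ({r, s, a, b} : Finset V)) (ha : cdg G v a = 2)
    (hb : cdg G v b = 2) : G.Adj a b ∧ ¬ G.Adj r s ∧
      ((G.Adj r a ∧ ¬ G.Adj r b ∧ ¬ G.Adj s a ∧ G.Adj s b) ∨
        (¬ G.Adj r a ∧ G.Adj r b ∧ G.Adj s a ∧ ¬ G.Adj s b)) := by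
  classical
  have hmem : ∀ x, x ∈ ({r, s, a, b} : Finset V) ↔ x ∈ G.neighborSet v := fun x => (hN x).symm
  have hcard4 : ({r, s, a, b} : Finset V).card = 4 := by
    rw [Finset.card_insert_of_notMem (by simp [hrs, hra, hrb]),
      Finset.card_insert_of_notMem (by simp [hsa, hsb]), Finset.card_pair hab]
  have hcard : Fintype.card (G.neighborSet v) = 4 := by
    rw [← hcard4]
    exact Fintype.card_of_subtype _ hmem
  have h1 := tree_sum _ ht
  have h2 : ∑ w : G.neighborSet v, ((G.induce (G.neighborSet v)).neighborSet w).ncard =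
      ∑ x ∈ ({r, s, a, b} : Finset V), cdg G v x := by
    rw [Finset.sum_subtype ({r, s, a, b} : Finset V) hmem]
    exact Finset.sum_congr rfl fun w _ => link_ncard G v w
  rw [h2, hcard] at h1
  have h3 : ∑ x ∈ ({r, s, a, b} : Finset V), cdg G v x =
      cdg G v r + cdg G v s + cdg G v a + cdg G v b := by
    rw [Finset.sum_insert (by simp [hrs, hra, hrb]), Finset.sum_insert (by simp [hsa, hsb]),
      Finset.sum_insert (by simp [hab]), Finset.sum_singleton]
    ring
  rw [h3, ha, hb] at h1
  -- both ends have a neighbour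
  have hpos : ∀ x, G.Adj v x → 1 ≤ cdg G v x := by
    intro x hx
    have hnt : Nontrivial (G.neighborSet v) := by
      rw [← Fintype.one_lt_card_iff_nontrivial, hcard]
      norm_num
    obtain ⟨y, hy⟩ := ht.connected.preconnected.exists_adj_of_nontrivial ⟨x, hx⟩
    rw [← link_ncard G v ⟨x, hx⟩, Nat.one_le_iff_ne_zero, Ne,
      Set.ncard_eq_zero (Set.toFinite _)]
    intro h0
    have h5 : y ∈ (G.induce (G.neighborSet v)).neighborSet ⟨x, hx⟩ := hy
    rw [h0] at h5
    exact h5
  have hr1 := hpos r ((hN r).mpr (by simp))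
  have hs1 := hpos s ((hN s).mpr (by simp))
  have hr2 : cdg G v r = 1 := by omega
  have hs2 : cdg G v s = 1 := by omega
  have er := cdg_sum hN r
  have es := cdg_sum hN s
  have ea := cdg_sum hN a
  have eb := cdg_sum hN b
  rw [sum_four hrs hra hrb hsa hsb hab, ad_self] at er es ea eb
  rw [hr2] at er
  rw [hs2, ad_comm G s r] at es
  rw [ha, ad_comm G a r, ad_comm G a s] at ea
  rw [hb, ad_comm G b r, ad_comm G b s, ad_comm G b a] at eb
  have p1 := ad_nonneg G r s
  have p2 := ad_nonneg G r a
  have p3 := ad_nonneg G r b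
  have p4 := ad_nonneg G s a
  have p5 := ad_nonneg G s b
  have p6 := ad_nonneg G a b
  have q1 := ad_le_one G r s
  have q2 := ad_le_one G r a
  have q3 := ad_le_one G r b
  have q4 := ad_le_one G s a
  have q5 := ad_le_one G s b
  have q6 := ad_le_one G a b
  push_cast at er es ea eb
  have z6 : ad G a b = 1 := by omega
  have z1 : ad G r s = 0 := by omega
  refine ⟨ad_adj z6, ad_nadj z1, ?_⟩
  rcases (show ad G r a = 1 ∨ ad G r a = 0 by omega) with z2 | z2
  · exact Or.inl ⟨ad_adj z2, ad_nadj (by omega), ad_nadj (by omega), ad_adj (by omega)⟩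
  · exact Or.inr ⟨ad_nadj z2, ad_adj (by omega), ad_adj (by omega), ad_nadj (by omega)⟩

/-- counting triangles -/
theorem sum_tr [Fintype V] [DecidableEq V] (G : SimpleGraph V) [DecidableRel G.Adj] :
    ∑ v, (tr G Finset.univ v : ℤ) = 6 * ((G.cliqueFinset 3).card : ℤ) := by
  classical
  have h1 : ∑ v, (tr G Finset.univ v : ℤ) =
      (((Finset.univ : Finset (V × V × V)).filter (fun q => G.Adj q.1 q.2.1 ∧ G.Adj q.1 q.2.2 ∧
        G.Adj q.2.1 q.2.2)).card : ℤ) := by
    rw [Finset.card_filter]
    push_cast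
    rw [Fintype.sum_prod_type]
    refine Finset.sum_congr rfl fun v _ => ?_
    rw [Fintype.sum_prod_type, tr_eq]
    refine Finset.sum_congr rfl fun x _ => Finset.sum_congr rfl fun y _ => ?_
    by_cases h1 : G.Adj v x
    · by_cases h2 : G.Adj v y
      · by_cases h3 : G.Adj x y
        · rw [if_pos ⟨h1, h2, h3⟩, ad_of G h1, ad_of G h2, ad_of G h3]
          norm_num
        · rw [if_neg (fun h => h3 h.2.2), ad_of_not G h3, mul_zero]
      · rw [if_neg (fun h => h2 h.2.1), ad_of_not G h2, mul_zero, zero_mul]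
    · rw [if_neg (fun h => h1 h.1), ad_of_not G h1, zero_mul, zero_mul]
  rw [h1]
  have h2 : ((Finset.univ : Finset (V × V × V)).filter (fun q => G.Adj q.1 q.2.1 ∧
      G.Adj q.1 q.2.2 ∧ G.Adj q.2.1 q.2.2)).card = ∑ t ∈ G.cliqueFinset 3, 6 := by
    rw [Finset.card_eq_sum_card_fiberwise (t := G.cliqueFinset 3)
      (f := fun q : V × V × V => ({q.1, q.2.1, q.2.2} : Finset V))]
    · refine Finset.sum_congr rfl fun t ht => ?_
      rw [SimpleGraph.mem_cliqueFinset_iff, SimpleGraph.is3Clique_iff] at ht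
      obtain ⟨a, b, c, hab, hac, hbc, rfl⟩ := ht
      have h3 : ((Finset.univ : Finset (V × V × V)).filter (fun q => G.Adj q.1 q.2.1 ∧
          G.Adj q.1 q.2.2 ∧ G.Adj q.2.1 q.2.2)).filter
          (fun q => ({q.1, q.2.1, q.2.2} : Finset V) = {a, b, c}) =
          {(a, b, c), (a, c, b), (b, a, c), (b, c, a), (c, a, b), (c, b, a)} := by
        ext ⟨x, y, z⟩
        simp only [Finset.mem_filter, Finset.mem_univ, true_and, Finset.mem_insert,
          Finset.mem_singleton, Prod.mk.injEq]
        constructor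
        · rintro ⟨⟨h1, h2, h3⟩, h4⟩
          have hx : x ∈ ({a, b, c} : Finset V) := h4 ▸ (by simp)
          have hy : y ∈ ({a, b, c} : Finset V) := h4 ▸ (by simp)
          have hz : z ∈ ({a, b, c} : Finset V) := h4 ▸ (by simp)
          simp only [Finset.mem_insert, Finset.mem_singleton] at hx hy hz
          rcases hx with hx | hx | hx <;> rcases hy with hy | hy | hy <;>
            rcases hz with hz | hz | hz <;>
            first
              | exact absurd (hx.trans hy.symm) h1.ne
              | exact absurd (hx.trans hz.symm) h2.ne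
              | exact absurd (hy.trans hz.symm) h3.ne
              | simp [hx, hy, hz]
        · rintro (⟨rfl, rfl, rfl⟩ | ⟨rfl, rfl, rfl⟩ | ⟨rfl, rfl, rfl⟩ | ⟨rfl, rfl, rfl⟩ |
            ⟨rfl, rfl, rfl⟩ | ⟨rfl, rfl, rfl⟩)
          · exact ⟨⟨hab, hac, hbc⟩, rfl⟩
          · refine ⟨⟨hac, hab, hbc.symm⟩, ?_⟩
            ext t
            simp only [Finset.mem_insert, Finset.mem_singleton]
            tauto
          · refine ⟨⟨hab.symm, hbc, hac⟩, ?_⟩
            ext t
            simp only [Finset.mem_insert, Finset.mem_singleton]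
            tauto
          · refine ⟨⟨hbc, hab.symm, hac.symm⟩, ?_⟩
            ext t
            simp only [Finset.mem_insert, Finset.mem_singleton]
            tauto
          · refine ⟨⟨hac.symm, hbc.symm, hab⟩, ?_⟩
            ext t
            simp only [Finset.mem_insert, Finset.mem_singleton]
            tauto
          · refine ⟨⟨hbc.symm, hac.symm, hab.symm⟩, ?_⟩
            ext t
            simp only [Finset.mem_insert, Finset.mem_singleton]
            tauto
      rw [h3]
      have n1 := hab.ne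
      have n2 := hac.ne
      have n3 := hbc.ne
      rw [Finset.card_insert_of_notMem, Finset.card_insert_of_notMem,
        Finset.card_insert_of_notMem, Finset.card_insert_of_notMem,
        Finset.card_insert_of_notMem, Finset.card_singleton] <;>
        simp [n1, n2, n3, n1.symm, n2.symm, n3.symm]
    · intro q hq
      have hq' := (Finset.mem_filter.mp (Finset.mem_coe.mp hq)).2
      refine Finset.mem_coe.mpr ?_
      rw [SimpleGraph.mem_cliqueFinset_iff, SimpleGraph.is3Clique_iff]
      exact ⟨q.1, q.2.1, q.2.2, hq'.1, hq'.2.1, hq'.2.2, rfl⟩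
  rw [h2, Finset.sum_const, smul_eq_mul]
  push_cast
  ring

theorem chi_univ [Fintype V] [DecidableEq V] (G : SimpleGraph V) [DecidableRel G.Adj] :
    chi G Finset.univ = 6 * ((Fintype.card V : ℤ) - (G.edgeFinset.card : ℤ) +
      ((G.cliqueFinset 3).card : ℤ)) := by
  classical
  unfold chi
  rw [Finset.sum_add_distrib, Finset.sum_sub_distrib, ← Finset.mul_sum, sum_tr,
    Finset.sum_const, nsmul_eq_mul, Finset.card_univ]
  have h1 : ∑ v, (dg G Finset.univ v : ℤ) = 2 * (G.edgeFinset.card : ℤ) := by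
    have h2 := G.sum_degrees_eq_twice_card_edges
    have h3 : ∀ v, dg G Finset.univ v = G.degree v := by
      intro v
      rw [← ncard_degree]
      unfold dg
      rw [← Set.ncard_coe_finset]
      congr 1
      ext x
      simp
    rw [Finset.sum_congr rfl fun v _ => by rw [h3 v]]
    exact_mod_cast h2
  rw [h1]
  ring

end lk

theorem thm_D8 : ∀ (V : Type) [Fintype V] [DecidableEq V] (G : SimpleGraph V)
    [DecidableRel G.Adj], G.Connected → (∀ v, 4 ≤ G.degree v) →
    (∀ v, ((G.induce (G.neighborSet v)).Connected ∧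
            (∀ w, ((G.induce (G.neighborSet v)).neighborSet w).ncard = 2) ∧
            4 ≤ (G.neighborSet v).ncard) ∨
          ((G.induce (G.neighborSet v)).IsTree ∧
            ∀ w, ((G.induce (G.neighborSet v)).neighborSet w).ncard ≤ 2)) →
    (∃ v, Bd G v) →
    (Fintype.card V : ℤ) - (G.edgeFinset.card : ℤ) + ((G.cliqueFinset 3).card : ℤ) = 1 →
    (∀ v, Bd G v → {u | G.Adj v u ∧ Bd G u}.ncard = 2 ∧ {u | G.Adj v u ∧ ¬ Bd G u}.ncard = 2) →
    (∀ v, ¬ Bd G v → (∀ u, G.Adj v u → ¬ Bd G u) → 6 ≤ G.degree v) →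
    ∃ I R : Finset V, I ∪ R = Finset.univ ∧ (∀ v, v ∈ R ↔ Bd G v) ∧
      RingI G (I : Set V) (R : Set V) ∧ Cls G I := by
  classical
  intro V _ _ G _ hconn _ hlink hex hchi hcount hdeg
  have hbd : ∀ v, Bd G v → (G.induce (G.neighborSet v)).IsTree := by
    intro v hv
    rcases hlink v with h | h
    · exact absurd hv (two_regular _ h.1 h.2.1)
    · exact h.1
  have hin : ∀ v, ¬ Bd G v → (G.induce (G.neighborSet v)).Connected ∧
      ∀ x, G.Adj v x → cdg G v x = 2 := by
    intro v hv
    rcases hlink v with h | h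
    · refine ⟨h.1, fun x hx => ?_⟩
      rw [← link_ncard G v ⟨x, hx⟩]
      exact h.2.1 _
    · exact absurd h.1.isAcyclic hv
  obtain ⟨I, hI⟩ : ∃ I : Finset V, ∀ v, v ∈ I ↔ ¬ Bd G v :=
    ⟨Finset.univ.filter (fun v => ¬ Bd G v), fun v => by simp⟩
  obtain ⟨R, hRm⟩ : ∃ R : Finset V, ∀ v, v ∈ R ↔ Bd G v :=
    ⟨Finset.univ.filter (fun v => Bd G v), fun v => by simp⟩
  have hcover : I ∪ R = Finset.univ := by
    ext v
    rw [Finset.mem_union, hI, hRm]
    simp only [Finset.mem_univ, iff_true]
    exact (Classical.em _).symm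
  have hring : RingI G (I : Set V) (R : Set V) := by
    refine ⟨fun v h1 h2 => ?_, fun v hv => ?_⟩
    · rw [Finset.mem_coe, hI] at h1
      rw [Finset.mem_coe, hRm] at h2
      exact h1 h2
    · rw [Finset.mem_coe, hRm] at hv
      obtain ⟨h1, h2⟩ := hcount v hv
      rw [Set.ncard_eq_two] at h1 h2
      obtain ⟨r, s, hrs, e1⟩ := h1
      obtain ⟨a, b, hab, e2⟩ := h2
      have hr : G.Adj v r ∧ Bd G r := by
        have : r ∈ ({r, s} : Set V) := Or.inl rfl
        rw [← e1] at this
        exact this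
      have hs : G.Adj v s ∧ Bd G s := by
        have : s ∈ ({r, s} : Set V) := Or.inr rfl
        rw [← e1] at this
        exact this
      have ha : G.Adj v a ∧ ¬ Bd G a := by
        have : a ∈ ({a, b} : Set V) := Or.inl rfl
        rw [← e2] at this
        exact this
      have hb : G.Adj v b ∧ ¬ Bd G b := by
        have : b ∈ ({a, b} : Set V) := Or.inr rfl
        rw [← e2] at this
        exact this
      have hN : ∀ x, G.Adj v x ↔ x ∈ ({r, s, a, b} : Finset V) := by
        intro x
        simp only [Finset.mem_insert, Finset.mem_singleton]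
        constructor
        · intro hx
          by_cases hbx : Bd G x
          · have : x ∈ ({r, s} : Set V) := by
              rw [← e1]
              exact ⟨hx, hbx⟩
            rcases this with h | h
            · exact Or.inl h
            · exact Or.inr (Or.inl h)
          · have : x ∈ ({a, b} : Set V) := by
              rw [← e2]
              exact ⟨hx, hbx⟩
            rcases this with h | h
            · exact Or.inr (Or.inr (Or.inl h))
            · exact Or.inr (Or.inr (Or.inr h))
        · rintro (h | h | h | h) <;> rw [h]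
          · exact hr.1
          · exact hs.1
          · exact ha.1
          · exact hb.1
      have hca : cdg G v a = 2 := by
        rw [cdg_comm]
        exact (hin a ha.2).2 v ha.1.symm
      have hcb : cdg G v b = 2 := by
        rw [cdg_comm]
        exact (hin b hb.2).2 v hb.1.symm
      obtain ⟨k1, k2, k3⟩ := bd_link (hbd v hv) hrs hab (fun h => ha.2 (h ▸ hr.2))
        (fun h => hb.2 (h ▸ hr.2)) (fun h => ha.2 (h ▸ hs.2)) (fun h => hb.2 (h ▸ hs.2)) hN hca hcb
      have hrR : r ∈ (R : Set V) := Finset.mem_coe.mpr ((hRm r).mpr hr.2)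
      have hsR : s ∈ (R : Set V) := Finset.mem_coe.mpr ((hRm s).mpr hs.2)
      have haI : a ∈ (I : Set V) := Finset.mem_coe.mpr ((hI a).mpr ha.2)
      have hbI : b ∈ (I : Set V) := Finset.mem_coe.mpr ((hI b).mpr hb.2)
      rcases k3 with ⟨g1, g2, g3, g4⟩ | ⟨g1, g2, g3, g4⟩
      · refine ⟨r, s, a, b, hrR, hsR, haI, hbI, fun x => ?_, g1, k1, g4.symm, hrs, g2,
          fun h => g3 h.symm, k2⟩
        rw [hN]
        simp only [Finset.mem_insert, Finset.mem_singleton]
        tauto
      · refine ⟨r, s, b, a, hrR, hsR, hbI, haI, fun x => ?_, g2, k1.symm, g3.symm, hrs, g1,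
          fun h => g4 h.symm, k2⟩
        rw [hN]
        simp only [Finset.mem_insert, Finset.mem_singleton]
        tauto
  refine ⟨I, R, hcover, hRm, hring, ?_⟩
  have hIR : ∀ v, v ∉ I → v ∈ (R : Set V) := by
    intro v hv
    rw [Finset.mem_coe, hRm]
    by_contra h
    exact hv ((hI v).mpr h)
  have two : ∀ r ∈ (R : Set V), ∀ u ∈ (I : Set V), ∀ u' ∈ (I : Set V), G.Adj r u → G.Adj r u' →
      u = u' ∨ G.Adj u u' := by
    intro r hr u hu u' hu' h h'
    obtain ⟨r', r'', a, b, h1, h2, h3, h4, h5, h6, h7, -⟩ := hring.nb r hr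
    have key' : ∀ t, t ∈ (I : Set V) → G.Adj r t → t = a ∨ t = b := by
      intro t ht hyt
      rcases (h5 t).mp hyt with g | g | g | g
      · exact (hring.disj t ht (g ▸ h1)).elim
      · exact Or.inl g
      · exact Or.inr g
      · exact (hring.disj t ht (g ▸ h2)).elim
    rcases key' u hu h with g | g <;> rcases key' u' hu' h' with g' | g'
    · exact Or.inl (g.trans g'.symm)
    · exact Or.inr (g ▸ g' ▸ h7)
    · exact Or.inr (g ▸ g' ▸ h7.symm)
    · exact Or.inl (g.trans g'.symm)
  refine ⟨?_, ?_, ?_, ?_, ?_⟩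
  · -- nonempty
    obtain ⟨v, hv⟩ := hex
    obtain ⟨r', r'', a, b, h1, h2, h3, -⟩ := hring.nb v (Finset.mem_coe.mpr ((hRm v).mpr hv))
    exact ⟨a, Finset.mem_coe.mp h3⟩
  · -- connected
    intro x hx y hy
    have main : ∀ z, Relation.ReflTransGen G.Adj x z →
        (z ∈ (I : Set V) → Relation.ReflTransGen (fun a b => G.Adj a b ∧ b ∈ (I : Set V)) x z) ∧
        (z ∈ (R : Set V) → ∀ u ∈ (I : Set V), G.Adj z u →
          Relation.ReflTransGen (fun a b => G.Adj a b ∧ b ∈ (I : Set V)) x u) := by
      intro z hz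
      induction hz with
      | refl => exact ⟨fun _ => Relation.ReflTransGen.refl, fun h => (hring.disj x hx h).elim⟩
      | @tail z z' _ h2 ih =>
        refine ⟨fun hz' => ?_, fun hz' u hu hzu => ?_⟩
        · by_cases hz : z ∈ I
          · exact (ih.1 (Finset.mem_coe.mpr hz)).tail ⟨h2, hz'⟩
          · exact ih.2 (hIR z hz) z' hz' h2
        · by_cases hz : z ∈ I
          · have h3 := ih.1 (Finset.mem_coe.mpr hz)
            rcases two z' hz' z (Finset.mem_coe.mpr hz) u hu h2.symm hzu with h4 | h4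
            · rw [← h4]
              exact h3
            · exact h3.tail ⟨h4, hu⟩
          · obtain ⟨c, hc, h4, h5⟩ := ring_w hring (hIR z hz) hz' h2
            have h3 := ih.2 (hIR z hz) c hc h4
            rcases two z' hz' c hc u hu h5 hzu with h6 | h6
            · rw [← h6]
              exact h3
            · exact h3.tail ⟨h6, hu⟩
    have h1 : Relation.ReflTransGen G.Adj x y :=
      (SimpleGraph.reachable_iff_reflTransGen x y).mp (hconn.preconnected x y)
    exact (main y h1).1 hy
  · -- E2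
    intro v hv x hx hvx a ha b hb c hc hab hac hbc h1 h2 h3 h4 h5 h6
    rw [Finset.mem_coe, hI] at hv
    rcases cdg_two ((hin v hv).2 x hvx) h1 h4 h2 h5 hab h3 h6 with h | h
    · exact hac h.symm
    · exact hbc h.symm
  · -- LF
    intro v hv T hT h1 h2
    rw [Finset.mem_coe, hI] at hv
    obtain ⟨t0, ht0⟩ := hT
    have hstep : ∀ t t', t ∈ T → G.Adj v t' → G.Adj t t' → t' ∈ T := by
      intro t t' ht hvt' htt'
      obtain ⟨y, hy, z, hz, hyz, hty, htz⟩ := h2 t ht
      rcases cdg_two ((hin v hv).2 t (h1 t ht).2) (h1 y hy).2 hty (h1 z hz).2 htz hyz hvt' htt'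
        with h | h
      · rw [h]
        exact hy
      · rw [h]
        exact hz
    have hall : ∀ x, G.Adj v x → x ∈ T := by
      intro x hx
      have h3 := (hin v hv).1.preconnected ⟨t0, (h1 t0 ht0).2⟩ ⟨x, hx⟩
      obtain ⟨p⟩ := h3
      have h4 : ∀ u w : G.neighborSet v, (G.induce (G.neighborSet v)).Walk u w → u.1 ∈ T →
          w.1 ∈ T := by
        intro u w p
        induction p with
        | nil => exact fun h => h
        | @cons u u' w h _ ih => exact fun hu => ih (hstep u.1 u'.1 hu u'.2 h)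
      exact h4 _ _ p ht0
    refine ⟨?_, fun x _ hx => hall x hx⟩
    have h3 : 6 ≤ G.degree v := by
      apply hdeg v hv
      intro u hu
      have h4 := (h1 u (hall u hu)).1
      rw [Finset.mem_coe, hI] at h4
      exact h4
    refine h3.trans ?_
    rw [← SimpleGraph.card_neighborFinset_eq_degree]
    apply Finset.card_le_card
    intro x hx
    rw [SimpleGraph.mem_neighborFinset] at hx
    exact hall x hx
  · -- chi
    rw [thm_D7 V G I R hcover hring, chi_univ, hchi]
    norm_num

end Pool.Agent.CLQD
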