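import Pool.Agent.CLQD.D4b
import Pool.Agent.CLQD.D6
import Pool.Agent.CLQD.D8

/-!
# CLQD module D9: assembly of the disc side
-/

set_option autoImplicit false

namespace Pool.Agent.CLQD

/-- A ringed graph whose inner part is in the class is null. -/
theorem ring_null {V : Type} [Fintype V] [DecidableEq V] (G : SimpleGraph V) (I R : Finset V)
    (hc : I ∪ R = Finset.univ) (hr : RingI G (I : Set V) (R : Set V)) (hI : Cls G I)
    (N : Set V → Prop) (hK : KSide G N) : N Set.univ := by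
  obtain ⟨⟨d, hd⟩, hN⟩ := thm_D3 V G I hI
  have h1 := thm_D6 thm_D4 V G (I : Set V) (R : Set V) d N hr hK hd hI.lf (hN N hK)
  have h2 : (I : Set V) ∪ (R : Set V) = Set.univ := by
    rw [← Finset.coe_union, hc, Finset.coe_univ]
  rw [h2] at h1
  exact h1

/-- The disc side: under the hypotheses of the theorem the graph is null. -/
theorem disc_null (V : Type) [Fintype V] [DecidableEq V] (G : SimpleGraph V)
    [DecidableRel G.Adj] (h0 : G.Connected) (h1 : ∀ v, 4 ≤ G.degree v)
    (h2 : ∀ v, ((G.induce (G.neighborSet v)).Connected ∧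
            (∀ w, ((G.induce (G.neighborSet v)).neighborSet w).ncard = 2) ∧
            4 ≤ (G.neighborSet v).ncard) ∨
          ((G.induce (G.neighborSet v)).IsTree ∧
            ∀ w, ((G.induce (G.neighborSet v)).neighborSet w).ncard ≤ 2))
    (h3 : ∃ v, Bd G v)
    (h4 : (Fintype.card V : ℤ) - (G.edgeFinset.card : ℤ) + ((G.cliqueFinset 3).card : ℤ) = 1)
    (h5 : ∀ v, Bd G v →
      {u | G.Adj v u ∧ Bd G u}.ncard = 2 ∧ {u | G.Adj v u ∧ ¬ Bd G u}.ncard = 2)
    (h6 : ∀ v, ¬ Bd G v → (∀ u, G.Adj v u → ¬ Bd G u) → 6 ≤ G.degree v)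
    (N : Set V → Prop) (hK : KSide G N) : N Set.univ := by
  obtain ⟨I, R, hc, _, hr, hI⟩ := thm_D8 V G h0 h1 h2 h3 h4 h5 h6
  exact ring_null G I R hc hr hI N hK

end Pool.Agent.CLQD
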