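import Pool.Agent.CLQD.D0

/-!
# CLQD module D1: the triangle condition and the interval-neighbourhood condition extend over a
vertex whose neighbours form a path with at most three vertices
-/

set_option autoImplicit false

namespace Pool.Agent.CLQD

variable {V : Type} {G : SimpleGraph V} {S : Set V} {d : V → V → ℕ}

theorem AE.sy {x y : V} (h : AE G x y) : AE G y x := by
  rcases h with h | h
  · exact Or.inl h.symm
  · exact Or.inr h.symm

/-- no cycles of length four or five in links -/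
def WF (G : SimpleGraph V) (S : Set V) : Prop :=
  ∀ q ∈ S, ∀ z ∈ S, ∀ v ∈ S, ∀ y ∈ S, ∀ y' ∈ S, ∀ w ∈ S, G.Adj q z → G.Adj q v → G.Adj q y →
    G.Adj q y' → G.Adj q w → G.Adj z v → G.Adj v y → AE G y y' → G.Adj y' w → G.Adj w z →
    v ≠ w → z ≠ y → z ≠ y' → v ≠ y' → y ≠ w → False

theorem par (h : TI G S d) {a b v w : V} (ha : a ∈ S) (hb : b ∈ S) (hv : v ∈ S) (hw : w ∈ S)
    (hab : G.Adj a b) (hvw : G.Adj v w) {m : ℕ} (h1 : d a v = m + 1) (h2 : d b w = m + 1)
    (h3 : d a w = m + 2) (h4 : d b v = m + 2) : False := by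
  obtain ⟨w', hw', a1, a2⟩ := h.met.geo b hb w hw m h2
  have e1 := h.met.lip w' hw' b hb a ha hab.symm
  have e2 := h.met.lip a ha w' hw' w hw a1.symm
  rw [h.met.symm w' hw' a ha, h.met.symm w' hw' b hb] at e1
  have e3 : d a w' = m + 1 := by omega
  rcases h.inc a ha w hw v hv w' hw' (m + 1) h3 hvw.symm a1 h1 e3 with e4 | e4
  · rw [e4] at h4
    omega
  · have e5 := h.met.lip b hb w' hw' v hv e4.symm
    omega

theorem cl (h : TI G S d) (hW : WF G S) {a b : V} (ha : a ∈ S) (hb : b ∈ S) (hab : G.Adj a b) :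
    ∀ m, ∀ z ∈ S, d z a = m + 2 → d z b = m + 2 → ∀ v ∈ S, ∀ w ∈ S, G.Adj z v → G.Adj z w →
      d v a = m + 1 → d w b = m + 1 → d v b = m + 1 ∨ d w a = m + 1 := by
  intro m
  induction m with
  | zero =>
    intro z hz h1 h2 v hv w hw zv zw h3 h4
    by_contra hcon
    rw [not_or] at hcon
    obtain ⟨h5, h6⟩ := hcon
    obtain ⟨x, hx, ax, bx, zx⟩ := h.tc z hz a ha b hb _ hab h1 h2
    obtain ⟨q, hq, zq, xq⟩ := h.met.geo x hx z hz 0 (by rw [h.met.symm x hx z hz]; exact zx)
    have hsym := h.met.symm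
    have l1 := h.met.lip q hq x hx a ha ax.symm
    have l2 := h.met.lip q hq x hx b hb bx.symm
    rw [hsym q hq x hx] at l1 l2
    have l3 := h.met.lip a ha q hq z hz zq.symm
    have l4 := h.met.lip b hb q hq z hz zq.symm
    rw [hsym a ha q hq, hsym a ha z hz] at l3
    rw [hsym b hb q hq, hsym b hb z hz] at l4
    have qa : d q a = 1 := by omega
    have qb : d q b = 1 := by omega
    have va : d a v = 1 := by rw [hsym a ha v hv]; exact h3
    have wb : d b w = 1 := by rw [hsym b hb w hw]; exact h4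
    have aq : d a q = 1 := by rw [hsym a ha q hq]; exact qa
    have bq : d b q = 1 := by rw [hsym b hb q hq]; exact qb
    have az : d a z = 2 := by rw [hsym a ha z hz]; exact h1
    have bz : d b z = 2 := by rw [hsym b hb z hz]; exact h2
    have vq : G.Adj v q := by
      rcases h.inc a ha z hz v hv q hq 1 az zv zq va aq with e | e
      · rw [e] at h5
        exact absurd qb h5
      · exact e
    have wq : G.Adj w q := by
      rcases h.inc b hb z hz w hw q hq 1 bz zw zq wb bq with e | e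
      · rw [e] at h6
        exact absurd qa h6
      · exact e
    obtain ⟨y, hy, vy, qy, ay⟩ := h.tc a ha v hv q hq 0 vq va aq
    obtain ⟨y', hy', qy', wy', by'⟩ := h.tc b hb q hq w hw 0 wq.symm bq wb
    have ey : a = y := (h.met.zero a ha y hy).1 ay
    have ey' : b = y' := (h.met.zero b hb y' hy').1 by'
    subst ey
    subst ey'
    refine hW q hq z hz v hv a hy b hy' w hw zq.symm vq.symm qy qy' wq.symm zv vy (Or.inr hab)
      wy'.symm zw.symm ?_ ?_ ?_ ?_ ?_
    · intro e
      rw [e] at h5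
      exact h5 h4
    · intro e
      rw [e, ay] at h1
      omega
    · intro e
      rw [e, by'] at h2
      omega
    · intro e
      rw [e] at h3
      have l5 := h.met.lip v hv b hb z hz (by rw [← e]; exact zv.symm)
      rw [e] at l5
      rw [by', hsym b hb z hz] at l5
      omega
    · intro e
      have l5 := h.met.lip a ha w hw z hz zw.symm
      rw [← e, ay] at l5
      omega
  | succ k ih =>
    intro z hz h1 h2 v hv w hw zv zw h3 h4
    by_contra hcon
    rw [not_or] at hcon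
    obtain ⟨h5, h6⟩ := hcon
    obtain ⟨x, hx, ax, bx, zx⟩ := h.tc z hz a ha b hb _ hab h1 h2
    obtain ⟨q, hq, zq, xq⟩ := h.met.geo x hx z hz (k + 1) (by rw [h.met.symm x hx z hz]; exact zx)
    have hsym := h.met.symm
    have l1 := h.met.lip q hq x hx a ha ax.symm
    have l2 := h.met.lip q hq x hx b hb bx.symm
    rw [hsym q hq x hx] at l1 l2
    have l3 := h.met.lip a ha q hq z hz zq.symm
    have l4 := h.met.lip b hb q hq z hz zq.symm
    rw [hsym a ha q hq, hsym a ha z hz] at l3
    rw [hsym b hb q hq, hsym b hb z hz] at l4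
    have qa : d q a = k + 2 := by omega
    have qb : d q b = k + 2 := by omega
    have va : d a v = k + 2 := by rw [hsym a ha v hv]; exact h3
    have wb : d b w = k + 2 := by rw [hsym b hb w hw]; exact h4
    have aq : d a q = k + 2 := by rw [hsym a ha q hq]; exact qa
    have bq : d b q = k + 2 := by rw [hsym b hb q hq]; exact qb
    have az : d a z = k + 3 := by rw [hsym a ha z hz]; exact h1
    have bz : d b z = k + 3 := by rw [hsym b hb z hz]; exact h2
    have vq : G.Adj v q := by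
      rcases h.inc a ha z hz v hv q hq (k + 2) az zv zq va aq with e | e
      · rw [e] at h5
        exact absurd qb h5
      · exact e
    have wq : G.Adj w q := by
      rcases h.inc b hb z hz w hw q hq (k + 2) bz zw zq wb bq with e | e
      · rw [e] at h6
        exact absurd qa h6
      · exact e
    obtain ⟨y, hy, vy, qy, ay⟩ := h.tc a ha v hv q hq (k + 1) vq va aq
    obtain ⟨y', hy', qy', wy', by'⟩ := h.tc b hb q hq w hw (k + 1) wq.symm bq wb
    have yy' : AE G y y' := by
      rcases ih q hq qa qb y hy y' hy' qy qy' (by rw [hsym y hy a ha]; exact ay)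
        (by rw [hsym y' hy' b hb]; exact by') with e | e
      · exact h.inc b hb q hq y hy y' hy' (k + 1) bq qy qy' (by rw [hsym b hb y hy]; exact e) by'
      · exact h.inc a ha q hq y hy y' hy' (k + 1) aq qy qy' ay (by rw [hsym a ha y' hy']; exact e)
    have lv := h.met.lip b hb v hv z hz zv.symm
    have lw := h.met.lip a ha w hw z hz zw.symm
    refine hW q hq z hz v hv y hy y' hy' w hw zq.symm vq.symm qy qy' wq.symm zv vy yy'
      wy'.symm zw.symm ?_ ?_ ?_ ?_ ?_
    · intro e
      rw [e] at h5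
      exact h5 h4
    · intro e
      rw [e] at az
      omega
    · intro e
      rw [e] at bz
      omega
    · intro e
      rw [e] at lv
      omega
    · intro e
      rw [← e] at lw
      omega

/-- the situation of module D1b -/
structure Ctx (G : SimpleGraph V) (S : Set V) (d : V → V → ℕ) (a b c : V) : Prop where
  h : TI G S d
  ha : a ∈ S
  hb : b ∈ S
  hc : c ∈ S
  ab : G.Adj a b
  bc : G.Adj b c
  ac : a ≠ c
  nac : ¬ G.Adj a c
  W : WF G S
  L : ∀ x ∈ S, ∀ y ∈ S, G.Adj a x → G.Adj b x → G.Adj b y → G.Adj c y → AE G x y → False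

theorem Ctx.sym {a b c : V} (C : Ctx G S d a b c) : Ctx G S d c b a where
  h := C.h
  ha := C.hc
  hb := C.hb
  hc := C.ha
  ab := C.bc.symm
  bc := C.ab.symm
  ac := C.ac.symm
  nac := fun e => C.nac e.symm
  W := C.W
  L := fun x hx y hy h1 h2 h3 h4 h5 => C.L y hy x hx h4 h3 h2 h1 h5.sy

theorem Ctx.nae {a b c : V} (C : Ctx G S d a b c) : ¬ AE G a c := by
  rintro (e | e)
  · exact C.ac e
  · exact C.nac e

theorem Ctx.no3 {a b c : V} (C : Ctx G S d a b c) {z : V} (hz : z ∈ S) {k : ℕ}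
    (h1 : d z a = k + 1) (h2 : d z b = k + 1) (h3 : d z c = k + 1) : False := by
  obtain ⟨x, hx, x1, x2, x3⟩ := C.h.tc z hz a C.ha b C.hb k C.ab h1 h2
  obtain ⟨y, hy, y1, y2, y3⟩ := C.h.tc z hz b C.hb c C.hc k C.bc h2 h3
  exact C.L x hx y hy x1 x2 y1 y2 (C.h.inc z hz b C.hb x hx y hy k h2 x2 y1 x3 y3)

theorem Ctx.t1 {a b c : V} (C : Ctx G S d a b c) {u : V} (hu : u ∈ S) {k : ℕ}
    (h1 : d u a = k + 1) (h3 : d u c = k) : d u b = k := by
  by_contra hne
  have l1 := C.h.met.lip u hu c C.hc b C.hb C.bc.symm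
  have l2 := C.h.met.lip u hu b C.hb a C.ha C.ab.symm
  have h2 : d u b = k + 1 := by omega
  obtain ⟨x, hx, x1, x2, x3⟩ := C.h.tc u hu a C.ha b C.hb k C.ab h1 h2
  rcases C.h.inc u hu b C.hb x hx c C.hc k h2 x2 C.bc x3 h3 with e | e
  · rw [e] at x1
    exact C.nac x1
  · exact C.L x hx x hx x1 x2 x2 e.symm (Or.inl rfl)

theorem Ctx.i1 {a b c : V} (C : Ctx G S d a b c) {u : V} (hu : u ∈ S) {k : ℕ}
    (h1 : d u a = k) (h2 : k ≤ d u b) (h3 : d u c = k) : False := by
  have l1 := C.h.met.lip u hu c C.hc b C.hb C.bc.symm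
  rcases Nat.lt_or_ge k (d u b) with hlt | hge
  · have h2' : d u b = k + 1 := by omega
    exact C.nae (C.h.inc u hu b C.hb a C.ha c C.hc k h2' C.ab.symm C.bc h1 h3)
  · have h2' : d u b = k := by omega
    cases k with
    | zero =>
      have e1 := (C.h.met.zero u hu a C.ha).1 h1
      have e2 := (C.h.met.zero u hu c C.hc).1 h3
      exact C.ac (e1.symm.trans e2)
    | succ j => exact C.no3 hu h1 h2' h3

theorem Ctx.i2 {a b c : V} (C : Ctx G S d a b c) {u w : V} (hu : u ∈ S) (hw : w ∈ S) {j : ℕ}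
    (h1 : d u a = j) (h3 : d u c = j + 2) (cw : G.Adj c w) (uw : d u w = j + 1) : w = b := by
  have l1 := C.h.met.lip u hu a C.ha b C.hb C.ab
  have l2 := C.h.met.lip u hu b C.hb c C.hc C.bc
  have h2 : d u b = j + 1 := by omega
  rcases C.h.inc u hu c C.hc b C.hb w hw (j + 1) h3 C.bc.symm cw h2 uw with e | e
  · exact e.symm
  · exfalso
    obtain ⟨x, hx, x1, x2, x3⟩ := C.h.tc u hu b C.hb w hw j e h2 uw
    rcases C.h.inc u hu b C.hb a C.ha x hx j h2 C.ab.symm x1 h1 x3 with e' | e'
    · rw [← e'] at x2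
      exact C.L w hw w hw x2.symm e e cw (Or.inl rfl)
    · exact C.L x hx w hw e' x1 e cw (Or.inr x2.symm)

/-- distance to the path -/
def mn (d : V → V → ℕ) (a b c x : V) : ℕ := min (min (d a x) (d b x)) (d c x)

theorem mn_a (a b c x : V) : mn d a b c x ≤ d a x := (min_le_left _ _).trans (min_le_left _ _)

theorem mn_b (a b c x : V) : mn d a b c x ≤ d b x := (min_le_left _ _).trans (min_le_right _ _)

theorem mn_c (a b c x : V) : mn d a b c x ≤ d c x := min_le_right _ _

theorem mn_ge {a b c x : V} {k : ℕ} (h1 : k ≤ d a x) (h2 : k ≤ d b x) (h3 : k ≤ d c x) :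
    k ≤ mn d a b c x := le_min (le_min h1 h2) h3

theorem mn_or (a b c x : V) :
    d a x = mn d a b c x ∨ d b x = mn d a b c x ∨ d c x = mn d a b c x := by
  unfold mn
  rcases min_choice (min (d a x) (d b x)) (d c x) with e | e
  · rw [e]
    rcases min_choice (d a x) (d b x) with e' | e'
    · exact Or.inl e'.symm
    · exact Or.inr (Or.inl e'.symm)
  · exact Or.inr (Or.inr e.symm)

theorem mn_sym (a b c x : V) : mn d a b c x = mn d c b a x := by
  unfold mn
  rw [min_comm (d a x) (d b x), min_comm (min (d b x) (d a x)) (d c x), ← min_assoc,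
    min_comm (d c x) (d b x), min_comm (d b x) (d c x)]

theorem Ctx.t2ab {a b c : V} (C : Ctx G S d a b c) {x y : V} (hx : x ∈ S) (hy : y ∈ S) {j : ℕ}
    (xy : G.Adj x y) (mx : mn d a b c x = j + 1) (my : mn d a b c y = j + 1)
    (h1 : d a x = j + 1) (h2 : d b y = j + 1) :
    (d a x = j + 1 ∧ d a y = j + 1) ∨ (d b x = j + 1 ∧ d b y = j + 1) := by
  by_contra hcon
  rw [not_or] at hcon
  have l1 := C.h.met.lip x hx a C.ha b C.hb C.ab
  have l2 := C.h.met.lip y hy b C.hb a C.ha C.ab.symm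
  rw [C.h.met.symm x hx a C.ha, C.h.met.symm x hx b C.hb] at l1
  rw [C.h.met.symm y hy a C.ha, C.h.met.symm y hy b C.hb] at l2
  have m1 := mn_a (d := d) a b c y
  have m2 := mn_b (d := d) a b c x
  rw [my] at m1
  rw [mx] at m2
  have n1 : d a y ≠ j + 1 := fun e => hcon.1 ⟨h1, e⟩
  have n2 : d b x ≠ j + 1 := fun e => hcon.2 ⟨e, h2⟩
  have k1 : d a y = j + 2 := by clear hcon mx my l1 h1 n2; omega
  have k2 : d b x = j + 2 := by clear hcon mx my l2 h2 n1 k1; omega
  exact par C.h C.ha C.hb hx hy C.ab xy h1 h2 k1 k2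

theorem Ctx.t2 {a b c : V} (C : Ctx G S d a b c) {x y : V} (hx : x ∈ S) (hy : y ∈ S) {j : ℕ}
    (xy : G.Adj x y) (mx : mn d a b c x = j + 1) (my : mn d a b c y = j + 1) :
    (d a x = j + 1 ∧ d a y = j + 1) ∨ (d b x = j + 1 ∧ d b y = j + 1) ∨
      (d c x = j + 1 ∧ d c y = j + 1) := by
  have mx' : mn d c b a x = j + 1 := by rw [← mn_sym]; exact mx
  have my' : mn d c b a y = j + 1 := by rw [← mn_sym]; exact my
  have hab : ∀ {x y : V}, x ∈ S → y ∈ S → G.Adj x y → mn d a b c x = j + 1 →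
      mn d a b c y = j + 1 → d a x = j + 1 → d b y = j + 1 →
      (d a x = j + 1 ∧ d a y = j + 1) ∨ (d b x = j + 1 ∧ d b y = j + 1) ∨
        (d c x = j + 1 ∧ d c y = j + 1) := by
    intro x y hx hy xy mx my h1 h2
    rcases C.t2ab hx hy xy mx my h1 h2 with e | e
    · exact Or.inl e
    · exact Or.inr (Or.inl e)
  have hcb : ∀ {x y : V}, x ∈ S → y ∈ S → G.Adj x y → mn d a b c x = j + 1 →
      mn d a b c y = j + 1 → d c x = j + 1 → d b y = j + 1 →
      (d a x = j + 1 ∧ d a y = j + 1) ∨ (d b x = j + 1 ∧ d b y = j + 1) ∨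
        (d c x = j + 1 ∧ d c y = j + 1) := by
    intro x y hx hy xy mx my h1 h2
    rw [mn_sym] at mx my
    rcases C.sym.t2ab hx hy xy mx my h1 h2 with e | e
    · exact Or.inr (Or.inr e)
    · exact Or.inr (Or.inl e)
  have hac : ∀ {x y : V}, x ∈ S → y ∈ S → G.Adj x y → mn d a b c x = j + 1 →
      mn d a b c y = j + 1 → d a x = j + 1 → d c y = j + 1 →
      (d a x = j + 1 ∧ d a y = j + 1) ∨ (d b x = j + 1 ∧ d b y = j + 1) ∨
        (d c x = j + 1 ∧ d c y = j + 1) := by
    intro x y hx hy xy mx my h1 h2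
    by_cases hbx : d b x = j + 1
    · rcases hcb hy hx xy.symm my mx h2 hbx with e | e | e
      · exact Or.inl ⟨e.2, e.1⟩
      · exact Or.inr (Or.inl ⟨e.2, e.1⟩)
      · exact Or.inr (Or.inr ⟨e.2, e.1⟩)
    by_cases hby : d b y = j + 1
    · exact hab hx hy xy mx my h1 hby
    by_contra hcon
    rw [not_or, not_or] at hcon
    have l1 := C.h.met.lip x hx a C.ha b C.hb C.ab
    rw [C.h.met.symm x hx a C.ha, C.h.met.symm x hx b C.hb] at l1
    have l2 := C.h.met.lip c C.hc y hy x hx xy.symm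
    have m1 := mn_b (d := d) a b c x
    have m2 := mn_c (d := d) a b c x
    rw [mx] at m1 m2
    have n1 : d c x ≠ j + 1 := fun e => hcon.2.2 ⟨e, h2⟩
    have xb : d x b = j + 2 := by
      rw [C.h.met.symm x hx b C.hb]
      clear hcon mx my hby m2 n1 l2
      omega
    have xc : d x c = j + 2 := by
      rw [C.h.met.symm x hx c C.hc]
      clear hcon mx my hby l1 m1 hbx xb
      omega
    obtain ⟨z, hz, z1, z2, z3⟩ := C.h.tc x hx b C.hb c C.hc (j + 1) C.bc xb xc
    rcases C.h.inc x hx b C.hb a C.ha z hz (j + 1) xb C.ab.symm z1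
      (by rw [C.h.met.symm x hx a C.ha]; exact h1) z3 with e | e
    · rw [← e] at z2
      exact C.nac z2.symm
    · exact C.L z hz z hz e z1 z1 z2 (Or.inl rfl)
  have cx := mn_or (d := d) a b c x
  have cy := mn_or (d := d) a b c y
  rw [mx] at cx
  rw [my] at cy
  rcases cx with cx | cx | cx
  · rcases cy with cy | cy | cy
    · exact Or.inl ⟨cx, cy⟩
    · exact hab hx hy xy mx my cx cy
    · exact hac hx hy xy mx my cx cy
  · rcases cy with cy | cy | cy
    · rcases hab hy hx xy.symm my mx cy cx with e | e | e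
      · exact Or.inl ⟨e.2, e.1⟩
      · exact Or.inr (Or.inl ⟨e.2, e.1⟩)
      · exact Or.inr (Or.inr ⟨e.2, e.1⟩)
    · exact Or.inr (Or.inl ⟨cx, cy⟩)
    · rcases hcb hy hx xy.symm my mx cy cx with e | e | e
      · exact Or.inl ⟨e.2, e.1⟩
      · exact Or.inr (Or.inl ⟨e.2, e.1⟩)
      · exact Or.inr (Or.inr ⟨e.2, e.1⟩)
  · rcases cy with cy | cy | cy
    · rcases hac hy hx xy.symm my mx cy cx with e | e | e
      · exact Or.inl ⟨e.2, e.1⟩
      · exact Or.inr (Or.inl ⟨e.2, e.1⟩)
      · exact Or.inr (Or.inr ⟨e.2, e.1⟩)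
    · exact hcb hx hy xy mx my cx cy
    · exact Or.inr (Or.inr ⟨cx, cy⟩)

theorem Ctx.i3ab {a b c : V} (C : Ctx G S d a b c) {z v w : V} (hz : z ∈ S) (hv : v ∈ S)
    (hw : w ∈ S) {j : ℕ} (mz : mn d a b c z = j + 1)
    (zv : G.Adj z v) (zw : G.Adj z w) (h1 : d a v = j) (h2 : d b w = j) :
    AE G v w := by
  have hsym := C.h.met.symm
  have m1 := mn_a (d := d) a b c z
  have m2 := mn_b (d := d) a b c z
  rw [mz] at m1 m2
  have l1 := C.h.met.lip a C.ha v hv z hz zv.symm
  have l2 := C.h.met.lip b C.hb w hw z hz zw.symm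
  have za : d a z = j + 1 := by clear mz l2 m2; omega
  have zb : d b z = j + 1 := by clear mz l1 m1 za; omega
  by_cases hbv : d b v = j
  · exact C.h.inc b C.hb z hz v hv w hw j zb zv zw hbv h2
  by_cases haw : d a w = j
  · exact C.h.inc a C.ha z hz v hv w hw j za zv zw h1 haw
  cases j with
  | zero =>
    have e1 := (C.h.met.zero a C.ha v hv).1 h1
    have e2 := (C.h.met.zero b C.hb w hw).1 h2
    subst e1
    subst e2
    exact Or.inr C.ab
  | succ k =>
    exfalso
    rcases cl C.h C.W C.ha C.hb C.ab k z hz (by rw [hsym z hz a C.ha]; exact za)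
      (by rw [hsym z hz b C.hb]; exact zb) v hv w hw zv zw
      (by rw [hsym v hv a C.ha]; exact h1) (by rw [hsym w hw b C.hb]; exact h2) with e | e
    · rw [hsym v hv b C.hb] at e
      exact hbv e
    · rw [hsym w hw a C.ha] at e
      exact haw e

theorem Ctx.i3 {a b c : V} (C : Ctx G S d a b c) {z v w : V} (hz : z ∈ S) (hv : v ∈ S)
    (hw : w ∈ S) {j : ℕ} (mz : mn d a b c z = j + 1) (mv : mn d a b c v = j)
    (mw : mn d a b c w = j) (zv : G.Adj z v) (zw : G.Adj z w) : AE G v w := by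
  have hsym := C.h.met.symm
  have mz' : mn d c b a z = j + 1 := by rw [← mn_sym]; exact mz
  have m1 := mn_a (d := d) a b c z
  have m2 := mn_b (d := d) a b c z
  have m3 := mn_c (d := d) a b c z
  rw [mz] at m1 m2 m3
  have cv := mn_or (d := d) a b c v
  have cw := mn_or (d := d) a b c w
  rw [mv] at cv
  rw [mw] at cw
  have same : ∀ α ∈ S, j + 1 ≤ d α z → d α v = j → d α w = j → AE G v w := by
    intro α hα h0 h1 h2
    have l1 := C.h.met.lip α hα v hv z hz zv.symm
    have l0 : d α z = j + 1 := by clear cv cw m1 m2 m3 mz mz' mv mw h2; omega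
    exact C.h.inc α hα z hz v hv w hw j l0 zv zw h1 h2
  have hac : ∀ {v w : V}, v ∈ S → w ∈ S → G.Adj z v → G.Adj z w → d a v = j → d c w = j →
      AE G v w := by
    intro v w hv hw zv zw h1 h2
    by_cases hbv : d b v = j
    · exact (C.sym.i3ab hz hw hv mz' zw zv h2 hbv).sy
    by_cases hbw : d b w = j
    · exact C.i3ab hz hv hw mz zv zw h1 hbw
    exfalso
    have l1 := C.h.met.lip a C.ha v hv z hz zv.symm
    have l2 := C.h.met.lip c C.hc w hw z hz zw.symm
    clear same cv cw
    have za : d z a = j + 1 := by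
      rw [hsym z hz a C.ha]
      clear hbv hbw l2 m2 m3 mz mz' mv mw
      omega
    have zc : d z c = j + 1 := by
      rw [hsym z hz c C.hc]
      clear hbv hbw l1 m2 m1 mz mz' mv mw za
      omega
    have l4 : j + 1 ≤ d z b := by
      rw [hsym z hz b C.hb]
      exact m2
    exact C.i1 hz za l4 zc
  rcases cv with cv | cv | cv
  · rcases cw with cw | cw | cw
    · exact same a C.ha m1 cv cw
    · exact C.i3ab hz hv hw mz zv zw cv cw
    · exact hac hv hw zv zw cv cw
  · rcases cw with cw | cw | cw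
    · exact (C.i3ab hz hw hv mz zw zv cw cv).sy
    · exact same b C.hb m2 cv cw
    · exact (C.sym.i3ab hz hw hv mz' zw zv cw cv).sy
  · rcases cw with cw | cw | cw
    · exact (hac hw hv zw zv cw cv).sy
    · exact C.sym.i3ab hz hv hw mz' zv zw cv cw
    · exact same c C.hc m3 cv cw

end Pool.Agent.CLQD
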