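import Pool.Agent.CLQD.D1b

/-!
# CLQD module D1a: extension over a vertex whose neighbours form a clique with one or two vertices
-/

set_option autoImplicit false

namespace Pool.Agent.CLQD

variable {V : Type} {G : SimpleGraph V} {S : Set V} {d : V → V → ℕ}

theorem thm_D1a : St_D1a := by
  intro V G S p a b d hp h ha hb hab hN hW
  have hW' : WF G S := hW
  have hsym := h.met.symm
  have m2 : ∀ x, mn d a b b x = d a x ∨ mn d a b b x = d b x := by
    intro x
    rcases mn_or (d := d) a b b x with e | e | e
    · exact Or.inl e.symm
    · exact Or.inr e.symm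
    · exact Or.inr e.symm
  have adj : ∀ {x : V}, x ∈ S → d a x ≠ d b x → G.Adj a b := by
    intro x _ hne
    rcases hab with e | e
    · rw [e] at hne
      exact absurd rfl hne
    · exact e
  refine ⟨ex d p (mn d a b b), ext_ti (A := {a, b}) h hp ?_ ?_ ?_ ?_ ?_ ?_ ?_ ?_ ?_ ?_ ?_⟩
  · rintro x (rfl | rfl)
    · exact ha
    · exact hb
  · intro x hx
    exact hN x hx
  · intro x hx h0
    rcases m2 x with e | e
    · rw [h0] at e
      exact Or.inl ((h.met.zero a ha x hx).1 e.symm).symm
    · rw [h0] at e
      exact Or.inr ((h.met.zero b hb x hx).1 e.symm).symm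
  · intro x hx
    rcases m2 x with e | e
    · exact ⟨a, Or.inl rfl, e.symm⟩
    · exact ⟨b, Or.inr rfl, e.symm⟩
  · rintro x hx α (rfl | rfl)
    · exact mn_a _ _ _ _
    · exact mn_b _ _ _ _
  · have z1 := (h.met.zero a ha a ha).2 rfl
    have z2 := (h.met.zero b hb b hb).2 rfl
    have e1 : d a b ≤ 1 := by
      rcases hab with e | e
      · rw [← e, z1]
        exact Nat.zero_le _
      · exact (h.met.adj1 ha hb e).le
    have e2 : d b a ≤ 1 := by
      rw [hsym b hb a ha]
      exact e1
    rintro α (rfl | rfl) β (rfl | rfl) <;> omega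
  · -- t1
    rintro u hu y (rfl | rfl) k h1 h2
    · rcases m2 u with e | e
      · rw [h2, hsym y ha u hu] at e
        omega
      · rw [h2, hsym b hb u hu] at e
        refine ⟨b, Or.inr rfl, adj hu ?_, e.symm⟩
        rw [hsym y ha u hu, hsym b hb u hu]
        omega
    · rcases m2 u with e | e
      · rw [h2, hsym a ha u hu] at e
        refine ⟨a, Or.inl rfl, (adj hu ?_).symm, e.symm⟩
        rw [hsym a ha u hu, hsym y hb u hu]
        omega
      · rw [h2, hsym y hb u hu] at e
        omega
  · -- t2
    intro x hx y hy j hxy mx my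
    have ax := mn_a (d := d) a b b x
    have bx := mn_b (d := d) a b b x
    have ay := mn_a (d := d) a b b y
    have bY := mn_b (d := d) a b b y
    rw [mx] at ax bx
    rw [my] at ay bY
    have key : ∃ α ∈ ({a, b} : Set V), α ∈ S ∧ d α x = j + 1 ∧ d α y = j + 1 := by
      rcases m2 x with e | e
      · rw [mx] at e
        rcases m2 y with e' | e'
        · rw [my] at e'
          exact ⟨a, Or.inl rfl, ha, e.symm, e'.symm⟩
        · rw [my] at e'
          by_cases h1 : d b x = j + 1
          · exact ⟨b, Or.inr rfl, hb, h1, e'.symm⟩
          by_cases h2 : d a y = j + 1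
          · exact ⟨a, Or.inl rfl, ha, e.symm, h2⟩
          exfalso
          have hadj : G.Adj a b := adj hx (by rw [← e]; exact fun t => h1 t.symm)
          have l1 := h.met.lip x hx a ha b hb hadj
          have l2 := h.met.lip y hy b hb a ha hadj.symm
          rw [hsym x hx a ha, hsym x hx b hb] at l1
          rw [hsym y hy a ha, hsym y hy b hb] at l2
          exact par h ha hb hx hy hadj hxy e.symm e'.symm (by omega) (by omega)
      · rw [mx] at e
        rcases m2 y with e' | e'
        · rw [my] at e'
          by_cases h1 : d a x = j + 1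
          · exact ⟨a, Or.inl rfl, ha, h1, e'.symm⟩
          by_cases h2 : d b y = j + 1
          · exact ⟨b, Or.inr rfl, hb, e.symm, h2⟩
          exfalso
          have hadj : G.Adj a b := adj hx (by rw [← e]; exact h1)
          have l1 := h.met.lip x hx b hb a ha hadj.symm
          have l2 := h.met.lip y hy a ha b hb hadj
          rw [hsym x hx a ha, hsym x hx b hb] at l1
          rw [hsym y hy a ha, hsym y hy b hb] at l2
          exact par h ha hb hy hx hadj hxy.symm e'.symm e.symm (by omega) (by omega)
        · rw [my] at e'
          exact ⟨b, Or.inr rfl, hb, e.symm, e'.symm⟩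
    obtain ⟨α, hα, hαS, h1, h2⟩ := key
    obtain ⟨z, hz, z1, z2, z3⟩ := h.tc α hαS x hx y hy j hxy h1 h2
    refine ⟨z, hz, z1, z2, le_antisymm ?_ ?_⟩
    · rw [← z3]
      rcases hα with rfl | rfl
      · exact mn_a _ _ _ _
      · exact mn_b _ _ _ _
    · have l : ∀ β ∈ S, j + 1 ≤ d β x → j ≤ d β z := by
        intro β hβ hm
        have := h.met.lip β hβ z hz x hx z1.symm
        omega
      exact mn_ge (l a ha ax) (l b hb bx) (l b hb bx)
  · -- i1
    rintro u hu v (rfl | rfl) w (rfl | rfl) k h1 h2 h3
    · exact Or.inl rfl
    · exact hab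
    · exact hab.sy
    · exact Or.inl rfl
  · -- i2
    rintro u hu z (rfl | rfl) w hw j h1 h2 h3 h4
    · exfalso
      rcases m2 u with e | e
      · rw [h4, hsym z ha u hu] at e
        omega
      · rw [h4, hsym b hb u hu] at e
        have hadj : G.Adj z b := adj hu (by rw [hsym z ha u hu, hsym b hb u hu]; omega)
        have := h.met.lip u hu b hb z ha hadj.symm
        omega
    · exfalso
      rcases m2 u with e | e
      · rw [h4, hsym a ha u hu] at e
        have hadj : G.Adj a z := adj hu (by rw [hsym a ha u hu, hsym z hb u hu]; omega)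
        have := h.met.lip u hu a ha z hb hadj
        omega
      · rw [h4, hsym z hb u hu] at e
        omega
  · -- i3
    have hab' : ∀ {z v w : V}, z ∈ S → v ∈ S → w ∈ S → ∀ j, mn d a b b z = j + 1 →
        G.Adj z v → G.Adj z w → d a v = j → d b w = j → AE G v w := by
      intro z v w hz hv hw j mz zv zw h1 h2
      have za := mn_a (d := d) a b b z
      have zb := mn_b (d := d) a b b z
      rw [mz] at za zb
      have l1 := h.met.lip a ha v hv z hz zv.symm
      have l2 := h.met.lip b hb w hw z hz zw.symm
      have za' : d a z = j + 1 := by omega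
      have zb' : d b z = j + 1 := by omega
      by_cases h3 : d b v = j
      · exact h.inc b hb z hz v hv w hw j zb' zv zw h3 h2
      by_cases h4 : d a w = j
      · exact h.inc a ha z hz v hv w hw j za' zv zw h1 h4
      have hadj : G.Adj a b := adj hv (by rw [h1]; exact fun t => h3 t.symm)
      cases j with
      | zero =>
        have e1 := (h.met.zero a ha v hv).1 h1
        have e2 := (h.met.zero b hb w hw).1 h2
        subst e1
        subst e2
        exact Or.inr hadj
      | succ k =>
        exfalso
        rcases cl h hW' ha hb hadj k z hz (by rw [hsym z hz a ha]; exact za')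
          (by rw [hsym z hz b hb]; exact zb') v hv w hw zv zw
          (by rw [hsym v hv a ha]; exact h1) (by rw [hsym w hw b hb]; exact h2) with e | e
        · rw [hsym v hv b hb] at e
          exact h3 e
        · rw [hsym w hw a ha] at e
          exact h4 e
    intro z hz v hv w hw j mz mv mw zv zw
    have za := mn_a (d := d) a b b z
    have zb := mn_b (d := d) a b b z
    rw [mz] at za zb
    have same : ∀ α ∈ S, j + 1 ≤ d α z → d α v = j → d α w = j → AE G v w := by
      intro α hα h0 h1 h2
      have l1 := h.met.lip α hα v hv z hz zv.symm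
      exact h.inc α hα z hz v hv w hw j (by omega) zv zw h1 h2
    rcases m2 v with e | e
    · rw [mv] at e
      rcases m2 w with e' | e'
      · rw [mw] at e'
        exact same a ha za e.symm e'.symm
      · rw [mw] at e'
        exact hab' hz hv hw j mz zv zw e.symm e'.symm
    · rw [mv] at e
      rcases m2 w with e' | e'
      · rw [mw] at e'
        exact (hab' hz hw hv j mz zw zv e'.symm e.symm).sy
      · rw [mw] at e'
        exact same b hb zb e.symm e'.symm

end Pool.Agent.CLQD
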