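import Pool.Agent.CLQD.D1

/-!
# CLQD module D1b: assembly of the extension step
-/

set_option autoImplicit false

namespace Pool.Agent.CLQD

open Classical

variable {V : Type} {G : SimpleGraph V} {S : Set V} {d : V → V → ℕ}

theorem Met.tri (h : Met G S d) {x y : V} (hx : x ∈ S) (hy : y ∈ S) :
    ∀ n, ∀ z ∈ S, d y z = n → d x z ≤ d x y + n := by
  intro n
  induction n with
  | zero =>
    intro z hz h1
    rw [(h.zero y hy z hz).1 h1]
    exact Nat.le_add_right _ _
  | succ k ih =>
    intro z hz h1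
    obtain ⟨t, ht, h2, h3⟩ := h.geo y hy z hz k h1
    have h4 := ih t ht h3
    have h5 := h.lip x hx t ht z hz h2.symm
    omega

/-- the extended distance -/
noncomputable def ex (d : V → V → ℕ) (p : V) (m : V → ℕ) : V → V → ℕ := fun x y =>
  if x = p then (if y = p then 0 else 1 + m y) else (if y = p then 1 + m x else d x y)

theorem ex_pp (p : V) (m : V → ℕ) : ex d p m p p = 0 := by
  unfold ex
  rw [if_pos rfl, if_pos rfl]

theorem ex_px {p x : V} (m : V → ℕ) (hx : x ≠ p) : ex d p m p x = 1 + m x := by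
  unfold ex
  rw [if_pos rfl, if_neg hx]

theorem ex_xp {p x : V} (m : V → ℕ) (hx : x ≠ p) : ex d p m x p = 1 + m x := by
  unfold ex
  rw [if_neg hx, if_pos rfl]

theorem ex_xy {p x y : V} (m : V → ℕ) (hx : x ≠ p) (hy : y ≠ p) : ex d p m x y = d x y := by
  unfold ex
  rw [if_neg hx, if_neg hy]

theorem ext_met {p : V} {m : V → ℕ} {A : Set V} (h : Met G S d) (hp : p ∉ S) (hAS : A ⊆ S)
    (hA : ∀ x ∈ S, G.Adj p x ↔ x ∈ A) (e1 : ∀ x ∈ S, m x = 0 → x ∈ A)
    (e2 : ∀ x ∈ S, ∃ α ∈ A, d α x = m x) (e2' : ∀ x ∈ S, ∀ α ∈ A, m x ≤ d α x)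
    (e3 : ∀ α ∈ A, ∀ β ∈ A, d α β ≤ 2) : Met G (insert p S) (ex d p m) := by
  have np : ∀ {x : V}, x ∈ S → x ≠ p := fun {x} hx e => hp (e ▸ hx)
  have mA : ∀ x ∈ A, m x = 0 := by
    intro x hx
    have h1 := e2' x (hAS hx) x hx
    have h2 := (h.zero x (hAS hx) x (hAS hx)).2 rfl
    omega
  constructor
  · rintro x (rfl | hx) y (rfl | hy)
    · rw [ex_pp]
      exact ⟨fun _ => rfl, fun _ => rfl⟩
    · rw [ex_px m (np hy)]
      constructor
      · intro e
        omega
      · intro e
        exact absurd e.symm (np hy)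
    · rw [ex_xp m (np hx)]
      constructor
      · intro e
        omega
      · intro e
        exact absurd e (np hx)
    · rw [ex_xy m (np hx) (np hy)]
      exact h.zero x hx y hy
  · rintro x (rfl | hx) y (rfl | hy)
    · rfl
    · rw [ex_px m (np hy), ex_xp m (np hy)]
    · rw [ex_px m (np hx), ex_xp m (np hx)]
    · rw [ex_xy m (np hx) (np hy), ex_xy m (np hy) (np hx)]
      exact h.symm x hx y hy
  · rintro x (rfl | hx) y hy z (rfl | hz) hyz
    · rw [ex_pp]
      exact Nat.zero_le _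
    · rw [ex_px m (np hz)]
      rcases hy with rfl | hy
      · rw [ex_pp, mA z ((hA z hz).1 hyz)]
      · rw [ex_px m (np hy)]
        obtain ⟨α, hα, h1⟩ := e2 y hy
        have h2 := e2' z hz α hα
        have h3 := h.lip α (hAS hα) y hy z hz hyz
        omega
    · rcases hy with rfl | hy
      · exact absurd hyz (G.loopless.irrefl _)
      · rw [ex_xp m (np hx), ex_xy m (np hx) (np hy)]
        have h1 := e2' x hx y ((hA y hy).1 hyz.symm)
        rw [h.symm y hy x hx] at h1
        omega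
    · rcases hy with rfl | hy
      · rw [ex_xp m (np hx), ex_xy m (np hx) (np hz)]
        obtain ⟨α, hα, h1⟩ := e2 x hx
        have h2 := e3 α hα z ((hA z hz).1 hyz)
        have h3 := h.tri hx (hAS hα) _ z hz rfl
        rw [h.symm x hx α (hAS hα)] at h3
        omega
      · rw [ex_xy m (np hx) (np hz), ex_xy m (np hx) (np hy)]
        exact h.lip x hx y hy z hz hyz
  · rintro x (rfl | hx) y (rfl | hy) n hn
    · rw [ex_pp] at hn
      omega
    · rw [ex_px m (np hy)] at hn
      rcases Nat.eq_zero_or_pos n with h0 | h0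
      · subst h0
        have h1 : m y = 0 := by omega
        have h2 := e1 y hy h1
        exact ⟨x, Set.mem_insert _ _, ((hA y hy).2 h2).symm, ex_pp _ _⟩
      · obtain ⟨α, hα, h1⟩ := e2 y hy
        obtain ⟨z, hz, h2, h3⟩ := h.geo α (hAS hα) y hy (n - 1) (by omega)
        refine ⟨z, Set.mem_insert_of_mem _ hz, h2, ?_⟩
        rw [ex_px m (np hz)]
        have h4 := e2' z hz α hα
        obtain ⟨β, hβ, h5⟩ := e2 z hz
        have h6 := h.lip β (hAS hβ) z hz y hy h2.symm
        have h7 := e2' y hy β hβ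
        omega
    · rw [ex_xp m (np hx)] at hn
      obtain ⟨α, hα, h1⟩ := e2 x hx
      refine ⟨α, Set.mem_insert_of_mem _ (hAS hα), (hA α (hAS hα)).2 hα, ?_⟩
      rw [ex_xy m (np hx) (np (hAS hα)), h.symm x hx α (hAS hα)]
      omega
    · rw [ex_xy m (np hx) (np hy)] at hn
      obtain ⟨z, hz, h2, h3⟩ := h.geo x hx y hy n hn
      refine ⟨z, Set.mem_insert_of_mem _ hz, h2, ?_⟩
      rw [ex_xy m (np hx) (np hz)]
      exact h3

theorem ext_ti {p : V} {m : V → ℕ} {A : Set V} (h : TI G S d) (hp : p ∉ S) (hAS : A ⊆ S)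
    (hA : ∀ x ∈ S, G.Adj p x ↔ x ∈ A) (e1 : ∀ x ∈ S, m x = 0 → x ∈ A)
    (e2 : ∀ x ∈ S, ∃ α ∈ A, d α x = m x) (e2' : ∀ x ∈ S, ∀ α ∈ A, m x ≤ d α x)
    (e3 : ∀ α ∈ A, ∀ β ∈ A, d α β ≤ 2)
    (t1 : ∀ u ∈ S, ∀ y ∈ A, ∀ k, d u y = k + 1 → m u = k → ∃ z ∈ A, G.Adj y z ∧ d u z = k)
    (t2 : ∀ x ∈ S, ∀ y ∈ S, ∀ j, G.Adj x y → m x = j + 1 → m y = j + 1 →
      ∃ z ∈ S, G.Adj x z ∧ G.Adj y z ∧ m z = j)
    (i1 : ∀ u ∈ S, ∀ v ∈ A, ∀ w ∈ A, ∀ k, m u = k → d u v = k → d u w = k → AE G v w)
    (i2 : ∀ u ∈ S, ∀ z ∈ A, ∀ w ∈ S, ∀ j, d u z = j + 2 → G.Adj z w → d u w = j + 1 → m u = j →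
      w ∈ A)
    (i3 : ∀ z ∈ S, ∀ v ∈ S, ∀ w ∈ S, ∀ j, m z = j + 1 → m v = j → m w = j → G.Adj z v →
      G.Adj z w → AE G v w) :
    TI G (insert p S) (ex d p m) := by
  have np : ∀ {x : V}, x ∈ S → x ≠ p := fun {x} hx e => hp (e ▸ hx)
  have irr : ∀ x, ¬ G.Adj x x := fun x => G.loopless.irrefl x
  refine ⟨ext_met h.met hp hAS hA e1 e2 e2' e3, ?_, ?_⟩
  · rintro u (rfl | hu) x (rfl | hx) y (rfl | hy) k hxy hux huy
    · exact absurd hxy (irr _)
    · rw [ex_pp] at hux
      omega
    · rw [ex_pp] at huy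
      omega
    · rw [ex_px m (np hx)] at hux
      rw [ex_px m (np hy)] at huy
      rcases Nat.eq_zero_or_pos k with h0 | h0
      · subst h0
        exact ⟨u, Set.mem_insert _ _, ((hA x hx).2 (e1 x hx (by omega))).symm,
          ((hA y hy).2 (e1 y hy (by omega))).symm, ex_pp _ _⟩
      · obtain ⟨z, hz, z1, z2, z3⟩ := t2 x hx y hy (k - 1) hxy (by omega) (by omega)
        refine ⟨z, Set.mem_insert_of_mem _ hz, z1, z2, ?_⟩
        rw [ex_px m (np hz)]
        omega
    · exact absurd hxy (irr _)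
    · rw [ex_xp m (np hu)] at hux
      rw [ex_xy m (np hu) (np hy)] at huy
      obtain ⟨z, hz, z1, z2⟩ := t1 u hu y ((hA y hy).1 hxy) k huy (by omega)
      refine ⟨z, Set.mem_insert_of_mem _ (hAS hz), (hA z (hAS hz)).2 hz, z1, ?_⟩
      rw [ex_xy m (np hu) (np (hAS hz))]
      exact z2
    · rw [ex_xp m (np hu)] at huy
      rw [ex_xy m (np hu) (np hx)] at hux
      obtain ⟨z, hz, z1, z2⟩ := t1 u hu x ((hA x hx).1 hxy.symm) k hux (by omega)
      refine ⟨z, Set.mem_insert_of_mem _ (hAS hz), z1, (hA z (hAS hz)).2 hz, ?_⟩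
      rw [ex_xy m (np hu) (np (hAS hz))]
      exact z2
    · rw [ex_xy m (np hu) (np hx)] at hux
      rw [ex_xy m (np hu) (np hy)] at huy
      obtain ⟨z, hz, z1, z2, z3⟩ := h.tc u hu x hx y hy k hxy hux huy
      refine ⟨z, Set.mem_insert_of_mem _ hz, z1, z2, ?_⟩
      rw [ex_xy m (np hu) (np hz)]
      exact z3
  · rintro u (rfl | hu) z (rfl | hz) v (rfl | hv) w (rfl | hw) k huz hzv hzw huv huw
    · exact Or.inl rfl
    · exact absurd hzv (irr _)
    · exact absurd hzw (irr _)
    · rw [ex_pp] at huz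
      omega
    · exact Or.inl rfl
    · rw [ex_pp] at huv
      rw [ex_px m (np hw)] at huw
      omega
    · rw [ex_pp] at huw
      rw [ex_px m (np hv)] at huv
      omega
    · rw [ex_px m (np hz)] at huz
      rw [ex_px m (np hv)] at huv
      rw [ex_px m (np hw)] at huw
      exact i3 z hz v hv w hw (k - 1) (by omega) (by omega) (by omega) hzv hzw
    · exact Or.inl rfl
    · exact absurd hzv (irr _)
    · exact absurd hzw (irr _)
    · rw [ex_xp m (np hu)] at huz
      rw [ex_xy m (np hu) (np hv)] at huv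
      rw [ex_xy m (np hu) (np hw)] at huw
      exact i1 u hu v ((hA v hv).1 hzv) w ((hA w hw).1 hzw) k (by omega) huv huw
    · exact Or.inl rfl
    · rw [ex_xy m (np hu) (np hz)] at huz
      rw [ex_xp m (np hu)] at huv
      rw [ex_xy m (np hu) (np hw)] at huw
      have h1 := i2 u hu z ((hA z hz).1 hzv.symm) w hw (k - 1) (by omega) hzw (by omega) (by omega)
      exact Or.inr ((hA w hw).2 h1)
    · rw [ex_xy m (np hu) (np hz)] at huz
      rw [ex_xp m (np hu)] at huw
      rw [ex_xy m (np hu) (np hv)] at huv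
      have h1 := i2 u hu z ((hA z hz).1 hzw.symm) v hv (k - 1) (by omega) hzv (by omega) (by omega)
      exact Or.inr ((hA v hv).2 h1).symm
    · rw [ex_xy m (np hu) (np hz)] at huz
      rw [ex_xy m (np hu) (np hv)] at huv
      rw [ex_xy m (np hu) (np hw)] at huw
      exact h.inc u hu z hz v hv w hw k huz hzv hzw huv huw

theorem Met.adj1 (h : Met G S d) {x y : V} (hx : x ∈ S) (hy : y ∈ S) (e : G.Adj x y) :
    d x y = 1 := by
  have h1 := h.lip x hx x hx y hy e
  rw [(h.zero x hx x hx).2 rfl] at h1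
  rcases Nat.eq_zero_or_pos (d x y) with h2 | h2
  · rw [(h.zero x hx y hy).1 h2] at e
    exact absurd e (G.loopless.irrefl _)
  · omega

theorem thm_D1b : St_D1b := by
  intro V G S p a b c d hp h ha hb hc hab hbc hac hnac hN hW hL
  have C : Ctx G S d a b c := ⟨h, ha, hb, hc, hab, hbc, hac, hnac, hW, hL⟩
  have D := C.sym
  have hsym := h.met.symm
  refine ⟨ex d p (mn d a b c), ext_ti (A := {a, b, c}) h hp ?_ ?_ ?_ ?_ ?_ ?_ ?_ ?_ ?_ ?_ ?_⟩
  · rintro x (rfl | rfl | rfl)
    · exact ha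
    · exact hb
    · exact hc
  · intro x hx
    exact hN x hx
  · intro x hx h0
    rcases mn_or (d := d) a b c x with e | e | e
    · rw [h0] at e
      exact Or.inl ((h.met.zero a ha x hx).1 e).symm
    · rw [h0] at e
      exact Or.inr (Or.inl ((h.met.zero b hb x hx).1 e).symm)
    · rw [h0] at e
      exact Or.inr (Or.inr ((h.met.zero c hc x hx).1 e).symm)
  · intro x hx
    rcases mn_or (d := d) a b c x with e | e | e
    · exact ⟨a, Or.inl rfl, e⟩
    · exact ⟨b, Or.inr (Or.inl rfl), e⟩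
    · exact ⟨c, Or.inr (Or.inr rfl), e⟩
  · rintro x hx α (rfl | rfl | rfl)
    · exact mn_a _ _ _ _
    · exact mn_b _ _ _ _
    · exact mn_c _ _ _ _
  · have e1 := h.met.adj1 ha hb hab
    have e2 := h.met.adj1 hb hc hbc
    have e3 := h.met.adj1 hb ha hab.symm
    have e4 := h.met.adj1 hc hb hbc.symm
    have z1 := (h.met.zero a ha a ha).2 rfl
    have z2 := (h.met.zero b hb b hb).2 rfl
    have z3 := (h.met.zero c hc c hc).2 rfl
    have f1 := h.met.tri ha hb 1 c hc e2
    have f2 := h.met.tri hc hb 1 a ha e3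
    rintro α (rfl | rfl | rfl) β (rfl | rfl | rfl) <;> omega
  · -- t1
    rintro u hu y (rfl | rfl | rfl) k h1 h2
    · have e : d u b = k := by
        rcases mn_or (d := d) y b c u with e | e | e
        · rw [h2, hsym y ha u hu] at e
          omega
        · rw [h2, hsym b hb u hu] at e
          exact e
        · rw [h2, hsym c hc u hu] at e
          exact C.t1 hu h1 e
      exact ⟨b, Or.inr (Or.inl rfl), hab, e⟩
    · rcases mn_or (d := d) a y c u with e | e | e
      · rw [h2, hsym a ha u hu] at e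
        exact ⟨a, Or.inl rfl, hab.symm, e⟩
      · rw [h2, hsym y hb u hu] at e
        omega
      · rw [h2, hsym c hc u hu] at e
        exact ⟨c, Or.inr (Or.inr rfl), hbc, e⟩
    · have e : d u b = k := by
        rcases mn_or (d := d) a b y u with e | e | e
        · rw [h2, hsym a ha u hu] at e
          exact D.t1 hu h1 e
        · rw [h2, hsym b hb u hu] at e
          exact e
        · rw [h2, hsym y hc u hu] at e
          omega
      exact ⟨b, Or.inr (Or.inl rfl), hbc.symm, e⟩
  · -- t2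
    intro x hx y hy j hxy mx my
    have key : ∃ α ∈ ({a, b, c} : Set V), α ∈ S ∧ d α x = j + 1 ∧ d α y = j + 1 := by
      rcases C.t2 hx hy hxy mx my with e | e | e
      · exact ⟨a, Or.inl rfl, ha, e⟩
      · exact ⟨b, Or.inr (Or.inl rfl), hb, e⟩
      · exact ⟨c, Or.inr (Or.inr rfl), hc, e⟩
    obtain ⟨α, hα, hαS, h1, h2⟩ := key
    obtain ⟨z, hz, z1, z2, z3⟩ := h.tc α hαS x hx y hy j hxy h1 h2
    refine ⟨z, hz, z1, z2, le_antisymm ?_ ?_⟩
    · rw [← z3]
      rcases hα with rfl | rfl | rfl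
      · exact mn_a _ _ _ _
      · exact mn_b _ _ _ _
      · exact mn_c _ _ _ _
    · have l : ∀ β ∈ S, mn d a b c x ≤ d β x → j ≤ d β z := by
        intro β hβ hm
        have := h.met.lip β hβ z hz x hx z1.symm
        rw [mx] at hm
        omega
      exact mn_ge (l a ha (mn_a _ _ _ _)) (l b hb (mn_b _ _ _ _)) (l c hc (mn_c _ _ _ _))
  · -- i1
    rintro u hu v hv w hw k h1 h2 h3
    have e1 : k ≤ d u b := by
      rw [hsym u hu b hb, ← h1]
      exact mn_b _ _ _ _
    rcases hv with rfl | rfl | rfl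
    · rcases hw with rfl | rfl | rfl
      · exact Or.inl rfl
      · exact Or.inr hab
      · exact (C.i1 hu h2 e1 h3).elim
    · rcases hw with rfl | rfl | rfl
      · exact Or.inr hab.symm
      · exact Or.inl rfl
      · exact Or.inr hbc
    · rcases hw with rfl | rfl | rfl
      · exact (C.i1 hu h3 e1 h2).elim
      · exact Or.inr hbc.symm
      · exact Or.inl rfl
  · -- i2
    rintro u hu z hz w hw j h1 h2 h3 h4
    have zb := h.met.lip u hu b hb
    rcases hz with rfl | rfl | rfl
    · have e : d u c = j := by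
        rcases mn_or (d := d) z b c u with e | e | e
        · rw [h4, hsym z ha u hu] at e
          omega
        · rw [h4, hsym b hb u hu] at e
          have := zb z ha hab.symm
          omega
        · rw [h4, hsym c hc u hu] at e
          exact e
      exact Or.inr (Or.inl (D.i2 hu hw e h1 h2 h3))
    · exfalso
      rcases mn_or (d := d) a z c u with e | e | e
      · rw [h4, hsym a ha u hu] at e
        have := h.met.lip u hu a ha z hb hab
        omega
      · rw [h4, hsym z hb u hu] at e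
        omega
      · rw [h4, hsym c hc u hu] at e
        have := h.met.lip u hu c hc z hb hbc.symm
        omega
    · have e : d u a = j := by
        rcases mn_or (d := d) a b z u with e | e | e
        · rw [h4, hsym a ha u hu] at e
          exact e
        · rw [h4, hsym b hb u hu] at e
          have := zb z hc hbc
          omega
        · rw [h4, hsym z hc u hu] at e
          omega
      exact Or.inr (Or.inl (C.i2 hu hw e h1 h2 h3))
  · -- i3
    intro z hz v hv w hw j h1 h2 h3 h4 h5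
    exact C.i3 hz hv hw h1 h2 h3 h4 h5

end Pool.Agent.CLQD
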