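import Pool.Agent.CLQD.D0

/-!
# CLQD, module D2: counting
-/

set_option autoImplicit false

namespace Pool.Agent.CLQD

open Finset

section cnt

variable {V : Type} (G : SimpleGraph V)

open Classical in
/-- indicator of adjacency -/
noncomputable def ad (x y : V) : ℤ := if G.Adj x y then 1 else 0

theorem ad_self (x : V) : ad G x x = 0 := by
  unfold ad
  rw [if_neg (G.loopless.irrefl x)]

theorem ad_comm (x y : V) : ad G x y = ad G y x := by
  unfold ad
  by_cases h : G.Adj x y
  · rw [if_pos h, if_pos h.symm]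
  · rw [if_neg h, if_neg (fun h' => h h'.symm)]

theorem ad_of {x y : V} (h : G.Adj x y) : ad G x y = 1 := if_pos h

theorem ad_of_not {x y : V} (h : ¬ G.Adj x y) : ad G x y = 0 := if_neg h

theorem ad_nonneg (x y : V) : 0 ≤ ad G x y := by
  unfold ad
  split_ifs <;> norm_num

theorem ad_le_one (x y : V) : ad G x y ≤ 1 := by
  unfold ad
  split_ifs <;> norm_num

/-- number of ordered adjacent pairs -/
noncomputable def pr (S : Finset V) : ℤ := ∑ x ∈ S, ∑ y ∈ S, ad G x y

theorem dg_eq (S : Finset V) (v : V) : (dg G S v : ℤ) = ∑ x ∈ S, ad G v x := by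
  classical
  unfold dg ad
  rw [Finset.card_filter]
  push_cast
  refine Finset.sum_congr rfl fun x _ => ?_
  by_cases h : G.Adj v x
  · simp [h]
  · simp [h]

theorem tr_eq (S : Finset V) (v : V) :
    (tr G S v : ℤ) = ∑ x ∈ S, ∑ y ∈ S, ad G v x * ad G v y * ad G x y := by
  classical
  unfold tr ad
  rw [Finset.card_filter]
  push_cast
  rw [Finset.sum_product]
  refine Finset.sum_congr rfl fun x _ => Finset.sum_congr rfl fun y _ => ?_
  by_cases h1 : G.Adj v x
  · by_cases h2 : G.Adj v y
    · by_cases h3 : G.Adj x y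
      · rw [if_pos ⟨h1, h2, h3⟩, if_pos h1, if_pos h2, if_pos h3]
        norm_num
      · rw [if_neg (fun h => h3 h.2.2), if_neg h3, mul_zero]
    · rw [if_neg (fun h => h2 h.2.1), if_neg h2, mul_zero, zero_mul]
  · rw [if_neg (fun h => h1 h.1), if_neg h1, zero_mul, zero_mul]

theorem chi_eq (S : Finset V) : chi G S = ∑ v ∈ S, (6 - 3 * ∑ x ∈ S, ad G v x +
    ∑ x ∈ S, ∑ y ∈ S, ad G v x * ad G v y * ad G x y) := by
  unfold chi
  refine Finset.sum_congr rfl fun v _ => ?_
  rw [dg_eq, tr_eq]

variable [DecidableEq V]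

theorem pr_insert {S : Finset V} {p : V} (hp : p ∉ S) :
    pr G (insert p S) = pr G S + 2 * ∑ y ∈ S, ad G p y := by
  unfold pr
  rw [Finset.sum_insert hp, Finset.sum_insert hp, ad_self]
  have h : ∑ x ∈ S, ∑ y ∈ insert p S, ad G x y = ∑ x ∈ S, ad G p x +
      ∑ x ∈ S, ∑ y ∈ S, ad G x y := by
    rw [← Finset.sum_add_distrib]
    refine Finset.sum_congr rfl fun x _ => ?_
    rw [Finset.sum_insert hp, ad_comm]
  rw [h]
  ring

/-- the change of `chi` -/
theorem chi_insert {S : Finset V} {p : V} (hp : p ∉ S) :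
    chi G (insert p S) = chi G S + 6 - 6 * ∑ x ∈ S, ad G p x +
      3 * ∑ x ∈ S, ∑ y ∈ S, ad G p x * ad G p y * ad G x y := by
  rw [chi_eq, chi_eq, Finset.sum_insert hp]
  -- inner sums over the larger set
  have h1 : ∀ v, ∑ x ∈ insert p S, ad G v x = ad G v p + ∑ x ∈ S, ad G v x := fun v =>
    Finset.sum_insert hp
  have h2 : ∀ v, ∑ x ∈ insert p S, ∑ y ∈ insert p S, ad G v x * ad G v y * ad G x y =
      2 * (∑ x ∈ S, ad G v p * ad G v x * ad G p x) +
        ∑ x ∈ S, ∑ y ∈ S, ad G v x * ad G v y * ad G x y := by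
    intro v
    rw [Finset.sum_insert hp, Finset.sum_insert hp, ad_self, mul_zero, zero_add]
    have h3 : ∑ x ∈ S, ∑ y ∈ insert p S, ad G v x * ad G v y * ad G x y =
        ∑ x ∈ S, ad G v p * ad G v x * ad G p x +
          ∑ x ∈ S, ∑ y ∈ S, ad G v x * ad G v y * ad G x y := by
      rw [← Finset.sum_add_distrib]
      refine Finset.sum_congr rfl fun x _ => ?_
      rw [Finset.sum_insert hp, ad_comm G x p]
      ring
    rw [h3]
    ring
  rw [h1, h2, ad_self]
  have h4 : ∑ v ∈ S, (6 - 3 * ∑ x ∈ insert p S, ad G v x +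
      ∑ x ∈ insert p S, ∑ y ∈ insert p S, ad G v x * ad G v y * ad G x y) =
      ∑ v ∈ S, (6 - 3 * ∑ x ∈ S, ad G v x +
        ∑ x ∈ S, ∑ y ∈ S, ad G v x * ad G v y * ad G x y) - 3 * ∑ v ∈ S, ad G p v +
        2 * ∑ v ∈ S, ∑ x ∈ S, ad G p v * ad G p x * ad G v x := by
    rw [Finset.mul_sum, Finset.mul_sum, ← Finset.sum_sub_distrib, ← Finset.sum_add_distrib]
    refine Finset.sum_congr rfl fun v _ => ?_
    rw [h1, h2]
    have h5 : ∑ x ∈ S, ad G v p * ad G v x * ad G p x =
        ∑ x ∈ S, ad G p v * ad G p x * ad G v x := by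
      refine Finset.sum_congr rfl fun x _ => ?_
      rw [ad_comm G v p]
      ring
    rw [h5, ad_comm G v p]
    ring
  rw [h4]
  have h6 : ∑ x ∈ S, ad G p p * ad G p x * ad G p x = 0 := by
    refine Finset.sum_eq_zero fun x _ => ?_
    rw [ad_self, zero_mul, zero_mul]
  have h6' : ∑ x ∈ S, (0 : ℤ) * ad G p x * ad G p x = 0 := by
    refine Finset.sum_eq_zero fun x _ => ?_
    rw [zero_mul, zero_mul]
  rw [h6']
  ring

open Classical in
/-- the neighbours in `S` -/
noncomputable def nbS (S : Finset V) (v : V) : Finset V := S.filter (fun x => G.Adj v x)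

omit [DecidableEq V] in
theorem mem_nbS {S : Finset V} {v x : V} : x ∈ nbS G S v ↔ x ∈ S ∧ G.Adj v x := by
  classical
  unfold nbS
  rw [Finset.mem_filter]

omit [DecidableEq V] in
theorem dg_nbS (S : Finset V) (v : V) : dg G S v = (nbS G S v).card := rfl

omit [DecidableEq V] in
theorem tr_nbS (S : Finset V) (v : V) : (tr G S v : ℤ) = pr G (nbS G S v) := by
  classical
  rw [tr_eq]
  unfold pr nbS
  rw [Finset.sum_filter]
  refine Finset.sum_congr rfl fun x _ => ?_
  by_cases hx : G.Adj v x
  · rw [if_pos hx, Finset.sum_filter]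
    refine Finset.sum_congr rfl fun y _ => ?_
    by_cases hy : G.Adj v y
    · rw [if_pos hy, ad_of G hx, ad_of G hy]
      ring
    · rw [if_neg hy, ad_of_not G hy]
      ring
  · rw [if_neg hx]
    refine Finset.sum_eq_zero fun y _ => ?_
    rw [ad_of_not G hx]
    ring

/-- forests have few edges -/
theorem forest_le (T : Finset V) (hT : T.Nonempty)
    (h : ∀ T' ⊆ T, T'.Nonempty → ∃ x ∈ T', ∀ y ∈ T', ∀ z ∈ T', G.Adj x y → G.Adj x z → y = z) :
    pr G T ≤ 2 * T.card - 2 := by
  induction T using Finset.strongInduction with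
  | H T ih =>
    obtain ⟨x, hx, hx1⟩ := h T Finset.Subset.rfl hT
    have hins : insert x (T.erase x) = T := Finset.insert_erase hx
    have hcard : T.card = (T.erase x).card + 1 := (Finset.card_erase_add_one hx).symm
    have h1 : pr G T = pr G (T.erase x) + 2 * ∑ y ∈ T.erase x, ad G x y := by
      conv_lhs => rw [← hins]
      exact pr_insert G (Finset.notMem_erase x T)
    have h2 : ∑ y ∈ T.erase x, ad G x y ≤ 1 := by
      have h3 : ((nbS G (T.erase x) x).card : ℤ) = ∑ y ∈ T.erase x, ad G x y := by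
        rw [← dg_eq]
        rfl
      rw [← h3]
      have h4 : (nbS G (T.erase x) x).card ≤ 1 := by
        rw [Finset.card_le_one]
        intro y hy z hz
        rw [mem_nbS] at hy hz
        exact hx1 y (Finset.mem_of_mem_erase hy.1) z (Finset.mem_of_mem_erase hz.1) hy.2 hz.2
      exact_mod_cast h4
    rcases (T.erase x).eq_empty_or_nonempty with he | he
    · rw [h1, he, hcard, he]
      unfold pr
      simp
    · have h5 := ih (T.erase x) (Finset.erase_ssubset hx) he
        (fun T' hT' hne => h T' (hT'.trans (Finset.erase_subset x T)) hne)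
      rw [h1, hcard]
      push_cast
      linarith

omit [DecidableEq V] in
/-- at most two edges at every vertex of a link -/
theorem pr_le (T : Finset V) (h : ∀ x ∈ T, (nbS G T x).card ≤ 2) : pr G T ≤ 2 * T.card := by
  unfold pr
  calc ∑ x ∈ T, ∑ y ∈ T, ad G x y ≤ ∑ _x ∈ T, (2 : ℤ) := by
        refine Finset.sum_le_sum fun x hx => ?_
        rw [← dg_eq]
        exact_mod_cast h x hx
    _ = 2 * T.card := by
        rw [Finset.sum_const, nsmul_eq_mul]
        ring

/-- the curvature -/
theorem kappa_cases {S : Finset V} (h2 : E2 G (S : Set V)) (hl : LF G (S : Set V)) {v : V}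
    (hv : v ∈ S) (hd : (nbS G S v).Nonempty) :
    (6 - 3 * (dg G S v : ℤ) + (tr G S v : ℤ) ≤ 0) ∨
      (pr G (nbS G S v) ≤ 2 * (nbS G S v).card - 2 ∧ (nbS G S v).card ≤ 3 ∧
        ∀ T ⊆ nbS G S v, T.Nonempty →
          ∃ x ∈ T, ∀ y ∈ T, ∀ z ∈ T, G.Adj x y → G.Adj x z → y = z) := by
  classical
  rw [tr_nbS, dg_nbS]
  have hle : pr G (nbS G S v) ≤ 2 * (nbS G S v).card := by
    apply pr_le
    intro x hx
    by_contra hc
    rw [not_le, Finset.two_lt_card] at hc
    obtain ⟨a, ha, b, hb, c, hc', hab, hac, hbc⟩ := hc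
    rw [mem_nbS, mem_nbS] at ha hb hc'
    rw [mem_nbS] at hx
    exact h2 v hv x hx.1 hx.2 a ha.1.1 b hb.1.1 c hc'.1.1 hab hac hbc ha.1.2 hb.1.2 hc'.1.2
      ha.2 hb.2 hc'.2
  by_cases hT : ∃ T ⊆ nbS G S v, T.Nonempty ∧ ∀ x ∈ T, ∃ y ∈ T, ∃ z ∈ T, y ≠ z ∧ G.Adj x y ∧
      G.Adj x z
  · left
    obtain ⟨T, hTs, hne, hT⟩ := hT
    obtain ⟨h3, h4⟩ := hl v hv T hne (fun x hx => (mem_nbS G).mp (hTs hx)) hT
    have h5 : T = nbS G S v := by
      refine Finset.Subset.antisymm hTs fun x hx => ?_
      rw [mem_nbS] at hx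
      exact h4 x hx.1 hx.2
    rw [h5] at h3
    have h6 : (6 : ℤ) ≤ (nbS G S v).card := by exact_mod_cast h3
    linarith
  · push Not at hT
    have h3 : ∀ T ⊆ nbS G S v, T.Nonempty →
        ∃ x ∈ T, ∀ y ∈ T, ∀ z ∈ T, G.Adj x y → G.Adj x z → y = z := by
      intro T hTs hne
      obtain ⟨x, hx, h4⟩ := hT T hTs hne
      refine ⟨x, hx, fun y hy z hz hxy hxz => ?_⟩
      by_contra hyz
      exact h4 y hy z hz hyz hxy hxz
    have h4 := forest_le G (nbS G S v) hd h3
    rcases Nat.lt_or_ge 3 (nbS G S v).card with h5 | h5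
    · left
      have h6 : (4 : ℤ) ≤ (nbS G S v).card := by exact_mod_cast h5
      linarith
    · exact Or.inr ⟨h4, h5, h3⟩

theorem pr_pair {x y : V} (h : x ≠ y) : pr G {x, y} = 2 * ad G x y := by
  unfold pr
  rw [Finset.sum_pair h, Finset.sum_pair h, Finset.sum_pair h, ad_self, ad_self, ad_comm G y x]
  ring

theorem pr_triple {x y z : V} (hxy : x ≠ y) (hxz : x ≠ z) (hyz : y ≠ z) :
    pr G {x, y, z} = 2 * (ad G x y + ad G x z + ad G y z) := by
  have h1 : x ∉ ({y, z} : Finset V) := by
    simp [hxy, hxz]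
  rw [pr_insert G h1, pr_pair G hyz, Finset.sum_pair hyz]
  ring

end cnt

theorem thm_D2 : St_D2 := by
  classical
  intro V _ G S hS u hu hx
  obtain ⟨x0, hx0, hx0u⟩ := hx
  -- every vertex has a neighbour
  have hnb : ∀ v ∈ S, (nbS G S v).Nonempty := by
    intro v hv
    obtain ⟨y, hy, hyv⟩ : ∃ y ∈ S, y ≠ v := by
      by_cases h : u = v
      · exact ⟨x0, hx0, fun h' => hx0u (h'.trans h.symm)⟩
      · exact ⟨u, hu, h⟩
    have h1 := hS.cn v hv y hy
    rcases Relation.ReflTransGen.cases_head h1 with h2 | ⟨z, h2, _⟩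
    · exact absurd h2.symm hyv
    · exact ⟨z, (mem_nbS G).mpr ⟨h2.2, h2.1⟩⟩
  -- a vertex of positive curvature
  obtain ⟨p, hp, hpu, hk⟩ : ∃ p ∈ S, p ≠ u ∧ 0 < 6 - 3 * (dg G S p : ℤ) + (tr G S p : ℤ) := by
    by_contra hc
    push Not at hc
    have h1 : chi G S = (6 - 3 * (dg G S u : ℤ) + (tr G S u : ℤ)) +
        ∑ v ∈ S.erase u, (6 - 3 * (dg G S v : ℤ) + (tr G S v : ℤ)) := by
      unfold chi
      exact (Finset.add_sum_erase S _ hu).symm
    have h2 : ∑ v ∈ S.erase u, (6 - 3 * (dg G S v : ℤ) + (tr G S v : ℤ)) ≤ 0 := by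
      refine Finset.sum_nonpos fun v hv => ?_
      rw [Finset.mem_erase] at hv
      exact hc v hv.2 hv.1
    rw [hS.ch] at h1
    have hdu := hnb u hu
    rcases kappa_cases G hS.e2 hS.lf hu hdu with h3 | ⟨h3, _, _⟩
    · linarith
    · rw [tr_nbS, dg_nbS] at h1
      have h4 : (1 : ℤ) ≤ (nbS G S u).card := by exact_mod_cast hdu.card_pos
      linarith
  have hdp := hnb p hp
  rcases kappa_cases G hS.e2 hS.lf hp hdp with h3 | ⟨h3, h4, h5⟩
  · exact absurd hk (not_lt.mpr h3)
  rw [tr_nbS, dg_nbS] at hk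
  have hmem : ∀ x ∈ (S.erase p : Set V), G.Adj p x ↔ x ∈ nbS G S p := by
    intro x hx
    have hx' : x ∈ S := by
      have : x ∈ S.erase p := by exact_mod_cast hx
      exact Finset.mem_of_mem_erase this
    rw [mem_nbS]
    exact ⟨fun h => ⟨hx', h⟩, fun h => h.2⟩
  have hin : ∀ x ∈ nbS G S p, x ∈ (S.erase p : Set V) := by
    intro x hx
    rw [mem_nbS] at hx
    have h6 : x ∈ S.erase p := Finset.mem_erase.mpr ⟨fun h => hx.2.ne h.symm, hx.1⟩
    exact_mod_cast h6
  have hcp := hdp.card_pos
  -- the link is a path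
  have hpath : PathNb G (S.erase p : Set V) p ∧ pr G (nbS G S p) = 2 * (nbS G S p).card - 2 := by
    have h6 : (nbS G S p).card = 1 ∨ (nbS G S p).card = 2 ∨ (nbS G S p).card = 3 := by omega
    rcases h6 with h6 | h6 | h6
    · obtain ⟨a, ha⟩ := Finset.card_eq_one.mp h6
      refine ⟨Or.inl ⟨a, hin a (by rw [ha]; exact Finset.mem_singleton_self a), fun x hx => ?_⟩,
        ?_⟩
      · rw [hmem x hx, ha, Finset.mem_singleton]
      · rw [ha]
        unfold pr
        rw [Finset.sum_singleton, Finset.sum_singleton, ad_self, Finset.card_singleton]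
        norm_num
    · obtain ⟨a, b, hab, hN⟩ := Finset.card_eq_two.mp h6
      have h7 : 0 < pr G (nbS G S p) := by
        rw [h6] at hk
        push_cast at hk
        linarith
      rw [hN, pr_pair G hab] at h7
      have h8 : G.Adj a b := by
        by_contra h9
        rw [ad_of_not G h9] at h7
        exact lt_irrefl _ h7
      refine ⟨Or.inr (Or.inl ⟨a, hin a (by rw [hN]; simp), b, hin b (by rw [hN]; simp), h8,
        fun x hx => ?_⟩), ?_⟩
      · rw [hmem x hx, hN, Finset.mem_insert, Finset.mem_singleton]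
      · rw [h6, hN, pr_pair G hab, ad_of G h8]
        norm_num
    · obtain ⟨a, b, c, hab, hac, hbc, hN⟩ := Finset.card_eq_three.mp h6
      rw [h6] at hk h3
      push_cast at hk h3
      have h7 : pr G (nbS G S p) = 4 := by
        rw [hN, pr_triple G hab hac hbc] at hk h3 ⊢
        omega
      have h8 := h7
      rw [hN, pr_triple G hab hac hbc] at h8
      refine ⟨Or.inr (Or.inr ?_), ?_⟩
      · have ha := hin a (by rw [hN]; simp)
        have hb := hin b (by rw [hN]; simp)
        have hc := hin c (by rw [hN]; simp)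
        by_cases e1 : G.Adj a b
        · by_cases e2 : G.Adj a c
          · by_cases e3 : G.Adj b c
            · rw [ad_of G e1, ad_of G e2, ad_of G e3] at h8
              norm_num at h8
            · refine ⟨b, hb, a, ha, c, hc, e1.symm, e2, hbc, e3, fun x hx => ?_⟩
              rw [hmem x hx, hN]
              simp only [Finset.mem_insert, Finset.mem_singleton]
              tauto
          · by_cases e3 : G.Adj b c
            · refine ⟨a, ha, b, hb, c, hc, e1, e3, hac, e2, fun x hx => ?_⟩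
              rw [hmem x hx, hN]
              simp only [Finset.mem_insert, Finset.mem_singleton]
            · rw [ad_of G e1, ad_of_not G e2, ad_of_not G e3] at h8
              norm_num at h8
        · by_cases e2 : G.Adj a c
          · by_cases e3 : G.Adj b c
            · refine ⟨a, ha, c, hc, b, hb, e2, e3.symm, hab, e1, fun x hx => ?_⟩
              rw [hmem x hx, hN]
              simp only [Finset.mem_insert, Finset.mem_singleton]
              tauto
            · rw [ad_of_not G e1, ad_of G e2, ad_of_not G e3] at h8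
              norm_num at h8
          · have h9 := ad_le_one G b c
            rw [ad_of_not G e1, ad_of_not G e2] at h8
            linarith
      · rw [h7, h6]
        norm_num
  refine ⟨p, hp, hpu, hpath.1, ?_⟩
  have hsub : ∀ x, x ∈ (S.erase p : Set V) → x ∈ (S : Set V) := fun x hx => by
    have : x ∈ S.erase p := by exact_mod_cast hx
    exact_mod_cast Finset.mem_of_mem_erase this
  refine ⟨⟨u, Finset.mem_erase.mpr ⟨hpu.symm, hu⟩⟩, ?_, ?_, ?_, ?_⟩
  · -- connected
    have hN : ∀ a ∈ nbS G S p, ∀ b ∈ nbS G S p,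
        Relation.ReflTransGen (fun a b => G.Adj a b ∧ b ∈ (S.erase p : Set V)) a b := by
      intro a ha b hb
      have ha' := (hmem a (hin a ha)).mpr ha
      have hb' := (hmem b (hin b hb)).mpr hb
      have hai := hin a ha
      have hbi := hin b hb
      rcases hpath.1 with ⟨c, hc, h6⟩ | ⟨c, hc, c', hc', hcc, h6⟩ |
          ⟨c, hc, c', hc', c'', hc'', hcc, hcc', hne, hna, h6⟩
      · rw [h6 a hai] at ha'
        rw [h6 b hbi] at hb'
        rw [ha', hb']
      · rw [h6 a hai] at ha'
        rw [h6 b hbi] at hb'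
        rcases ha' with ha' | ha' <;> rcases hb' with hb' | hb'
        · rw [ha', hb']
        · rw [ha', hb']
          exact Relation.ReflTransGen.single ⟨hcc, hc'⟩
        · rw [ha', hb']
          exact Relation.ReflTransGen.single ⟨hcc.symm, hc⟩
        · rw [ha', hb']
      · rw [h6 a hai] at ha'
        rw [h6 b hbi] at hb'
        have s1 : Relation.ReflTransGen (fun a b => G.Adj a b ∧ b ∈ (S.erase p : Set V)) c c' :=
          Relation.ReflTransGen.single ⟨hcc, hc'⟩
        have s2 : Relation.ReflTransGen (fun a b => G.Adj a b ∧ b ∈ (S.erase p : Set V)) c' c :=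
          Relation.ReflTransGen.single ⟨hcc.symm, hc⟩
        have s3 : Relation.ReflTransGen (fun a b => G.Adj a b ∧ b ∈ (S.erase p : Set V)) c' c'' :=
          Relation.ReflTransGen.single ⟨hcc', hc''⟩
        have s4 : Relation.ReflTransGen (fun a b => G.Adj a b ∧ b ∈ (S.erase p : Set V)) c'' c' :=
          Relation.ReflTransGen.single ⟨hcc'.symm, hc'⟩
        rcases ha' with ha' | ha' | ha' <;> rcases hb' with hb' | hb' | hb' <;> rw [ha', hb']
        · exact s1
        · exact s1.trans s3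
        · exact s2
        · exact s3
        · exact s4.trans s2
        · exact s4
    intro x hx y hy
    have hxp : x ≠ p := by
      have : x ∈ S.erase p := by exact_mod_cast hx
      exact (Finset.mem_erase.mp this).1
    have hyp : y ≠ p := by
      have : y ∈ S.erase p := by exact_mod_cast hy
      exact (Finset.mem_erase.mp this).1
    have key : ∀ z, Relation.ReflTransGen (fun a b => G.Adj a b ∧ b ∈ (S : Set V)) x z →
        (z ≠ p → Relation.ReflTransGen
          (fun a b => G.Adj a b ∧ b ∈ (S.erase p : Set V)) x z ∧ z ∈ S) ∧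
        (z = p → ∀ b ∈ nbS G S p, Relation.ReflTransGen
          (fun a b => G.Adj a b ∧ b ∈ (S.erase p : Set V)) x b) := by
      intro z hz
      induction hz with
      | refl => exact ⟨fun _ => ⟨Relation.ReflTransGen.refl, hsub x hx⟩, fun h => absurd h hxp⟩
      | @tail y z _ h2 ih =>
        refine ⟨fun hzp => ?_, fun hzp b hb => ?_⟩
        · by_cases hyp' : y = p
          · have h8 : z ∈ nbS G S p := (mem_nbS G).mpr ⟨h2.2, by rw [← hyp']; exact h2.1⟩
            exact ⟨ih.2 hyp' z h8, h2.2⟩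
          · refine ⟨(ih.1 hyp').1.tail ⟨h2.1, ?_⟩, h2.2⟩
            have : z ∈ S.erase p := Finset.mem_erase.mpr ⟨hzp, h2.2⟩
            exact_mod_cast this
        · subst hzp
          have hyp' : y ≠ z := h2.1.ne
          have h8 : y ∈ nbS G S z := (mem_nbS G).mpr ⟨(ih.1 hyp').2, h2.1.symm⟩
          exact (ih.1 hyp').1.trans (hN y h8 b hb)
    exact ((key y (hS.cn x (hsub x hx) y (hsub y hy))).1 hyp).1
  · -- E2
    intro v hv x hx hvx a ha b hb c hc
    exact hS.e2 v (hsub v hv) x (hsub x hx) hvx a (hsub a ha) b (hsub b hb) c (hsub c hc)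
  · -- LF
    intro v hv T hT h1 h2
    obtain ⟨h6, h7⟩ := hS.lf v (hsub v hv) T hT (fun x hx => ⟨hsub x (h1 x hx).1, (h1 x hx).2⟩) h2
    exact ⟨h6, fun x hx hvx => h7 x (hsub x hx) hvx⟩
  · -- chi
    have h6 := chi_insert G (S := S.erase p) (p := p) (Finset.notMem_erase p S)
    rw [Finset.insert_erase hp, hS.ch] at h6
    have h7 : ∑ x ∈ S.erase p, ad G p x = (nbS G S p).card := by
      have h8 := dg_eq G S p
      rw [← Finset.add_sum_erase S _ hp, ad_self, zero_add] at h8
      rw [← h8]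
      rfl
    have h9 : ∑ x ∈ S.erase p, ∑ y ∈ S.erase p, ad G p x * ad G p y * ad G x y =
        pr G (nbS G S p) := by
      have h8 := tr_eq G S p
      rw [tr_nbS] at h8
      rw [h8, ← Finset.add_sum_erase S (fun x => ∑ y ∈ S, ad G p x * ad G p y * ad G x y) hp]
      have e1 : ∑ y ∈ S, ad G p p * ad G p y * ad G p y = 0 :=
        Finset.sum_eq_zero fun y _ => by rw [ad_self]; ring
      rw [e1, zero_add]
      refine Finset.sum_congr rfl fun x _ => ?_
      rw [← Finset.add_sum_erase S (fun y => ad G p x * ad G p y * ad G x y) hp, ad_self]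
      ring
    rw [h7, h9, hpath.2] at h6
    linarith

end Pool.Agent.CLQD
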