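import Pool.Agent.CLQD.D1a
import Pool.Agent.CLQD.D2

/-!
# CLQD module D3: members of the class are null and satisfy the two metric conditions
-/

set_option autoImplicit false

namespace Pool.Agent.CLQD

variable {V : Type} {G : SimpleGraph V}

theorem card5 [DecidableEq V] (a b c d e : V) : ({a, b, c, d, e} : Finset V).card ≤ 5 := by
  refine (Finset.card_insert_le _ _).trans ?_
  refine Nat.succ_le_succ ((Finset.card_insert_le _ _).trans ?_)
  refine Nat.succ_le_succ ((Finset.card_insert_le _ _).trans ?_)
  refine Nat.succ_le_succ ((Finset.card_insert_le _ _).trans ?_)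
  rw [Finset.card_singleton]

theorem wf_of_lf {S : Set V} (h : LF G S) : WF G S := by
  classical
  intro q hq z hz v hv y hy y' hy' w hw qz qv qy qy' qw zv vy yy' yw wz n1 n2 n3 n4 n5
  have h1 := h q hq {z, v, y, y', w} ⟨z, by simp⟩ (by
    intro x hx
    simp only [Finset.mem_insert, Finset.mem_singleton] at hx
    rcases hx with rfl | rfl | rfl | rfl | rfl
    · exact ⟨hz, qz⟩
    · exact ⟨hv, qv⟩
    · exact ⟨hy, qy⟩
    · exact ⟨hy', qy'⟩
    · exact ⟨hw, qw⟩) (by
    intro x hx
    simp only [Finset.mem_insert, Finset.mem_singleton] at hx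
    rcases hx with rfl | rfl | rfl | rfl | rfl
    · exact ⟨v, by simp, w, by simp, n1, zv, wz.symm⟩
    · exact ⟨z, by simp, y, by simp, n2, zv.symm, vy⟩
    · rcases yy' with e | e
      · subst e
        exact ⟨v, by simp, w, by simp, n1, vy.symm, yw⟩
      · exact ⟨v, by simp, y', by simp, n4, vy.symm, e⟩
    · rcases yy' with e | e
      · subst e
        exact ⟨v, by simp, w, by simp, n1, vy.symm, yw⟩
      · exact ⟨y, by simp, w, by simp, n5, e.symm, yw⟩
    · exact ⟨y', by simp, z, by simp, n3.symm, yw.symm, wz⟩)
  have h2 := card5 z v y y' w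
  omega

theorem lh_of_lf {S : Set V} (h : LF G S) {p a b c : V} (hp : p ∈ S) (ha : a ∈ S) (hb : b ∈ S)
    (hc : c ∈ S) (hab : G.Adj a b) (hbc : G.Adj b c) (hac : a ≠ c) (pa : G.Adj p a)
    (pb : G.Adj p b) (pc : G.Adj p c) {x y : V} (hx : x ∈ S) (hy : y ∈ S) (nx : x ≠ p)
    (ny : y ≠ p) (ax : G.Adj a x) (bx : G.Adj b x) (bY : G.Adj b y) (cy : G.Adj c y)
    (xy : AE G x y) (nac : ¬ G.Adj a c) : False := by
  classical
  have nay : a ≠ y := by
    rintro rfl
    exact nac cy.symm
  have ncx : c ≠ x := by
    rintro rfl
    exact nac ax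
  have h1 := h b hb {a, x, y, c, p} ⟨a, by simp⟩ (by
    intro t ht
    simp only [Finset.mem_insert, Finset.mem_singleton] at ht
    rcases ht with rfl | rfl | rfl | rfl | rfl
    · exact ⟨ha, hab.symm⟩
    · exact ⟨hx, bx⟩
    · exact ⟨hy, bY⟩
    · exact ⟨hc, hbc⟩
    · exact ⟨hp, pb.symm⟩) (by
    intro t ht
    simp only [Finset.mem_insert, Finset.mem_singleton] at ht
    rcases ht with rfl | rfl | rfl | rfl | rfl
    · exact ⟨x, by simp, p, by simp, nx, ax, pa.symm⟩
    · rcases xy with e | e
      · subst e
        exact ⟨a, by simp, c, by simp, hac, ax.symm, cy.symm⟩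
      · exact ⟨a, by simp, y, by simp, nay, ax.symm, e⟩
    · rcases xy with e | e
      · subst e
        exact ⟨a, by simp, c, by simp, hac, ax.symm, cy.symm⟩
      · exact ⟨x, by simp, c, by simp, ncx.symm, e.symm, cy.symm⟩
    · exact ⟨y, by simp, p, by simp, ny, cy, pc.symm⟩
    · exact ⟨a, by simp, c, by simp, hac, pa, pc⟩)
  have h2 := card5 a x y c p
  omega

theorem thm_D3 : St_D3 := by
  intro V G
  classical
  have main : ∀ n, ∀ S : Finset V, S.card = n → Cls G S →
      (∃ d, TI G (S : Set V) d) ∧ ∀ N : Set V → Prop, KSide G N → N (S : Set V) := by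
    intro n
    induction n with
    | zero =>
      intro S hS h
      exact absurd (Finset.card_eq_zero.1 hS) (Finset.nonempty_iff_ne_empty.1 h.ne)
    | succ k ih =>
      intro S hS h
      obtain ⟨u, hu⟩ := h.ne
      by_cases hex : ∃ x ∈ S, x ≠ u
      · obtain ⟨p, hp, -, hnb, hcl⟩ := thm_D2 V G S h u hu hex
        have hcard : (S.erase p).card = k := by
          rw [Finset.card_erase_of_mem hp, hS]
          rfl
        obtain ⟨⟨d, hd⟩, hN⟩ := ih (S.erase p) hcard hcl
        have hins : insert p ((S.erase p : Finset V) : Set V) = (S : Set V) := by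
          rw [← Finset.coe_insert, Finset.insert_erase hp]
        have hpn : p ∉ ((S.erase p : Finset V) : Set V) := by
          rw [Finset.mem_coe]
          exact Finset.notMem_erase p S
        have hW := wf_of_lf hcl.lf
        have up : ∀ {x : V}, x ∈ ((S.erase p : Finset V) : Set V) → x ∈ S ∧ x ≠ p := by
          intro x hx
          rw [Finset.mem_coe, Finset.mem_erase] at hx
          exact ⟨hx.2, hx.1⟩
        have dn : ∀ {x : V}, x ∈ S → x ≠ p → x ∈ ((S.erase p : Finset V) : Set V) := by
          intro x hx hne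
          rw [Finset.mem_coe, Finset.mem_erase]
          exact ⟨hne, hx⟩
        have hNS : ∀ N : Set V → Prop, KSide G N → ∀ q ∈ S, G.Adj p q →
            (∀ x ∈ S, G.Adj p x → AE G q x) → N (S : Set V) := by
          intro N hK q hq hpq hdom
          refine hK.dom (S : Set V) p q hp hq hpq hdom ?_
          rw [← Finset.coe_erase]
          exact hN N hK
        rcases hnb with ⟨a, ha, e⟩ | ⟨a, ha, b, hb, hab, e⟩ | ⟨a, ha, b, hb, c, hc, hab, hbc, hac,
          hnac, e⟩
        · refine ⟨?_, fun N hK => hNS N hK a (up ha).1 ((e a ha).2 rfl) ?_⟩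
          · rw [← hins]
            exact thm_D1a V G _ p a a d hpn hd ha ha (Or.inl rfl)
              (fun x hx => (e x hx).trans ⟨Or.inl, fun t => t.elim id id⟩) hW
          · intro x hx hpx
            exact Or.inl ((e x (dn hx hpx.ne.symm)).1 hpx).symm
        · refine ⟨?_, fun N hK => hNS N hK a (up ha).1 ((e a ha).2 (Or.inl rfl)) ?_⟩
          · rw [← hins]
            exact thm_D1a V G _ p a b d hpn hd ha hb (Or.inr hab) e hW
          · intro x hx hpx
            rcases (e x (dn hx hpx.ne.symm)).1 hpx with t | t
            · exact Or.inl t.symm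
            · rw [t]
              exact Or.inr hab
        · have pa := (e a ha).2 (Or.inl rfl)
          have pb := (e b hb).2 (Or.inr (Or.inl rfl))
          have pc := (e c hc).2 (Or.inr (Or.inr rfl))
          refine ⟨?_, fun N hK => hNS N hK b (up hb).1 pb ?_⟩
          · rw [← hins]
            refine thm_D1b V G _ p a b c d hpn hd ha hb hc hab hbc hac hnac e hW ?_
            intro x hx y hy ax bx bY cy xy
            exact lh_of_lf h.lf hp (up ha).1 (up hb).1 (up hc).1 hab hbc hac pa pb pc (up hx).1
              (up hy).1 (up hx).2 (up hy).2 ax bx bY cy xy hnac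
          · intro x hx hpx
            rcases (e x (dn hx hpx.ne.symm)).1 hpx with t | t | t
            · rw [t]
              exact Or.inr hab.symm
            · exact Or.inl t.symm
            · rw [t]
              exact Or.inr hbc
      · have hS1 : S = {u} := by
          refine Finset.eq_singleton_iff_unique_mem.2 ⟨hu, fun x hx => ?_⟩
          by_contra hne
          exact hex ⟨x, hx, hne⟩
        subst hS1
        refine ⟨⟨fun _ _ => 0, ⟨⟨?_, ?_, ?_, ?_⟩, ?_, ?_⟩⟩, fun N hK => ?_⟩
        · intro x hx y hy
          rw [Finset.coe_singleton, Set.mem_singleton_iff] at hx hy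
          exact ⟨fun _ => hx.trans hy.symm, fun _ => rfl⟩
        · intro x _ y _
          rfl
        · intro x _ y _ z _ _
          exact Nat.zero_le _
        · intro x _ y _ n hn
          exact absurd hn (Nat.succ_ne_zero n).symm
        · intro u _ x _ y _ k _ h1
          exact absurd h1 (Nat.succ_ne_zero k).symm
        · intro u _ z _ v _ w _ k h1
          exact absurd h1 (Nat.succ_ne_zero k).symm
        · rw [Finset.coe_singleton]
          exact hK.one u
  intro S h
  exact main S.card S rfl h

end Pool.Agent.CLQD
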