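import Pool.Agent.CLQD.D3

/-!
# CLQD module D4: a closed walk in `I` contains a tight strip
-/

set_option autoImplicit false

namespace Pool.Agent.CLQD

variable {V : Type} {G : SimpleGraph V}

/-- the row of a strip -/
theorem row {I : Set V} {d : V → V → ℕ} (h : TI G I d) (ω : ℕ → V) (hω : ∀ j, ω j ∈ I)
    (hadj : ∀ j, G.Adj (ω j) (ω (j + 1))) :
    ∀ s, (∀ j, j ≤ s → d (ω 0) (ω j) = j) → ∀ y ∈ I, AE G y (ω s) → d (ω 0) y = s →
      ∃ x : ℕ → V, (∀ j, x j ∈ I) ∧ x 0 = ω 0 ∧ x s = y ∧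
        ∀ j, j < s → AE G (x j) (x (j + 1)) ∧ AE G (x j) (ω j) ∧ AE G (x j) (ω (j + 1)) := by
  intro s
  induction s with
  | zero =>
    intro _ y hy _ h2
    have h3 := (h.met.zero (ω 0) (hω 0) y hy).1 h2
    exact ⟨fun _ => ω 0, fun _ => hω 0, rfl, h3, fun j hj => absurd hj (Nat.not_lt_zero j)⟩
  | succ s ih =>
    intro h0 y hy h1 h2
    rcases h1 with h1 | h1
    · subst h1
      exact ⟨ω, hω, rfl, rfl, fun j _ => ⟨Or.inr (hadj j), Or.inl rfl, Or.inr (hadj j)⟩⟩
    · obtain ⟨z, hz, z1, z2, z3⟩ := h.tc (ω 0) (hω 0) y hy (ω (s + 1)) (hω _) s h1 h2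
        (h0 (s + 1) le_rfl)
      have h3 : AE G z (ω s) := h.inc (ω 0) (hω 0) (ω (s + 1)) (hω _) z hz (ω s) (hω _) s
        (h0 (s + 1) le_rfl) z2 (hadj s).symm z3 (h0 s (Nat.le_succ s))
      obtain ⟨x, x1, x2, x3, x4⟩ := ih (fun j hj => h0 j (hj.trans (Nat.le_succ s))) z hz h3 z3
      refine ⟨fun j => if j ≤ s then x j else y, ?_, ?_, ?_, ?_⟩
      · intro j
        dsimp only
        split_ifs
        · exact x1 j
        · exact hy
      · dsimp only
        rw [if_pos (Nat.zero_le s)]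
        exact x2
      · dsimp only
        rw [if_neg (by omega)]
      · intro j hj
        dsimp only
        rw [if_pos (by omega : j ≤ s)]
        rcases Nat.lt_or_ge j s with hjs | hjs
        · rw [if_pos (by omega : j + 1 ≤ s)]
          exact x4 j hjs
        · have e : j = s := by omega
          subst e
          rw [if_neg (by omega : ¬ j + 1 ≤ j), x3]
          exact ⟨Or.inr z1.symm, h3, Or.inr z2.symm⟩

/-- the situation of module D4 -/
structure C4 (G : SimpleGraph V) (I R R' : Set V) (d : V → V → ℕ) (e w : ℤ → V) : Prop where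
  ri : RingI G I R
  sub : R' ⊆ R
  cl : ∀ r ∈ R', ∀ r' ∈ R, G.Adj r r' → r' ∈ R'
  h : TI G I d
  lf : LF G I
  g : Rng G I R' e w

section

variable {I R R' : Set V} {d : V → V → ℕ} {e w : ℤ → V}

theorem C4.dle (C : C4 G I R R' d e w) (i : ℤ) (n : ℕ) : d (w i) (w (i + n)) ≤ n := by
  induction n with
  | zero =>
    rw [Nat.cast_zero, add_zero, (C.h.met.zero _ (C.g.wI i) _ (C.g.wI i)).2 rfl]
  | succ k ih =>
    have h1 := C.h.met.lip (w i) (C.g.wI i) (w (i + k)) (C.g.wI _) (w (i + k + 1)) (C.g.wI _)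
      (C.g.ww _)
    have h2 : i + ((k + 1 : ℕ) : ℤ) = i + k + 1 := by push_cast; ring
    rw [h2]
    omega

theorem C4.dle' (C : C4 G I R R' d e w) (i j : ℤ) (n : ℕ) (hn : j = i + n ∨ i = j + n) :
    d (w i) (w j) ≤ n := by
  rcases hn with hn | hn
  · rw [hn]
    exact C.dle i n
  · rw [C.h.met.symm _ (C.g.wI i) _ (C.g.wI j), hn]
    exact C.dle j n

theorem C4.eI (C : C4 G I R R' d e w) (i : ℤ) : e i ∉ I := fun h =>
  C.ri.disj _ h (C.sub (C.g.eR i))

theorem C4.ee (C : C4 G I R R' d e w) (i : ℤ) : G.Adj (e i) (e (i + 1)) :=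
  (C.g.nb i _).2 (Or.inr (Or.inl rfl))

theorem C4.ew (C : C4 G I R R' d e w) (i : ℤ) : G.Adj (e i) (w i) :=
  (C.g.nb i _).2 (Or.inr (Or.inr (Or.inr rfl)))

theorem C4.ew' (C : C4 G I R R' d e w) (i : ℤ) : G.Adj (e i) (w (i - 1)) :=
  (C.g.nb i _).2 (Or.inr (Or.inr (Or.inl rfl)))

/-- inner neighbours of a ring vertex -/
theorem C4.nbI (C : C4 G I R R' d e w) {i : ℤ} {v : V} (hv : v ∈ I) (h : G.Adj (e i) v) :
    v = w (i - 1) ∨ v = w i := by
  rcases (C.g.nb i v).1 h with h1 | h1 | h1 | h1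
  · rw [h1] at hv
    exact absurd hv (C.eI _)
  · rw [h1] at hv
    exact absurd hv (C.eI _)
  · exact Or.inl h1
  · exact Or.inr h1

/-- ring neighbours of a ring vertex -/
theorem C4.nbR (C : C4 G I R R' d e w) {i : ℤ} {v : V} (hv : v ∉ I) (h : G.Adj (e i) v) :
    v = e (i - 1) ∨ v = e (i + 1) := by
  rcases (C.g.nb i v).1 h with h1 | h1 | h1 | h1
  · exact Or.inl h1
  · exact Or.inr h1
  · rw [h1] at hv
    exact absurd (C.g.wI _) hv
  · rw [h1] at hv
    exact absurd (C.g.wI _) hv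

/-- reversed coincidences do not occur -/
theorem C4.rev (C : C4 G I R R' d e w) : ∀ m : ℕ, ∀ k : ℤ, 1 ≤ m → e k = e (k + m) →
    w k = w (k + m - 1) → w (k - 1) = w (k + m) → False := by
  intro m
  induction m using Nat.strong_induction_on with
  | _ m ih =>
    intro k hm h1 h2 h3
    rcases Nat.lt_or_ge m 3 with hm3 | hm3
    · have h4 : m = 1 ∨ m = 2 := by omega
      rcases h4 with rfl | rfl
      · exact C.g.inj k (by rw [h3]; norm_num)
      · have h5 : k + ((2 : ℕ) : ℤ) - 1 = k + 1 := by push_cast; ring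
        rw [h5] at h2
        exact (C.g.ww k).ne h2
    · have h5 : G.Adj (e k) (e (k + m - 1)) := by
        rw [h1]
        exact (C.g.nb (k + m) _).2 (Or.inl rfl)
      have h6 : e (k + m - 1) = e (k + 1) := by
        rcases C.nbR (C.eI _) h5 with h7 | h7
        · exfalso
          have h8 := C.ew (k + m - 1)
          rw [h7, ← h2] at h8
          exact C.g.n3 k h8.symm
        · exact h7
      have h7 : G.Adj (e (k + m - 1)) (w (k + 1)) := by
        rw [h6]
        exact C.ew (k + 1)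
      have h8 : w (k + 1) = w (k + m - 1 - 1) := by
        rcases C.nbI (C.g.wI _) h7 with h9 | h9
        · exact h9
        · rw [← h2] at h9
          exact absurd h9.symm (C.g.ww k).ne
      have c1 : k + 1 + ((m - 2 : ℕ) : ℤ) = k + m - 1 := by
        have : ((m - 2 : ℕ) : ℤ) = m - 2 := by omega
        rw [this]
        ring
      refine ih (m - 2) (by omega) (k + 1) (by omega) ?_ ?_ ?_
      · rw [c1]
        exact h6.symm
      · rw [c1]
        exact h8
      · rw [c1, add_sub_cancel_right]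
        exact h2

/-- the properties of the minimal length -/
structure Mn (d : V → V → ℕ) (w : ℤ → V) (s : ℕ) : Prop where
  s1 : 1 ≤ s
  eq : ∀ (i : ℤ) (m : ℕ), m ≤ s → d (w i) (w (i + m)) = m
  ge : ∀ i : ℤ, s ≤ d (w i) (w (i + (s + 1 : ℕ)))

theorem C4.exists_mn [Finite V] (C : C4 G I R R' d e w) :
    ∃ s : ℕ, Mn d w s ∧ ∃ i₀ : ℤ, d (w i₀) (w (i₀ + (s + 1 : ℕ))) = s := by
  classical
  have hex : ∃ n : ℕ, ∃ i : ℤ, d (w i) (w (i + n)) ≠ n := by
    obtain ⟨M, hM⟩ := (Set.finite_range (fun q : V × V => d q.1 q.2)).bddAbove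
    refine ⟨M + 1, 0, fun h1 => ?_⟩
    have h2 : d (w 0) (w (0 + (M + 1 : ℕ))) ≤ M := hM ⟨(w 0, w (0 + (M + 1 : ℕ))), rfl⟩
    omega
  obtain ⟨i₀, hi₀⟩ := Nat.find_spec hex
  have hmin : ∀ m, m < Nat.find hex → ∀ i : ℤ, d (w i) (w (i + m)) = m := by
    intro m hm i
    by_contra hne
    exact Nat.find_min hex hm ⟨i, hne⟩
  set n := Nat.find hex with hn
  have hd0 : ∀ i : ℤ, d (w i) (w (i + (0 : ℕ))) = 0 := by
    intro i
    rw [Nat.cast_zero, add_zero]
    exact (C.h.met.zero _ (C.g.wI i) _ (C.g.wI i)).2 rfl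
  have hd1 : ∀ i : ℤ, d (w i) (w (i + (1 : ℕ))) = 1 := by
    intro i
    rw [Nat.cast_one]
    exact C.h.met.adj1 (C.g.wI _) (C.g.wI _) (C.g.ww i)
  have hn2 : 2 ≤ n := by
    by_contra hlt
    have : n = 0 ∨ n = 1 := by omega
    rcases this with h0 | h0
    · rw [h0] at hi₀
      exact hi₀ (hd0 i₀)
    · rw [h0] at hi₀
      exact hi₀ (hd1 i₀)
  obtain ⟨s, hs⟩ : ∃ s, n = s + 1 := ⟨n - 1, by omega⟩
  have hs1 : 1 ≤ s := by omega
  have heq : ∀ (i : ℤ) (m : ℕ), m ≤ s → d (w i) (w (i + m)) = m := by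
    intro i m hm
    exact hmin m (by omega) i
  have hge : ∀ i : ℤ, s ≤ d (w i) (w (i + (s + 1 : ℕ))) := by
    intro i
    by_contra hlt
    rw [not_le] at hlt
    have c1 : i + ((s + 1 : ℕ) : ℤ) = i + s + 1 := by push_cast; ring
    rw [c1] at hlt
    have l1 := C.h.met.lip (w i) (C.g.wI _) (w (i + s + 1)) (C.g.wI _) (w (i + s)) (C.g.wI _)
      (C.g.ww _).symm
    have e1 := heq i s le_rfl
    have e2 : d (w i) (w (i + s + 1)) = s - 1 := by omega
    rcases Nat.lt_or_ge s 2 with h2 | h2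
    · have h3 : s = 1 := by omega
      subst h3
      have h4 := (C.h.met.zero _ (C.g.wI _) _ (C.g.wI _)).1 e2
      have h5 := C.g.inj (i + 1)
      rw [add_sub_cancel_right] at h5
      exact h5 (by simpa using h4)
    · have c2 : i + ((s - 1 : ℕ) : ℤ) = i + s - 1 := by
        have : ((s - 1 : ℕ) : ℤ) = s - 1 := by omega
        rw [this]
        ring
      have e3 := heq i (s - 1) (by omega)
      rw [c2] at e3
      have adj1 : G.Adj (w (i + s)) (w (i + s - 1)) := by
        have := (C.g.ww (i + s - 1)).symm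
        rwa [sub_add_cancel] at this
      have h6 := C.h.inc (w i) (C.g.wI _) (w (i + s)) (C.g.wI _) (w (i + s - 1)) (C.g.wI _)
        (w (i + s + 1)) (C.g.wI _) (s - 1) (by omega) adj1 (C.g.ww _) e3 e2
      rcases h6 with h6 | h6
      · exact C.g.inj (i + s) h6
      · have e4 := heq (i + s - 1) 2 h2
        have c3 : i + (s : ℤ) - 1 + ((2 : ℕ) : ℤ) = i + s + 1 := by push_cast; ring
        rw [c3, C.h.met.adj1 (C.g.wI _) (C.g.wI _) h6] at e4
        omega
  refine ⟨s, ⟨hs1, heq, hge⟩, i₀, ?_⟩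
  rw [hs] at hi₀
  have h1 := hge i₀
  have h2 := C.dle i₀ (s + 1)
  omega

/-- coincidences in the ring are far apart -/
theorem C4.rd (C : C4 G I R R' d e w) {s : ℕ} (M : Mn d w s) (k : ℤ) (m : ℕ) (hm : 1 ≤ m)
    (hm2 : m ≤ 2 * s + 1) (hk : e k = e (k + m)) : False := by
  have s1 := M.s1
  have hz : ∀ {x y : V}, x ∈ I → y ∈ I → x = y → d x y = 0 := fun {x y} hx hy hxy =>
    (C.h.met.zero x hx y hy).2 hxy
  have a1 : G.Adj (e (k + m)) (w k) := by
    rw [← hk]
    exact C.ew k
  have a2 : G.Adj (e (k + m)) (w (k - 1)) := by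
    rw [← hk]
    exact C.ew' k
  have hne : w (k - 1) ≠ w k := by
    have := (C.g.ww (k - 1)).ne
    rwa [sub_add_cancel] at this
  rcases C.nbI (C.g.wI _) a1 with b1 | b1
  · rcases C.nbI (C.g.wI _) a2 with b2 | b2
    · exact hne (b2.trans b1.symm)
    · exact C.rev m k hm hk b1 b2
  · -- parallel case
    have h0 : d (w k) (w (k + m)) = 0 := hz (C.g.wI _) (C.g.wI _) b1
    rcases Nat.lt_or_ge m (s + 1) with c1 | c1
    · have := M.eq k m (by omega)
      omega
    rcases Nat.lt_or_ge m (s + 2) with c2 | c2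
    · have h1 : m = s + 1 := by omega
      subst h1
      have := M.ge k
      omega
    have h1 := M.eq k s le_rfl
    rw [b1] at h1
    have h2 := C.dle' (k + m) (k + s) (m - s) (Or.inr (by omega))
    have h3 := M.ge k
    rw [b1] at h3
    have h4 := C.dle' (k + m) (k + (s + 1 : ℕ)) (m - (s + 1)) (Or.inr (by omega))
    have h5 : m = 2 * s + 1 := by omega
    subst h5
    -- odd isometric closed walk
    have hwk : w k = w (k + (2 * s + 1 : ℕ)) := b1
    have e1 := M.eq k s le_rfl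
    have e2 : d (w k) (w (k + s + 1)) = s := by
      have t1 := M.ge k
      have c : k + ((s + 1 : ℕ) : ℤ) = k + s + 1 := by push_cast; ring
      rw [c] at t1
      have t2 := C.dle' (k + (2 * s + 1 : ℕ)) (k + s + 1) s (Or.inr (by push_cast; ring))
      rw [← hwk] at t2
      omega
    obtain ⟨s', rfl⟩ : ∃ s', s = s' + 1 := ⟨s - 1, by omega⟩
    obtain ⟨x, hx, x1, x2, x3⟩ := C.h.tc (w k) (C.g.wI _) (w (k + (s' + 1 : ℕ))) (C.g.wI _)
      (w (k + (s' + 1 : ℕ) + 1)) (C.g.wI _) s' (C.g.ww _) e1 e2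
    have e3 := M.eq k s' (Nat.le_succ _)
    have f1 : AE G (w (k + s')) x := by
      refine C.h.inc (w k) (C.g.wI _) (w (k + (s' + 1 : ℕ))) (C.g.wI _) _ (C.g.wI _) x hx s' e1
        ?_ x1 e3 x3
      have := (C.g.ww (k + s')).symm
      have c : k + ((s' + 1 : ℕ) : ℤ) = k + s' + 1 := by push_cast; ring
      rw [c]
      exact this
    have e4 : d (w k) (w (k + (s' + 1 : ℕ) + 1 + 1)) = s' := by
      have t1 := M.eq (k + (s' + 1 : ℕ) + 1 + 1) s' (Nat.le_succ _)
      have c : k + ((s' + 1 : ℕ) : ℤ) + 1 + 1 + s' = k + (2 * (s' + 1) + 1 : ℕ) := by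
        push_cast; ring
      rw [c, ← hwk, C.h.met.symm _ (C.g.wI _) _ (C.g.wI _)] at t1
      exact t1
    have f2 : AE G x (w (k + (s' + 1 : ℕ) + 1 + 1)) :=
      C.h.inc (w k) (C.g.wI _) (w (k + (s' + 1 : ℕ) + 1)) (C.g.wI _) x hx _ (C.g.wI _) s' e2
        x2 (C.g.ww _) x3 e4
    have dAE : ∀ {u a b : V}, u ∈ I → a ∈ I → b ∈ I → AE G a b → d u b ≤ d u a + 1 := by
      intro u a b hu ha hb hab
      rcases hab with hab | hab
      · rw [hab]
        exact Nat.le_succ _
      · exact C.h.met.lip u hu a ha b hb hab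
    have g1 : d (w (k + s')) (w (k + (s' + 1 : ℕ) + 1 + 1)) ≤ 2 := by
      have t1 := dAE (C.g.wI (k + s')) (C.g.wI (k + s')) hx f1
      have t2 := dAE (C.g.wI (k + s')) hx (C.g.wI _) f2
      rw [hz (C.g.wI (k + s')) (C.g.wI (k + s')) rfl] at t1
      omega
    have cc : k + ((s' + 1 : ℕ) : ℤ) + 1 + 1 = k + s' + (3 : ℕ) := by push_cast; ring
    rcases Nat.lt_or_ge s' 2 with q | q
    · have q' : s' = 0 ∨ s' = 1 := by omega
      rcases q' with rfl | rfl
      · -- s = 1
        refine C.g.n1 (k + 1) ?_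
        have t1 : k + 1 - 1 = k := by ring
        have t2 : k + 1 + 1 + 1 = k + (2 * (0 + 1) + 1 : ℕ) := by push_cast; ring
        rw [t1, hk, ← t2]
        exact (C.ee (k + 1 + 1)).symm
      · -- s = 2, a wheel with five spokes
        have W := wf_of_lf C.lf
        have p0 : w (k + 5) = w k := by
          have t : k + 5 = k + (2 * (1 + 1) + 1 : ℕ) := by push_cast; ring
          rw [t]
          exact hwk.symm
        have D2 : ∀ i j : ℤ, j = i + 2 → d (w i) (w j) = 2 := by
          intro i j hj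
          rw [hj]
          exact M.eq i 2 le_rfl
        have D3 : ∀ i j : ℤ, j = i + 3 → 2 ≤ d (w i) (w j) := by
          intro i j hj
          rw [hj]
          exact M.ge i
        have n2 : ∀ i j : ℤ, j = i + 2 → w i ≠ w j := by
          intro i j hj he
          have t1 := D2 i j hj
          rw [hz (C.g.wI _) (C.g.wI _) he] at t1
          omega
        have n3 : ∀ i j : ℤ, j = i + 3 → w i ≠ w j := by
          intro i j hj he
          have t1 := D3 i j hj
          rw [hz (C.g.wI _) (C.g.wI _) he] at t1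
          omega
        have a2' : ∀ i j : ℤ, j = i + 2 → ¬ G.Adj (w i) (w j) := by
          intro i j hj he
          have t1 := D2 i j hj
          rw [C.h.met.adj1 (C.g.wI _) (C.g.wI _) he] at t1
          omega
        have adj : ∀ i j : ℤ, j = i + 1 → G.Adj (w i) (w j) := by
          intro i j hj
          rw [hj]
          exact C.g.ww i
        have r2 : k + ((1 + 1 : ℕ) : ℤ) = k + 2 := by push_cast; ring
        have r3 : k + ((1 + 1 : ℕ) : ℤ) + 1 = k + 3 := by push_cast; ring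
        have r4 : k + ((1 + 1 : ℕ) : ℤ) + 1 + 1 = k + 4 := by push_cast; ring
        have r1 : k + ((1 : ℕ) : ℤ) = k + 1 := by push_cast; ring
        rw [r2] at x1
        rw [r3] at x2
        rw [r1] at f1
        rw [r4] at f2
        have y0 : G.Adj x (w k) := by
          have t := C.h.met.symm (w k) (C.g.wI _) x hx
          rw [x3] at t
          obtain ⟨z, hz', z1, z2⟩ := C.h.met.geo (w k) (C.g.wI _) x hx 0 x3
          have z3 := (C.h.met.zero (w k) (C.g.wI _) z hz').1 z2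
          rw [z3]
          exact z1
        have y1 : G.Adj x (w (k + 1)) := by
          rcases f1 with f1 | f1
          · rw [← f1] at x2
            exact absurd x2.symm (a2' _ _ (by ring))
          · exact f1.symm
        have y4 : G.Adj x (w (k + 4)) := by
          rcases f2 with f2 | f2
          · rw [f2] at x1
            exact absurd x1 (a2' _ _ (by ring))
          · exact f2
        refine W x hx (w k) (C.g.wI _) (w (k + 1)) (C.g.wI _) (w (k + 2)) (C.g.wI _)
          (w (k + 3)) (C.g.wI _) (w (k + 4)) (C.g.wI _) y0 y1 x1.symm x2.symm y4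
          (adj _ _ rfl) (adj _ _ (by ring)) (Or.inr (adj _ _ (by ring))) (adj _ _ (by ring)) ?_
          (n3 _ _ (by ring)) (n2 _ _ rfl) (n3 _ _ rfl) (n2 _ _ (by ring)) (n2 _ _ (by ring))
        rw [← p0]
        exact adj _ _ (by ring)
    · have t1 := M.eq (k + s') 3 (by omega)
      rw [cc] at g1
      omega

end

end Pool.Agent.CLQD
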