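import Pool.Agent.CLQD.D5

/-!
# CLQD, module D4F: Lipschitz functions and geodesic pieces of the ring walk
-/

set_option autoImplicit false

namespace Pool.Agent.CLQD

namespace F4

section mets

variable {V : Type} {G : SimpleGraph V} {I R R' : Set V} {d : V → V → ℕ}

theorem met_self (M : Met G I d) {x : V} (hx : x ∈ I) : d x x = 0 := (M.zero x hx x hx).mpr rfl

theorem met_adj (M : Met G I d) {x y : V} (hx : x ∈ I) (hy : y ∈ I) (h : G.Adj x y) :
    d x y = 1 := by
  have h1 := M.lip x hx x hx y hy h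
  rw [met_self M hx] at h1
  have h2 : d x y ≠ 0 := fun h3 => h.ne ((M.zero x hx y hy).mp h3)
  omega

theorem met_one (M : Met G I d) {x y : V} (hx : x ∈ I) (hy : y ∈ I) (h : d x y = 1) :
    G.Adj x y := by
  obtain ⟨z, hz, h1, h2⟩ := M.geo x hx y hy 0 h
  rw [(M.zero x hx z hz).mp h2]
  exact h1.symm

theorem met_ae (M : Met G I d) {x y : V} (hx : x ∈ I) (_hy : y ∈ I) (h : AE G x y) :
    d x y ≤ 1 := by
  rcases h with h | h
  · rw [← h, met_self M hx]
    exact Nat.zero_le _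
  · exact (met_adj M hx _hy h).le

theorem ring_I (hR : RingI G I R) {r : V} (hr : r ∈ R) : ∃ u ∈ I, G.Adj r u := by
  obtain ⟨r', r'', a, b, h1, h2, h3, h4, h5, -⟩ := hR.nb r hr
  exact ⟨a, h3, (h5 a).mpr (Or.inr (Or.inl rfl))⟩

theorem ring_II (hR : RingI G I R) {r u u' : V} (hr : r ∈ R) (hu : u ∈ I) (hu' : u' ∈ I)
    (h : G.Adj r u) (h' : G.Adj r u') : u = u' ∨ G.Adj u u' := by
  obtain ⟨r', r'', a, b, h1, h2, h3, h4, h5, h6, h7, -⟩ := hR.nb r hr
  have key' : ∀ t, t ∈ I → G.Adj r t → t = a ∨ t = b := by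
    intro t ht hyt
    rcases (h5 t).mp hyt with g | g | g | g
    · exact (hR.disj t ht (g ▸ h1)).elim
    · exact Or.inl g
    · exact Or.inr g
    · exact (hR.disj t ht (g ▸ h2)).elim
  rcases key' u hu h with g | g <;> rcases key' u' hu' h' with g' | g'
  · exact Or.inl (g.trans g'.symm)
  · exact Or.inr (g ▸ g' ▸ h7)
  · exact Or.inr (g ▸ g' ▸ h7.symm)
  · exact Or.inl (g.trans g'.symm)

/-- extension of a function on the inner part to the ring -/
theorem ext_fun (hR : RingI G I R) (hsub : R' ⊆ R) {e w : ℤ → V} (hr : Rng G I R' e w)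
    (g : V → ℕ) (hg : ∀ x ∈ I, ∀ y ∈ I, G.Adj x y → g y ≤ g x + 1) (Q : Prop) (k : ℤ)
    (hQ : Q → ∀ j : ℤ, g (w (k + j)) ≤ j.natAbs + 1 ∧ g (w (k + j - 1)) ≤ j.natAbs + 1) :
    ∃ F : V → ℕ, (∀ x ∈ I ∪ R', ∀ y ∈ I ∪ R', G.Adj x y → F y ≤ F x + 1) ∧
      (∀ x ∈ I, F x ≤ g x) ∧ (Q → F (e k) = 0) ∧
      (∀ x ∈ I, (x ∈ I → F x = g x)) ∧
      ∀ (i : ℤ) (n : ℕ), n ≤ g (w (i - 1)) + 1 → n ≤ g (w i) + 1 →
        (Q → ∀ j : ℤ, e i = e (k + j) → n ≤ j.natAbs) → n ≤ F (e i) := by
  classical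
  obtain ⟨P, hP⟩ : ∃ P : V → ℕ → Prop, ∀ v n, P v n ↔ ((v ∈ I ∧ n = g v) ∨
      (v ∈ R' ∧ ∃ u ∈ I, G.Adj v u ∧ n = g u + 1) ∨
      (Q ∧ ∃ j : ℤ, v = e (k + j) ∧ n = j.natAbs)) := ⟨_, fun _ _ => Iff.rfl⟩
  have hle : ∀ v n, P v n → sInf {n | P v n} ≤ n := fun v n h => Nat.sInf_le h
  have hex : ∀ v ∈ I ∪ R', P v (sInf {n | P v n}) := by
    intro v hv
    have hne : {n | P v n}.Nonempty := by
      rcases hv with hv | hv
      · exact ⟨g v, (hP v _).mpr (Or.inl ⟨hv, rfl⟩)⟩
      · obtain ⟨u, hu, hvu⟩ := ring_I hR (hsub hv)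
        exact ⟨g u + 1, (hP v _).mpr (Or.inr (Or.inl ⟨hv, u, hu, hvu, rfl⟩))⟩
    exact Nat.sInf_mem hne
  have heI : ∀ i, e i ∉ I := fun i h => hR.disj (e i) h (hsub (hr.eR i))
  have hFI : ∀ x ∈ I, sInf {n | P x n} = g x := by
    intro x hx
    have h1 := hex x (Or.inl hx)
    rw [hP] at h1
    rcases h1 with h1 | h1 | ⟨_, j, h1, _⟩
    · exact h1.2
    · exact (hR.disj x hx (hsub h1.1)).elim
    · exact (heI _ (h1 ▸ hx)).elim
  refine ⟨fun v => sInf {n | P v n}, ?_, fun x hx => (hFI x hx).le, ?_, fun x hx _ => hFI x hx, ?_⟩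
  · intro x hx y hy hxy
    have h1 := hex x hx
    obtain ⟨n, hn⟩ : ∃ n, sInf {n | P x n} = n := ⟨_, rfl⟩
    show sInf {n | P y n} ≤ sInf {n | P x n} + 1
    rw [hn] at h1 ⊢
    rw [hP] at h1
    rcases h1 with ⟨hxI, h1⟩ | ⟨hxR, u, hu, hxu, h1⟩ | ⟨hq, j, hj, h1⟩
    · rcases hy with hy | hy
      · refine (hle y _ ((hP y _).mpr (Or.inl ⟨hy, rfl⟩))).trans ?_
        rw [h1]
        exact hg x hxI y hy hxy
      · refine (hle y _ ((hP y _).mpr (Or.inr (Or.inl ⟨hy, x, hxI, hxy.symm, rfl⟩)))).trans ?_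
        rw [h1]
    · rcases hy with hy | hy
      · refine (hle y _ ((hP y _).mpr (Or.inl ⟨hy, rfl⟩))).trans ?_
        rcases ring_II hR (hsub hxR) hu hy hxu hxy with h2 | h2
        · rw [← h2]
          omega
        · have := hg u hu y hy h2
          omega
      · obtain ⟨c, hc, hxc, hyc⟩ := ring_w hR (hsub hxR) (hsub hy) hxy
        refine (hle y _ ((hP y _).mpr (Or.inr (Or.inl ⟨hy, c, hc, hyc, rfl⟩)))).trans ?_
        rcases ring_II hR (hsub hxR) hu hc hxu hxc with h2 | h2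
        · rw [← h2]
          omega
        · have := hg u hu c hc h2
          omega
    · rw [hj, hr.nb] at hxy
      have h3 := hQ hq j
      rcases hxy with h2 | h2 | h2 | h2
      · refine (hle y _ ((hP y _).mpr (Or.inr (Or.inr ⟨hq, j - 1, ?_, rfl⟩)))).trans ?_
        · rw [h2]
          congr 1
          ring
        · omega
      · refine (hle y _ ((hP y _).mpr (Or.inr (Or.inr ⟨hq, j + 1, ?_, rfl⟩)))).trans ?_
        · rw [h2]
          congr 1
          ring
        · omega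
      · refine (hle y _ ((hP y _).mpr (Or.inl ⟨h2 ▸ hr.wI _, rfl⟩))).trans ?_
        rw [h2, h1]
        exact h3.2
      · refine (hle y _ ((hP y _).mpr (Or.inl ⟨h2 ▸ hr.wI _, rfl⟩))).trans ?_
        rw [h2, h1]
        exact h3.1
  · intro hq
    have h1 := hle (e k) 0 ((hP _ _).mpr (Or.inr (Or.inr ⟨hq, 0, by rw [add_zero], rfl⟩)))
    exact Nat.le_zero.mp h1
  · intro i n h1 h2 h3
    have h4 := hex (e i) (Or.inr (hr.eR i))
    show n ≤ sInf {n | P (e i) n}
    rw [hP] at h4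
    rcases h4 with h4 | ⟨_, u, hu, hxu, h4⟩ | ⟨hq, j, hj, h4⟩
    · exact (heI i h4.1).elim
    · rw [h4]
      rw [hr.nb] at hxu
      rcases hxu with h5 | h5 | h5 | h5
      · exact (heI _ (h5 ▸ hu)).elim
      · exact (heI _ (h5 ▸ hu)).elim
      · rw [h5]
        exact h1
      · rw [h5]
        exact h2
    · rw [h4]
      exact h3 hq j hj

/-- reversing a function -/
theorem rev_fun {S : Set V} {F : V → ℕ} (hF : ∀ x ∈ S, ∀ y ∈ S, G.Adj x y → F y ≤ F x + 1)
    {a b : V} {n : ℕ} (ha : F a = 0) (hb : n ≤ F b) :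
    ∃ f : V → ℕ, f b = 0 ∧ n ≤ f a ∧ ∀ x ∈ S, ∀ y ∈ S, G.Adj x y → f y ≤ f x + 1 := by
  refine ⟨fun v => n - F v, by show n - F b = 0; omega, by show n ≤ n - F a; omega, ?_⟩
  intro x hx y hy hxy
  have h1 := hF y hy x hx hxy.symm
  show n - F y ≤ n - F x + 1
  omega

/-- A closed walk all of whose pieces of length at most `s` are geodesic. -/
structure Wk (G : SimpleGraph V) (I : Set V) (d : V → V → ℕ) (w : ℤ → V) (s : ℕ) : Prop where
  wI : ∀ i, w i ∈ I
  ww : ∀ i, G.Adj (w i) (w (i + 1))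
  inj : ∀ i, w (i - 1) ≠ w (i + 1)
  s1 : 1 ≤ s
  geo : ∀ (i : ℤ) (k : ℕ), k ≤ s → d (w i) (w (i + k)) = k

theorem wk_far (T : TI G I d) {w : ℤ → V} {s : ℕ} (W : Wk G I d w s) (i : ℤ) :
    s ≤ d (w i) (w (i + s + 1)) := by
  have M := T.met
  have h1 := M.lip (w i) (W.wI _) (w (i + s + 1)) (W.wI _) (w (i + s)) (W.wI _)
    (W.ww (i + s)).symm
  rw [W.geo i s le_rfl] at h1
  by_contra h2
  have h3 : d (w i) (w (i + s + 1)) = s - 1 := by omega
  have hs := W.s1
  obtain ⟨t, rfl⟩ : ∃ t, s = t + 1 := ⟨s - 1, by omega⟩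
  have h4 := T.inc (w i) (W.wI _) (w (i + (t + 1 : ℕ))) (W.wI _) (w (i + t)) (W.wI _)
    (w (i + (t + 1 : ℕ) + 1)) (W.wI _) t (W.geo i (t + 1) le_rfl)
    (by
      have := (W.ww (i + t)).symm
      rw [show i + (t : ℤ) + 1 = i + ((t + 1 : ℕ) : ℤ) by push_cast; ring] at this
      exact this) (W.ww _) (W.geo i t (by omega)) (by rw [h3]; omega)
  have h5 := W.inj (i + (t + 1 : ℕ))
  rw [show i + ((t + 1 : ℕ) : ℤ) - 1 = i + t by push_cast; ring] at h5
  rcases h4 with h4 | h4
  · exact h5 h4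
  · rcases Nat.lt_or_ge t 1 with h6 | h6
    · have h7 : t = 0 := by omega
      subst h7
      rw [(M.zero _ (W.wI _) _ (W.wI _))] at h3
      rw [show i + ((0 : ℕ) : ℤ) = i by push_cast; ring] at h5
      exact h5 h3
    · have h7 := W.geo (i + t) 2 (by omega)
      rw [show i + (t : ℤ) + ((2 : ℕ) : ℤ) = i + ((t + 1 : ℕ) : ℤ) + 1 by push_cast; ring] at h7
      rw [met_adj M (W.wI _) (W.wI _) h4] at h7
      exact absurd h7 (by norm_num)

/-- short pieces have distinct ends -/
theorem wk_ne (T : TI G I d) {w : ℤ → V} {s : ℕ} (W : Wk G I d w s) (i : ℤ) (m : ℕ)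
    (h1 : 1 ≤ m) (h2 : m ≤ 2 * s) : w i ≠ w (i + m) := by
  have M := T.met
  intro h
  rcases Nat.lt_or_ge s m with h3 | h3
  · have h4 := wk_far T W i
    have h5 := W.geo (i + s + 1) (m - (s + 1)) (by omega)
    have hm : ((m - (s + 1) : ℕ) : ℤ) = m - (s + 1) := by
      rw [Nat.cast_sub (by omega)]
      push_cast
      ring
    rw [hm, show i + (s : ℤ) + 1 + ((m : ℤ) - (s + 1)) = i + m by ring, ← h,
      M.symm _ (W.wI _) _ (W.wI _)] at h5
    omega
  · have h4 := W.geo i m h3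
    rw [← h, met_self M (W.wI _)] at h4
    omega

/-- the odd isometric closed walk is impossible, `2 ≤ s` -/
theorem wk_odd (T : TI G I d) (L : LF G I) {w : ℤ → V} {s : ℕ} (W : Wk G I d w s) (hs : 2 ≤ s)
    (i : ℤ) (h : w i = w (i + (2 * s + 1 : ℕ))) : False := by
  classical
  have M := T.met
  have e1 : d (w i) (w (i + s)) = s := W.geo i s le_rfl
  have e2 : d (w i) (w (i + s + 1)) = s := by
    have := W.geo (i + s + 1) s le_rfl
    rw [show i + (s : ℤ) + 1 + s = i + (2 * s + 1 : ℕ) by push_cast; ring, ← h,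
      M.symm _ (W.wI _) _ (W.wI _)] at this
    exact this
  have e3 : d (w i) (w (i + s - 1)) = s - 1 := by
    have := W.geo i (s - 1) (by omega)
    rw [show i + ((s - 1 : ℕ) : ℤ) = i + s - 1 by rw [Nat.cast_sub (by omega)]; push_cast; ring]
      at this
    exact this
  have e4 : d (w i) (w (i + s + 2)) = s - 1 := by
    have := W.geo (i + s + 2) (s - 1) (by omega)
    rw [show i + (s : ℤ) + 2 + ((s - 1 : ℕ) : ℤ) = i + (2 * s + 1 : ℕ) by
      rw [Nat.cast_sub (by omega)]; push_cast; ring, ← h, M.symm _ (W.wI _) _ (W.wI _)] at this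
    exact this
  obtain ⟨x, hx, hx1, hx2, hx3⟩ := T.tc (w i) (W.wI _) (w (i + s)) (W.wI _) (w (i + s + 1))
    (W.wI _) (s - 1) (W.ww _) (by rw [e1]; omega) (by rw [e2]; omega)
  have a1 : AE G x (w (i + s - 1)) := by
    refine T.inc (w i) (W.wI _) (w (i + s)) (W.wI _) x hx (w (i + s - 1)) (W.wI _) (s - 1)
      (by rw [e1]; omega) hx1 ?_ hx3 e3
    have := (W.ww (i + s - 1)).symm
    rw [show i + (s : ℤ) - 1 + 1 = i + s by ring] at this
    exact this
  have a2 : AE G x (w (i + s + 2)) := by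
    refine T.inc (w i) (W.wI _) (w (i + s + 1)) (W.wI _) x hx (w (i + s + 2)) (W.wI _) (s - 1)
      (by rw [e2]; omega) hx2 ?_ hx3 e4
    have := W.ww (i + s + 1)
    rw [show i + (s : ℤ) + 1 + 1 = i + s + 2 by ring] at this
    exact this
  rcases Nat.lt_or_ge 2 s with h3 | h3
  · -- distance three
    have g1 := W.geo (i + s - 1) 3 (by omega)
    rw [show i + (s : ℤ) - 1 + ((3 : ℕ) : ℤ) = i + s + 2 by push_cast; ring] at g1
    have g2 : d (w (i + s - 1)) x ≤ 1 := by
      rw [M.symm _ (W.wI _) _ hx]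
      exact met_ae M hx (W.wI _) a1
    have g3 : d (w (i + s - 1)) (w (i + s + 2)) ≤ d (w (i + s - 1)) x + 1 := by
      rcases a2 with a2 | a2
      · rw [← a2]
        omega
      · exact M.lip _ (W.wI _) _ hx _ (W.wI _) a2
    omega
  · have hs2 : s = 2 := by omega
    subst hs2
    push_cast at *
    -- the 5-wheel
    have c0 : G.Adj x (w i) := by
      have := met_one M (W.wI _) hx (by rw [hx3])
      exact this.symm
    have c2 : G.Adj x (w (i + 2)) := hx1.symm
    have c3 : G.Adj x (w (i + 3)) := by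
      have := hx2.symm
      rw [show i + (2 : ℤ) + 1 = i + 3 by ring] at this
      exact this
    have d13 : d (w (i + 1)) (w (i + 3)) = 2 := by
      have := W.geo (i + 1) 2 (by omega)
      rw [show i + 1 + ((2 : ℕ) : ℤ) = i + 3 by push_cast; ring] at this
      exact this
    have d24 : d (w (i + 2)) (w (i + 4)) = 2 := by
      have := W.geo (i + 2) 2 (by omega)
      rw [show i + 2 + ((2 : ℕ) : ℤ) = i + 4 by push_cast; ring] at this
      exact this
    have c1 : G.Adj x (w (i + 1)) := by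
      rw [show i + 2 - 1 = i + 1 by ring] at a1
      rcases a1 with a1 | a1
      · exfalso
        have h5 := met_adj M hx (W.wI _) c3
        rw [a1] at h5
        omega
      · exact a1
    have c4 : G.Adj x (w (i + 4)) := by
      rw [show i + 2 + 2 = i + 4 by ring] at a2
      rcases a2 with a2 | a2
      · exfalso
        have h5 := met_adj M (W.wI _) hx c2.symm
        rw [a2] at h5
        omega
      · exact a2
    have k0 : G.Adj (w i) (w (i + 1)) := W.ww i
    have k1 : G.Adj (w (i + 1)) (w (i + 2)) := by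
      have := W.ww (i + 1)
      rw [show i + 1 + 1 = i + 2 by ring] at this
      exact this
    have k2 : G.Adj (w (i + 2)) (w (i + 3)) := by
      have := W.ww (i + 2)
      rw [show i + 2 + 1 = i + 3 by ring] at this
      exact this
    have k3 : G.Adj (w (i + 3)) (w (i + 4)) := by
      have := W.ww (i + 3)
      rw [show i + 3 + 1 = i + 4 by ring] at this
      exact this
    have k4 : G.Adj (w (i + 4)) (w i) := by
      have := W.ww (i + 4)
      rw [show i + 4 + 1 = i + 5 by ring] at this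
      rw [h]
      exact this
    have n02 : w i ≠ w (i + 2) := by
      have := wk_ne T W i 2 (by omega) (by omega)
      push_cast at this
      exact this
    have n13 : w (i + 1) ≠ w (i + 3) := by
      have := wk_ne T W (i + 1) 2 (by omega) (by omega)
      rw [show i + 1 + ((2 : ℕ) : ℤ) = i + 3 by push_cast; ring] at this
      exact this
    have n24 : w (i + 2) ≠ w (i + 4) := by
      have := wk_ne T W (i + 2) 2 (by omega) (by omega)
      rw [show i + 2 + ((2 : ℕ) : ℤ) = i + 4 by push_cast; ring] at this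
      exact this
    have n03 : w i ≠ w (i + 3) := by
      have := wk_ne T W i 3 (by omega) (by omega)
      push_cast at this
      exact this
    have n14 : w (i + 1) ≠ w (i + 4) := by
      have := wk_ne T W (i + 1) 3 (by omega) (by omega)
      rw [show i + 1 + ((3 : ℕ) : ℤ) = i + 4 by push_cast; ring] at this
      exact this
    obtain ⟨h6, _⟩ := L x hx {w i, w (i + 1), w (i + 2), w (i + 3), w (i + 4)}
      ⟨w i, by simp⟩
      (by
        intro y hy
        simp only [Finset.mem_insert, Finset.mem_singleton] at hy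
        rcases hy with hy | hy | hy | hy | hy <;> rw [hy]
        · exact ⟨W.wI _, c0⟩
        · exact ⟨W.wI _, c1⟩
        · exact ⟨W.wI _, c2⟩
        · exact ⟨W.wI _, c3⟩
        · exact ⟨W.wI _, c4⟩)
      (by
        intro y hy
        simp only [Finset.mem_insert, Finset.mem_singleton] at hy
        rcases hy with hy | hy | hy | hy | hy <;> rw [hy]
        · exact ⟨w (i + 1), by simp, w (i + 4), by simp, n14, k0, k4.symm⟩
        · exact ⟨w i, by simp, w (i + 2), by simp, n02, k0.symm, k1⟩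
        · exact ⟨w (i + 1), by simp, w (i + 3), by simp, n13, k1.symm, k2⟩
        · exact ⟨w (i + 2), by simp, w (i + 4), by simp, n24, k2.symm, k3⟩
        · exact ⟨w (i + 3), by simp, w i, by simp, n03.symm, k3.symm, k4⟩)
    have h7 : ({w i, w (i + 1), w (i + 2), w (i + 3), w (i + 4)} : Finset V).card ≤ 5 :=
      Finset.card_le_five
    omega

/-- ring vertices at short distance are distinct -/
theorem ring_ne (T : TI G I d) (L : LF G I) (hR : RingI G I R) (hsub : R' ⊆ R)
    {e w : ℤ → V} (hr : Rng G I R' e w) {s : ℕ} (W : Wk G I d w s) (i : ℤ) (m : ℕ)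
    (h1 : 1 ≤ m) (h2 : m ≤ 2 * s + 1) : e i ≠ e (i + m) := by
  intro h
  have heI : ∀ i, e i ∉ I := fun i h => hR.disj (e i) h (hsub (hr.eR i))
  have h3 : G.Adj (e i) (w i) := (hr.nb i _).mpr (Or.inr (Or.inr (Or.inr rfl)))
  rw [h, hr.nb] at h3
  rcases h3 with h3 | h3 | h3 | h3
  · exact heI _ (h3 ▸ W.wI i)
  · exact heI _ (h3 ▸ W.wI i)
  · rcases Nat.lt_or_ge 1 m with h4 | h4
    · have h5 := wk_ne T W i (m - 1) (by omega) (by omega)
      rw [show i + ((m - 1 : ℕ) : ℤ) = i + m - 1 by rw [Nat.cast_sub (by omega)]; push_cast; ring]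
        at h5
      exact h5 h3
    · have hm : m = 1 := by omega
      subst hm
      have h5 : G.Adj (e i) (e (i + 1)) := (hr.nb i _).mpr (Or.inr (Or.inl rfl))
      exact h5.ne (by rw [h]; push_cast; rfl)
  · rcases Nat.lt_or_ge m (2 * s + 1) with h4 | h4
    · exact wk_ne T W i m h1 (by omega) h3
    · have hm : m = 2 * s + 1 := by omega
      subst hm
      rcases Nat.lt_or_ge s 2 with h5 | h5
      · have hs : s = 1 := by
          have := W.s1
          omega
        subst hs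
        have h6 := hr.n1 (i + 1)
        rw [show i + 1 - 1 = i by ring, show i + 1 + 1 = i + 2 by ring] at h6
        apply h6
        rw [h]
        have h7 : G.Adj (e (i + 2)) (e (i + 2 + 1)) := (hr.nb (i + 2) _).mpr (Or.inr (Or.inl rfl))
        rw [show i + 2 + 1 = i + ((2 * 1 + 1 : ℕ) : ℤ) by push_cast; ring] at h7
        exact h7.symm
      · exact wk_odd T L W h5 i h3

end mets

end F4

end Pool.Agent.CLQD
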