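import Pool.Agent.CLQD.D4

/-!
# CLQD module D4b: tightness by Lipschitz functions; the strip
-/

set_option autoImplicit false

namespace Pool.Agent.CLQD

variable {V : Type} {G : SimpleGraph V}

/-- one-Lipschitz on `S` -/
def Lp (G : SimpleGraph V) (S : Set V) (f : V → ℕ) : Prop :=
  ∀ x ∈ S, ∀ y ∈ S, G.Adj x y → f y ≤ f x + 1

open Classical in
/-- the extension of a function on `I` to the ring vertices -/
noncomputable def Fx (G : SimpleGraph V) (I : Set V) (g : V → ℕ) (P : V → ℕ → Prop) (v : V) : ℕ :=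
  if v ∈ I then g v else sInf ({n | ∃ a ∈ I, G.Adj v a ∧ n = 1 + g a} ∪ {n | P v n})

theorem Fx_I {I : Set V} (g : V → ℕ) (P : V → ℕ → Prop) {v : V} (hv : v ∈ I) :
    Fx G I g P v = g v := if_pos hv

theorem Fx_le1 {I : Set V} (g : V → ℕ) (P : V → ℕ → Prop) {v a : V} (hv : v ∉ I) (ha : a ∈ I)
    (h : G.Adj v a) : Fx G I g P v ≤ 1 + g a := by
  unfold Fx
  rw [if_neg hv]
  exact Nat.sInf_le (Or.inl ⟨a, ha, h, rfl⟩)

theorem Fx_le2 {I : Set V} (g : V → ℕ) (P : V → ℕ → Prop) {v : V} {n : ℕ} (hv : v ∉ I)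
    (h : P v n) : Fx G I g P v ≤ n := by
  unfold Fx
  rw [if_neg hv]
  exact Nat.sInf_le (Or.inr h)

theorem Fx_mem {I : Set V} (g : V → ℕ) (P : V → ℕ → Prop) {v : V} (hv : v ∉ I)
    (h : ∃ a ∈ I, G.Adj v a) :
    (∃ a ∈ I, G.Adj v a ∧ Fx G I g P v = 1 + g a) ∨ P v (Fx G I g P v) := by
  unfold Fx
  rw [if_neg hv]
  obtain ⟨a, ha, h1⟩ := h
  have hne : ({n | ∃ a ∈ I, G.Adj v a ∧ n = 1 + g a} ∪ {n | P v n} : Set ℕ).Nonempty :=
    ⟨1 + g a, Or.inl ⟨a, ha, h1, rfl⟩⟩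
  exact Nat.sInf_mem hne

theorem rev_lp {S : Set V} {F : V → ℕ} (hF : Lp G S F) {a b : V} {n : ℕ} (hb : F b = 0)
    (ha : n ≤ F a) : ∃ f : V → ℕ, f a = 0 ∧ n ≤ f b ∧ ∀ x ∈ S, ∀ y ∈ S, G.Adj x y →
      f y ≤ f x + 1 := by
  refine ⟨fun x => n - F x, ?_, ?_, ?_⟩
  · dsimp only
    omega
  · dsimp only
    omega
  · intro x hx y hy hxy
    dsimp only
    have := hF y hy x hx hxy.symm
    omega

section

variable {I R R' : Set V} {d : V → V → ℕ} {e w : ℤ → V}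

theorem C4.notI (C : C4 G I R R' d e w) {r : V} (hr : r ∈ R') : r ∉ I := fun h =>
  C.ri.disj _ h (C.sub hr)

theorem C4.q1 (C : C4 G I R R' d e w) {r : V} (hr : r ∈ R') : ∃ a ∈ I, G.Adj r a := by
  obtain ⟨r1, r2, a, b, h1, h2, ha, hb, h3, -⟩ := C.ri.nb r (C.sub hr)
  exact ⟨a, ha, (h3 a).2 (Or.inr (Or.inl rfl))⟩

theorem C4.q2 (C : C4 G I R R' d e w) {r x y : V} (hr : r ∈ R') (hx : x ∈ I) (hy : y ∈ I)
    (h1 : G.Adj r x) (h2 : G.Adj r y) : AE G x y := by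
  obtain ⟨r1, r2, a, b, hr1, hr2, ha, hb, h3, -, hab, -⟩ := C.ri.nb r (C.sub hr)
  have key : ∀ v ∈ I, G.Adj r v → v = a ∨ v = b := by
    intro v hv hrv
    rcases (h3 v).1 hrv with t | t | t | t
    · rw [t] at hv
      exact (C.ri.disj _ hv hr1).elim
    · exact Or.inl t
    · exact Or.inr t
    · rw [t] at hv
      exact (C.ri.disj _ hv hr2).elim
  rcases key x hx h1 with t | t
  · rcases key y hy h2 with t' | t'
    · exact Or.inl (t.trans t'.symm)
    · rw [t, t']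
      exact Or.inr hab
  · rcases key y hy h2 with t' | t'
    · rw [t, t']
      exact Or.inr hab.symm
    · exact Or.inl (t.trans t'.symm)

theorem C4.q3 (C : C4 G I R R' d e w) {r r' : V} (hr : r ∈ R') (hr' : r' ∈ R')
    (h : G.Adj r r') : ∃ c ∈ I, G.Adj r c ∧ G.Adj r' c := by
  obtain ⟨r1, r2, a, b, hr1, hr2, ha, hb, h3, h4, hab, h5, -⟩ := C.ri.nb r (C.sub hr)
  rcases (h3 r').1 h with t | t | t | t
  · exact ⟨a, ha, (h3 a).2 (Or.inr (Or.inl rfl)), by rw [t]; exact h4⟩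
  · exact (C.notI hr' (by rw [t]; exact ha)).elim
  · exact (C.notI hr' (by rw [t]; exact hb)).elim
  · exact ⟨b, hb, (h3 b).2 (Or.inr (Or.inr (Or.inl rfl))), by rw [t]; exact h5.symm⟩

theorem C4.fx_lip (C : C4 G I R R' d e w) (g : V → ℕ) (P : V → ℕ → Prop)
    (hg : ∀ x ∈ I, ∀ y ∈ I, G.Adj x y → g y ≤ g x + 1)
    (p1 : ∀ x ∈ R', ∀ n, P x n → ∀ y ∈ I, G.Adj x y → g y ≤ n + 1)
    (p2 : ∀ x ∈ R', ∀ n, P x n → ∀ y ∈ R', G.Adj x y → ∃ n', P y n' ∧ n' ≤ n + 1) :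
    Lp G (I ∪ R') (Fx G I g P) := by
  have ga : ∀ {x y : V}, x ∈ I → y ∈ I → AE G x y → g y ≤ g x + 1 := by
    intro x y hx hy hxy
    rcases hxy with t | t
    · rw [t]
      exact Nat.le_succ _
    · exact hg x hx y hy t
  rintro x (hx | hx) y (hy | hy) hxy
  · rw [Fx_I g P hx, Fx_I g P hy]
    exact hg x hx y hy hxy
  · rw [Fx_I g P hx]
    have := Fx_le1 g P (C.notI hy) hx hxy.symm
    omega
  · rw [Fx_I g P hy]
    rcases Fx_mem g P (C.notI hx) (C.q1 hx) with ⟨a, ha, h1, h2⟩ | h1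
    · have := ga ha hy (C.q2 hx ha hy h1 hxy)
      omega
    · exact p1 x hx _ h1 y hy hxy
  · rcases Fx_mem g P (C.notI hx) (C.q1 hx) with ⟨a, ha, h1, h2⟩ | h1
    · obtain ⟨c, hc, c1, c2⟩ := C.q3 hx hy hxy
      have h3 := ga ha hc (C.q2 hx ha hc h1 c1)
      have h4 := Fx_le1 g P (C.notI hy) hc c2
      omega
    · obtain ⟨n', h2, h3⟩ := p2 x hx _ h1 y hy hxy
      exact (Fx_le2 g P (C.notI hy) h2).trans h3

/-- distances from an inner vertex -/
theorem C4.fd_lip (C : C4 G I R R' d e w) (g : V → ℕ)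
    (hg : ∀ x ∈ I, ∀ y ∈ I, G.Adj x y → g y ≤ g x + 1) :
    Lp G (I ∪ R') (Fx G I g fun _ _ => False) :=
  C.fx_lip g _ hg (fun _ _ _ h => h.elim) (fun _ _ _ h => h.elim)

theorem C4.fd_ge (C : C4 G I R R' d e w) (g : V → ℕ) (j : ℤ) {n : ℕ} (h1 : n ≤ g (w (j - 1)))
    (h2 : n ≤ g (w j)) : n + 1 ≤ Fx G I g (fun _ _ => False) (e j) := by
  rcases Fx_mem g (fun _ _ => False) (C.eI j) (C.q1 (C.g.eR j)) with ⟨a, ha, h3, h4⟩ | h3
  · rw [h4]
    rcases C.nbI ha h3 with t | t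
    · rw [t]
      omega
    · rw [t]
      omega
  · exact h3.elim

theorem C4.dlip (C : C4 G I R R' d e w) (u : V) (hu : u ∈ I) :
    ∀ x ∈ I, ∀ y ∈ I, G.Adj x y → d u y ≤ d u x + 1 :=
  fun x hx y hy hxy => C.h.met.lip u hu x hx y hy hxy

theorem C4.ring_ge (C : C4 G I R R' d e w) {s : ℕ} (M : Mn d w s) (i : ℤ) :
    ∃ f : V → ℕ, f (e i) = 0 ∧ s + 1 ≤ f (e (i + s + 1)) ∧
      ∀ x ∈ I ∪ R', ∀ y ∈ I ∪ R', G.Adj x y → f y ≤ f x + 1 := by
  have hsym := C.h.met.symm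
  set g : V → ℕ := fun v => 1 + min (d (w (i - 1)) v) (d (w i) v) with hg
  set P : V → ℕ → Prop := fun v n => ∃ j : ℤ, e (i + j) = v ∧ n = j.natAbs with hP
  have g1 : ∀ v, g v ≤ 1 + d (w (i - 1)) v := fun v =>
    Nat.add_le_add_left (min_le_left _ _) 1
  have g2 : ∀ v, g v ≤ 1 + d (w i) v := fun v => Nat.add_le_add_left (min_le_right _ _) 1
  have g3 : ∀ v n, n ≤ d (w (i - 1)) v → n ≤ d (w i) v → 1 + n ≤ g v := fun v n h1 h2 =>
    Nat.add_le_add_left (le_min h1 h2) 1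
  have gl : ∀ x ∈ I, ∀ y ∈ I, G.Adj x y → g y ≤ g x + 1 := by
    intro x hx y hy hxy
    have l1 := C.h.met.lip (w (i - 1)) (C.g.wI _) x hx y hy hxy
    have l2 := C.h.met.lip (w i) (C.g.wI _) x hx y hy hxy
    have a1 := g1 y
    have a2 := g2 y
    have e1 : g x = 1 + d (w (i - 1)) x ∨ g x = 1 + d (w i) x := by
      rcases min_choice (d (w (i - 1)) x) (d (w i) x) with t | t
      · left
        rw [hg]
        dsimp only
        rw [t]
      · right
        rw [hg]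
        dsimp only
        rw [t]
    rcases e1 with e1 | e1
    · rw [e1]
      omega
    · rw [e1]
      omega
  refine ⟨Fx G I g P, ?_, ?_, ?_⟩
  · have h1 : P (e i) 0 := ⟨0, by rw [add_zero], rfl⟩
    exact Nat.le_zero.1 (Fx_le2 g P (C.eI i) h1)
  · rcases Fx_mem g P (C.eI (i + s + 1)) (C.q1 (C.g.eR _)) with ⟨a, ha, h3, h4⟩ | h3
    · rw [h4]
      have hs : s ≤ g a := by
        rcases C.nbI ha h3 with t | t
        · rw [t, add_sub_cancel_right]
          have u1 := M.eq i s le_rfl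
          have u2 := M.ge (i - 1)
          have c : i - 1 + ((s + 1 : ℕ) : ℤ) = i + s := by push_cast; ring
          rw [c] at u2
          have := g3 (w (i + s)) s u2 (by omega)
          omega
        · rw [t]
          have u1 := M.ge i
          have c : i + ((s + 1 : ℕ) : ℤ) = i + s + 1 := by push_cast; ring
          rw [c] at u1
          have u2 := C.h.met.lip (w (i + s + 1)) (C.g.wI _) (w (i - 1)) (C.g.wI _) (w i)
            (C.g.wI _) (by have := C.g.ww (i - 1); rwa [sub_add_cancel] at this)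
          rw [hsym _ (C.g.wI (i + s + 1)) _ (C.g.wI i),
            hsym _ (C.g.wI (i + s + 1)) _ (C.g.wI (i - 1))] at u2
          have s1 := M.s1
          have := g3 (w (i + s + 1)) (s - 1) (by omega) (by omega)
          omega
      omega
    · obtain ⟨j, hj, hn⟩ := h3
      rw [hn]
      by_contra hlt
      have hlt' : j.natAbs ≤ s := by omega
      have c : i + s + 1 = i + j + ((s + 1 - j).toNat : ℤ) := by
        rw [Int.toNat_of_nonneg (by omega)]
        ring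
      refine C.rd M (i + j) (s + 1 - j).toNat (by omega) (by omega) ?_
      rw [← c]
      exact hj
  · refine C.fx_lip g P gl ?_ ?_
    · rintro x hx n ⟨j, rfl, hn⟩ y hy hxy
      rcases C.nbI hy hxy with t | t
      · have u1 := C.dle' (i - 1) (i + j - 1) j.natAbs (by omega)
        have u2 := g1 y
        rw [t] at u2 ⊢
        omega
      · have u1 := C.dle' i (i + j) j.natAbs (by omega)
        have u2 := g2 y
        rw [t] at u2 ⊢
        omega
    · rintro x hx n ⟨j, rfl, hn⟩ y hy hxy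
      rcases C.nbR (C.notI hy) hxy with t | t
      · exact ⟨(j - 1).natAbs, ⟨j - 1, by rw [t]; congr 1; ring, rfl⟩, by omega⟩
      · exact ⟨(j + 1).natAbs, ⟨j + 1, by rw [t]; congr 1; ring, rfl⟩, by omega⟩

end

theorem thm_D4 : St_D4 := by
  intro V _ G I R R' d e w hri hsub hcl hT hL hg
  have C : C4 G I R R' d e w := ⟨hri, hsub, hcl, hT, hL, hg⟩
  obtain ⟨s, M, i₀, hi₀⟩ := C.exists_mn
  have hsym := C.h.met.symm
  have z0 : i₀ + ((0 : ℕ) : ℤ) = i₀ := by rw [Nat.cast_zero, add_zero]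
  obtain ⟨x, x1, x2, x3, x4⟩ := row hT (fun j : ℕ => w (i₀ + j)) (fun j => hg.wI _)
    (fun j => by
      have := hg.ww (i₀ + j)
      have c : i₀ + ((j + 1 : ℕ) : ℤ) = i₀ + j + 1 := by push_cast; ring
      rw [c]
      exact this) s
    (fun j hj => by
      rw [z0]
      exact M.eq i₀ j hj) (w (i₀ + (s + 1 : ℕ))) (hg.wI _)
    (by
      have := hg.ww (i₀ + s)
      have c : i₀ + ((s + 1 : ℕ) : ℤ) = i₀ + s + 1 := by push_cast; ring
      rw [c]
      exact Or.inr this.symm)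
    (by
      rw [z0]
      exact hi₀)
  refine ⟨s, i₀, x, ?_⟩
  have cs : ∀ j : ℕ, i₀ + ((j + 1 : ℕ) : ℤ) = i₀ + j + 1 := fun j => by push_cast; ring
  have cp : ∀ j : ℕ, 1 ≤ j → i₀ + ((j - 1 : ℕ) : ℤ) = i₀ + j - 1 := fun j hj => by
    have : ((j - 1 : ℕ) : ℤ) = j - 1 := by omega
    rw [this]
    ring
  refine ⟨M.s1, fun i _ => Or.inr (hg.eR _), fun i _ => Or.inl (hg.wI _),
    fun i _ => Or.inl (x1 i), ?_, ?_, ?_, ?_, ?_, x2, x3, fun i hi => (x4 i hi).1, ?_, ?_⟩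
  · intro i _
    rw [cs]
    exact C.ee _
  · intro i _
    rw [cs]
    exact hg.ww _
  · intro i _
    exact C.ew _
  · intro i _
    rw [cs]
    have := C.ew' (i₀ + i + 1)
    rwa [add_sub_cancel_right] at this
  · intro i hi1 _ v _ hv
    rw [cs, cp i hi1]
    exact (hg.nb _ v).1 hv
  · intro i hi1 hi2
    obtain ⟨j, rfl⟩ : ∃ j, i = j + 1 := ⟨i - 1, by omega⟩
    rw [Nat.add_sub_cancel]
    rcases Nat.lt_or_ge j s with hj | hj
    · exact (x4 j hj).2
    · have e1 : j = s := by omega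
      subst e1
      rw [x3]
      refine ⟨?_, Or.inl rfl⟩
      have := hg.ww (i₀ + j)
      rw [cs]
      exact Or.inr this.symm
  · -- tightness
    have M0 := M.eq i₀ s le_rfl
    have Mg := M.ge
    have t0 : ∀ v, v ∈ I → d v v = 0 := fun v hv => (hT.met.zero v hv v hv).2 rfl
    have key : ∀ (u : V), u ∈ I → Lp G (I ∪ R') (Fx G I (d u) fun _ _ => False) := fun u hu =>
      C.fd_lip (d u) (C.dlip u hu)
    rintro a b (⟨rfl, rfl⟩ | ⟨rfl, rfl⟩ | ⟨rfl, rfl⟩ | ⟨rfl, rfl⟩ | ⟨rfl, rfl⟩ | ⟨rfl, rfl⟩)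
    · obtain ⟨f, f1, f2, f3⟩ := C.ring_ge M i₀
      refine ⟨f, ?_, ?_, f3⟩
      · rw [z0]
        exact f1
      · rw [cs]
        exact f2
    · obtain ⟨f, f1, f2, f3⟩ := C.ring_ge M (i₀ + 1)
      refine ⟨f, ?_, ?_, f3⟩
      · rw [Nat.cast_one]
        exact f1
      · have c : i₀ + ((s + 2 : ℕ) : ℤ) = i₀ + 1 + s + 1 := by push_cast; ring
        rw [c]
        exact f2
    · refine ⟨Fx G I (d (w i₀)) fun _ _ => False, ?_, ?_, key _ (hg.wI _)⟩
      · rw [z0, Fx_I _ _ (hg.wI _)]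
        exact t0 _ (hg.wI _)
      · refine C.fd_ge _ _ ?_ ?_
        · rw [cs, add_sub_cancel_right, M0]
        · rw [hi₀]
    · have F := key (w (i₀ + (s + 1 : ℕ))) (hg.wI _)
      refine rev_lp F ?_ ?_
      · rw [Fx_I _ _ (hg.wI _)]
        exact t0 _ (hg.wI _)
      · refine C.fd_ge _ _ ?_ ?_
        · rw [Nat.cast_one, add_sub_cancel_right, hsym _ (hg.wI _) _ (hg.wI _), hi₀]
        · rw [hsym _ (hg.wI _) _ (hg.wI _)]
          have := M.eq (i₀ + (1 : ℕ)) s le_rfl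
          have c : i₀ + ((1 : ℕ) : ℤ) + s = i₀ + (s + 1 : ℕ) := by push_cast; ring
          rw [c] at this
          exact this.ge
    · have F := key (w (i₀ + (s : ℕ))) (hg.wI _)
      refine rev_lp F ?_ ?_
      · rw [Fx_I _ _ (hg.wI _)]
        exact t0 _ (hg.wI _)
      · rw [z0]
        refine C.fd_ge _ _ ?_ ?_
        · rw [hsym _ (hg.wI _) _ (hg.wI _)]
          have := Mg (i₀ - 1)
          have c : i₀ - 1 + ((s + 1 : ℕ) : ℤ) = i₀ + s := by push_cast; ring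
          rw [c] at this
          exact this
        · rw [hsym _ (hg.wI _) _ (hg.wI _)]
          exact M0.ge
    · refine ⟨Fx G I (d (w (i₀ + (1 : ℕ)))) fun _ _ => False, ?_, ?_, key _ (hg.wI _)⟩
      · rw [Fx_I _ _ (hg.wI _)]
        exact t0 _ (hg.wI _)
      · refine C.fd_ge _ _ ?_ ?_
        · have := M.eq (i₀ + (1 : ℕ)) s le_rfl
          have c : i₀ + ((1 : ℕ) : ℤ) + s = i₀ + (s + 2 : ℕ) - 1 := by push_cast; ring
          rw [c] at this
          exact this.ge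
        · have := Mg (i₀ + (1 : ℕ))
          have c : i₀ + ((1 : ℕ) : ℤ) + (s + 1 : ℕ) = i₀ + (s + 2 : ℕ) := by push_cast; ring
          rw [c] at this
          exact this

end Pool.Agent.CLQD
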