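import Pool.Agent.CLQD.D2

/-!
# CLQD, module D7: counting for a ringed graph
-/

set_option autoImplicit false

namespace Pool.Agent.CLQD

open Finset

section ringcount

variable {V : Type} (G : SimpleGraph V)

/-- the triangle indicator -/
noncomputable def tt (v x y : V) : ℤ := ad G v x * ad G v y * ad G x y

theorem tt_rot (v x y : V) : tt G v x y = tt G y v x := by
  unfold tt
  rw [ad_comm G y v, ad_comm G y x]
  ring

theorem tt_rot' (v x y : V) : tt G v x y = tt G x v y := by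
  unfold tt
  rw [ad_comm G x v]
  ring

theorem tt_swap (v x y : V) : tt G v x y = tt G v y x := by
  unfold tt
  rw [ad_comm G y x]
  ring

theorem sum_ad (S : Finset V) (v : V) (f : V → ℤ) :
    ∑ x ∈ S, ad G v x * f x = ∑ x ∈ nbS G S v, f x := by
  classical
  unfold nbS
  rw [Finset.sum_filter]
  refine Finset.sum_congr rfl fun x _ => ?_
  by_cases h : G.Adj v x
  · rw [if_pos h, ad_of G h, one_mul]
  · rw [if_neg h, ad_of_not G h, zero_mul]

theorem sum_tt (S T : Finset V) (v : V) :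
    ∑ x ∈ S, ∑ y ∈ T, tt G v x y = ∑ x ∈ nbS G S v, ∑ y ∈ nbS G T v, ad G x y := by
  rw [← sum_ad G S v]
  refine Finset.sum_congr rfl fun x _ => ?_
  rw [← sum_ad G T v, Finset.mul_sum]
  refine Finset.sum_congr rfl fun y _ => ?_
  unfold tt
  ring

end ringcount

theorem thm_D7 : St_D7 := by
  intro V _ _ G I R hIR hR
  have hdis : Disjoint I R := by
    rw [Finset.disjoint_left]
    intro v h1 h2
    exact hR.disj v (by exact_mod_cast h1) (by exact_mod_cast h2)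
  have spl : ∀ f : V → ℤ, ∑ x ∈ (Finset.univ : Finset V), f x = ∑ x ∈ I, f x + ∑ x ∈ R, f x := by
    intro f
    rw [← hIR, Finset.sum_union hdis]
  have hlink : ∀ r ∈ R, ∃ r' r'' a b, r' ≠ r'' ∧ a ≠ b ∧ nbS G I r = {a, b} ∧
      nbS G R r = {r', r''} ∧ ad G r' a = 1 ∧ ad G a b = 1 ∧ ad G r'' b = 1 ∧ ad G r' b = 0 ∧
      ad G r'' a = 0 ∧ ad G r' r'' = 0 := by
    intro r hr
    obtain ⟨r', r'', a, b, h1, h2, h3, h4, h5, h6, h7, h8, h9, h10, h11, h12⟩ :=
      hR.nb r (by exact_mod_cast hr)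
    refine ⟨r', r'', a, b, h9, h7.ne, ?_, ?_, ad_of G h6, ad_of G h7, ad_of G h8.symm,
      ad_of_not G h10, ad_of_not G (fun h => h11 h.symm), ad_of_not G h12⟩
    · ext x
      rw [mem_nbS, h5, Finset.mem_insert, Finset.mem_singleton]
      constructor
      · rintro ⟨hx, h | h | h | h⟩
        · exact absurd (by exact_mod_cast hx) (fun hx' => hR.disj x hx' (by rw [h]; exact h1))
        · exact Or.inl h
        · exact Or.inr h
        · exact absurd (by exact_mod_cast hx) (fun hx' => hR.disj x hx' (by rw [h]; exact h2))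
      · rintro (h | h)
        · exact ⟨by rw [h]; exact_mod_cast h3, Or.inr (Or.inl h)⟩
        · exact ⟨by rw [h]; exact_mod_cast h4, Or.inr (Or.inr (Or.inl h))⟩
    · ext x
      rw [mem_nbS, h5, Finset.mem_insert, Finset.mem_singleton]
      constructor
      · rintro ⟨hx, h | h | h | h⟩
        · exact Or.inl h
        · exact absurd (by exact_mod_cast hx) (fun hx' => hR.disj x (by rw [h]; exact h3) hx')
        · exact absurd (by exact_mod_cast hx) (fun hx' => hR.disj x (by rw [h]; exact h4) hx')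
        · exact Or.inr h
      · rintro (h | h)
        · exact ⟨by rw [h]; exact_mod_cast h1, Or.inl h⟩
        · exact ⟨by rw [h]; exact_mod_cast h2, Or.inr (Or.inr (Or.inr h))⟩
  have s1 : ∀ r ∈ R, ∑ x ∈ I, ad G r x = 2 := by
    intro r hr
    obtain ⟨r', r'', a, b, h1, h2, h3, h4, -⟩ := hlink r hr
    rw [← dg_eq, dg_nbS, h3, Finset.card_pair h2]
    norm_num
  have s2 : ∀ r ∈ R, ∑ x ∈ R, ad G r x = 2 := by
    intro r hr
    obtain ⟨r', r'', a, b, h1, h2, h3, h4, -⟩ := hlink r hr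
    rw [← dg_eq, dg_nbS, h4, Finset.card_pair h1]
    norm_num
  have s3 : ∀ r ∈ R, ∑ x ∈ I, ∑ y ∈ I, tt G r x y = 2 := by
    intro r hr
    obtain ⟨r', r'', a, b, h1, h2, h3, h4, h5, h6, h7, h8, h9, h10⟩ := hlink r hr
    rw [sum_tt, h3, Finset.sum_pair h2, Finset.sum_pair h2, Finset.sum_pair h2, ad_self, ad_self,
      ad_comm G b a, h6]
    norm_num
  have s4 : ∀ r ∈ R, ∑ x ∈ R, ∑ y ∈ I, tt G r x y = 2 := by
    intro r hr
    obtain ⟨r', r'', a, b, h1, h2, h3, h4, h5, h6, h7, h8, h9, h10⟩ := hlink r hr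
    rw [sum_tt, h3, h4, Finset.sum_pair h1, Finset.sum_pair h2, Finset.sum_pair h2, h5, h8, h9,
      h7]
    norm_num
  have s5 : ∀ r ∈ R, ∑ x ∈ R, ∑ y ∈ R, tt G r x y = 0 := by
    intro r hr
    obtain ⟨r', r'', a, b, h1, h2, h3, h4, h5, h6, h7, h8, h9, h10⟩ := hlink r hr
    rw [sum_tt, h4, Finset.sum_pair h1, Finset.sum_pair h1, Finset.sum_pair h1, ad_self, ad_self,
      ad_comm G r'' r', h10]
    norm_num
  have s4' : ∀ r ∈ R, ∑ x ∈ I, ∑ y ∈ R, tt G r x y = 2 := by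
    intro r hr
    rw [Finset.sum_comm, ← s4 r hr]
    exact Finset.sum_congr rfl fun x _ => Finset.sum_congr rfl fun y _ => tt_swap G r y x
  -- the sums over I
  have e1 : ∑ v ∈ I, ∑ x ∈ R, ad G v x = ∑ r ∈ R, (2 : ℤ) := by
    rw [Finset.sum_comm]
    refine Finset.sum_congr rfl fun r hr => ?_
    rw [← s1 r hr]
    exact Finset.sum_congr rfl fun x _ => ad_comm G x r
  have e2 : ∑ v ∈ I, ∑ x ∈ R, ∑ y ∈ I, tt G v x y = ∑ r ∈ R, (2 : ℤ) := by
    rw [Finset.sum_comm]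
    refine Finset.sum_congr rfl fun r hr => ?_
    rw [← s3 r hr]
    exact Finset.sum_congr rfl fun x _ => Finset.sum_congr rfl fun y _ => tt_rot' G x r y
  have e3 : ∑ v ∈ I, ∑ x ∈ I, ∑ y ∈ R, tt G v x y = ∑ r ∈ R, (2 : ℤ) := by
    rw [← e2]
    refine Finset.sum_congr rfl fun v _ => ?_
    rw [Finset.sum_comm]
    exact Finset.sum_congr rfl fun x _ => Finset.sum_congr rfl fun y _ => tt_swap G v y x
  have e4 : ∑ v ∈ I, ∑ x ∈ R, ∑ y ∈ R, tt G v x y = ∑ r ∈ R, (2 : ℤ) := by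
    rw [Finset.sum_comm]
    refine Finset.sum_congr rfl fun r hr => ?_
    rw [← s4' r hr]
    exact Finset.sum_congr rfl fun x _ => Finset.sum_congr rfl fun y _ => tt_rot' G x r y
  have hch : ∀ S : Finset V, chi G S = 6 * S.card - 3 * ∑ v ∈ S, ∑ x ∈ S, ad G v x +
      ∑ v ∈ S, ∑ x ∈ S, ∑ y ∈ S, tt G v x y := by
    intro S
    rw [chi_eq, Finset.mul_sum, Finset.sum_add_distrib, Finset.sum_sub_distrib,
      Finset.sum_const, nsmul_eq_mul]
    have : ∑ i ∈ S, ∑ x ∈ S, ∑ y ∈ S, ad G i x * ad G i y * ad G x y =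
        ∑ v ∈ S, ∑ x ∈ S, ∑ y ∈ S, tt G v x y := rfl
    rw [this]
    ring
  have hcard : ((Finset.univ : Finset V).card : ℤ) = I.card + R.card := by
    rw [← hIR, Finset.card_union_of_disjoint hdis]
    push_cast
    rfl
  have f1 : ∑ v : V, ∑ x : V, ad G v x = ∑ v ∈ I, ∑ x ∈ I, ad G v x + 3 * ∑ r ∈ R, (2 : ℤ) := by
    rw [spl]
    have a1 : ∑ v ∈ I, ∑ x : V, ad G v x = ∑ v ∈ I, ∑ x ∈ I, ad G v x + ∑ r ∈ R, (2 : ℤ) := by
      rw [← e1, ← Finset.sum_add_distrib]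
      exact Finset.sum_congr rfl fun v _ => spl _
    have a2 : ∑ v ∈ R, ∑ x : V, ad G v x = 2 * ∑ r ∈ R, (2 : ℤ) := by
      rw [Finset.mul_sum]
      refine Finset.sum_congr rfl fun v hv => ?_
      rw [spl, s1 v hv, s2 v hv]
      norm_num
    rw [a1, a2]
    ring
  have f2 : ∑ v : V, ∑ x : V, ∑ y : V, tt G v x y = ∑ v ∈ I, ∑ x ∈ I, ∑ y ∈ I, tt G v x y +
      6 * ∑ r ∈ R, (2 : ℤ) := by
    have g : ∀ v, ∑ x : V, ∑ y : V, tt G v x y = ∑ x ∈ I, ∑ y ∈ I, tt G v x y +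
        ∑ x ∈ I, ∑ y ∈ R, tt G v x y + (∑ x ∈ R, ∑ y ∈ I, tt G v x y +
        ∑ x ∈ R, ∑ y ∈ R, tt G v x y) := by
      intro v
      rw [spl, ← Finset.sum_add_distrib, ← Finset.sum_add_distrib]
      rw [Finset.sum_congr rfl fun x _ => spl (fun y => tt G v x y)]
      rw [Finset.sum_congr (s₁ := R) rfl fun x _ => spl (fun y => tt G v x y)]
    rw [spl]
    have a1 : ∑ v ∈ I, ∑ x : V, ∑ y : V, tt G v x y = ∑ v ∈ I, ∑ x ∈ I, ∑ y ∈ I, tt G v x y +
        ∑ r ∈ R, (2 : ℤ) + (∑ r ∈ R, (2 : ℤ) + ∑ r ∈ R, (2 : ℤ)) := by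
      rw [Finset.sum_congr rfl fun v _ => g v, Finset.sum_add_distrib, Finset.sum_add_distrib,
        Finset.sum_add_distrib, e2, e3, e4]
    have a2 : ∑ v ∈ R, ∑ x : V, ∑ y : V, tt G v x y = 3 * ∑ r ∈ R, (2 : ℤ) := by
      rw [Finset.mul_sum]
      refine Finset.sum_congr rfl fun v hv => ?_
      rw [g, s3 v hv, s4 v hv, s5 v hv, s4' v hv]
      norm_num
    rw [a1, a2]
    ring
  rw [hch, hch, hcard, f1, f2, Finset.sum_const, nsmul_eq_mul]
  ring

end Pool.Agent.CLQD
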