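import Pool.Agent.CLQD.D8

/-!
# CLQD, module NoChord: if all boundary degrees are four, the boundary has no chords
-/

set_option autoImplicit false

namespace Pool.Agent.CLQD

section

variable {V : Type}

/-- the neighbourhood of `v` is the induced path `p, q, r, s` -/
structure NcPth (G : SimpleGraph V) (v p q r s : V) : Prop where
  nb : ∀ y, G.Adj v y ↔ (y = p ∨ y = q ∨ y = r ∨ y = s)
  pq : G.Adj p q
  qr : G.Adj q r
  rs : G.Adj r s
  pr : p ≠ r
  ps : p ≠ s
  qs : q ≠ s
  npr : ¬ G.Adj p r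
  nps : ¬ G.Adj p s
  nqs : ¬ G.Adj q s

namespace NcPth

variable {G : SimpleGraph V} {v p q r s : V} (h : NcPth G v p q r s)

include h

theorem rev : NcPth G v s r q p where
  nb y := by rw [h.nb]; tauto
  pq := h.rs.symm
  qr := h.qr.symm
  rs := h.pq.symm
  pr := h.qs.symm
  ps := h.ps.symm
  qs := h.pr.symm
  npr := fun g => h.nqs g.symm
  nps := fun g => h.nps g.symm
  nqs := fun g => h.npr g.symm

theorem vp : G.Adj v p := (h.nb p).mpr (Or.inl rfl)
theorem vq : G.Adj v q := (h.nb q).mpr (Or.inr (Or.inl rfl))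
theorem vr : G.Adj v r := (h.nb r).mpr (Or.inr (Or.inr (Or.inl rfl)))
theorem vs : G.Adj v s := (h.nb s).mpr (Or.inr (Or.inr (Or.inr rfl)))

/-- common neighbours of `v` and `p` -/
theorem cn_p (y : V) : G.Adj v y ∧ G.Adj p y ↔ y = q := by
  constructor
  · rintro ⟨h1, h2⟩
    rcases (h.nb y).mp h1 with rfl | rfl | rfl | rfl
    · exact absurd h2 (G.loopless.irrefl _)
    · rfl
    · exact absurd h2 h.npr
    · exact absurd h2 h.nps
  · rintro rfl
    exact ⟨h.vq, h.pq⟩

theorem cn_q (y : V) : G.Adj v y ∧ G.Adj q y ↔ (y = p ∨ y = r) := by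
  constructor
  · rintro ⟨h1, h2⟩
    rcases (h.nb y).mp h1 with rfl | rfl | rfl | rfl
    · exact Or.inl rfl
    · exact absurd h2 (G.loopless.irrefl _)
    · exact Or.inr rfl
    · exact absurd h2 h.nqs
  · rintro (rfl | rfl)
    · exact ⟨h.vp, h.pq.symm⟩
    · exact ⟨h.vr, h.qr⟩

theorem cdg_p : cdg G v p = 1 := by
  unfold cdg
  rw [Set.ncard_eq_one]
  refine ⟨q, ?_⟩
  ext y
  rw [Set.mem_singleton_iff]
  exact h.cn_p y

theorem cdg_s : cdg G v s = 1 := h.rev.cdg_p

theorem cdg_q : cdg G v q = 2 := by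
  unfold cdg
  rw [Set.ncard_eq_two]
  refine ⟨p, r, h.pr, ?_⟩
  ext y
  rw [Set.mem_insert_iff, Set.mem_singleton_iff]
  exact h.cn_q y

theorem cdg_r : cdg G v r = 2 := h.rev.cdg_q

/-- a neighbour with two common neighbours is in the middle -/
theorem mid {x : V} (hx : G.Adj v x) (h2 : cdg G v x = 2) : x = q ∨ x = r := by
  rcases (h.nb x).mp hx with rfl | rfl | rfl | rfl
  · rw [h.cdg_p] at h2
    exact absurd h2 (by norm_num)
  · exact Or.inl rfl
  · exact Or.inr rfl
  · rw [h.cdg_s] at h2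
    exact absurd h2 (by norm_num)

/-- a neighbour with one common neighbour is an end -/
theorem endd {x : V} (hx : G.Adj v x) (h2 : cdg G v x = 1) : x = p ∨ x = s := by
  rcases (h.nb x).mp hx with rfl | rfl | rfl | rfl
  · exact Or.inl rfl
  · rw [h.cdg_q] at h2
    exact absurd h2 (by norm_num)
  · rw [h.cdg_r] at h2
    exact absurd h2 (by norm_num)
  · exact Or.inr rfl

end NcPth

/-- The step: a chord at `v` gives chords at all neighbours. `P x` says that `x` is a boundary
vertex. -/
theorem nc_step {G : SimpleGraph V} {P : V → Prop}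
    (hP : ∀ v, P v → ∃ p q r s, NcPth G v p q r s)
    (hI : ∀ v, ¬ P v → ∀ x, G.Adj v x → cdg G v x = 2) {v p q r s : V} (hv : P v)
    (h : NcPth G v p q r s) (hq : P q) :
    ∀ x, G.Adj v x → P x ∧ ∃ y, G.Adj x y ∧ P y ∧ cdg G x y = 2 := by
  -- ends are boundary vertices
  have hend : ∀ a b, G.Adj a b → cdg G a b = 1 → P b := by
    intro a b hab h1
    by_contra hb
    have := hI b hb a hab.symm
    rw [cdg_comm, h1] at this
    exact absurd this (by norm_num)
  have hPp : P p := hend v p h.vp h.cdg_p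
  have hPs : P s := hend v s h.vs h.cdg_s
  -- the path of q, with v in second position
  have hpath : ∀ u a, P u → G.Adj u a → cdg G u a = 2 → ∃ P' Q R S, NcPth G u P' Q R S ∧ Q = a := by
    intro u a hu hua h2
    obtain ⟨P', Q, R, S, hh⟩ := hP u hu
    rcases hh.mid hua h2 with e | e
    · exact ⟨P', Q, R, S, hh, e.symm⟩
    · exact ⟨S, R, Q, P', hh.rev, e.symm⟩
  have hqv : cdg G q v = 2 := by rw [cdg_comm]; exact h.cdg_q
  obtain ⟨P1, Q1, R1, S1, hh1, e1⟩ := hpath q v hq h.vq.symm hqv
  subst e1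
  -- common neighbours of q and v
  have hc1 : P1 = p ∨ P1 = r := (h.cn_q P1).mp ((hh1.cn_q P1).mpr (Or.inl rfl)).symm
  have hc2 : R1 = p ∨ R1 = r := (h.cn_q R1).mp ((hh1.cn_q R1).mpr (Or.inr rfl)).symm
  have hP1 : P1 = r := by
    rcases hc1 with e | e
    · exfalso
      rw [e] at hh1
      -- p is an end of the path of q
      have h1 : cdg G p q = 1 := by rw [cdg_comm]; exact hh1.cdg_p
      have h2 : cdg G p Q1 = 1 := by rw [cdg_comm]; exact h.cdg_p
      obtain ⟨P2, Q2, R2, S2, hh2⟩ := hP p hPp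
      rcases hh2.endd h.pq h1 with f1 | f1 <;> rcases hh2.endd h.vp.symm h2 with f2 | f2
      · exact h.vq.ne (f2.trans f1.symm)
      · exact hh2.nps (f1 ▸ f2 ▸ h.vq.symm)
      · exact hh2.nps (f1 ▸ f2 ▸ h.vq)
      · exact h.vq.ne (f2.trans f1.symm)
    · exact e
  have hR1 : R1 = p := by
    rcases hc2 with e | e
    · exact e
    · exact absurd (hP1.trans e.symm) hh1.pr
  rw [hP1, hR1] at hh1
  -- hh1 : NcPth G q r v p S1
  have hPr : P r := hend q r h.qr hh1.cdg_p
  have hrq : cdg G r q = 1 := by rw [cdg_comm]; exact hh1.cdg_p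
  have hrv : cdg G r Q1 = 2 := by rw [cdg_comm]; exact h.cdg_r
  obtain ⟨P3, Q3, R3, S3, hh3, e3⟩ := hpath r Q1 hPr h.vr.symm hrv
  have hrs2 : cdg G r s = 2 := by
    -- common neighbours of r and v are q and s
    have hcq : G.Adj r q ∧ G.Adj Q3 q := ⟨h.qr.symm, e3 ▸ h.vq⟩
    have hcs : G.Adj r s ∧ G.Adj Q3 s := ⟨h.rs, e3 ▸ h.vs⟩
    have g1 : q = P3 ∨ q = R3 := (hh3.cn_q q).mp hcq
    have g2 : s = P3 ∨ s = R3 := (hh3.cn_q s).mp hcs
    rcases g1 with g1 | g1
    · rcases g2 with g2 | g2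
      · exact absurd (g1.trans g2.symm) h.qs
      · rw [g2]
        exact hh3.cdg_r
    · rw [g1, hh3.cdg_r] at hrq
      exact absurd hrq (by norm_num)
  intro x hx
  rcases (h.nb x).mp hx with rfl | rfl | rfl | rfl
  · refine ⟨hPp, q, h.pq, hq, ?_⟩
    rw [cdg_comm]
    exact hh1.cdg_r
  · exact ⟨hq, Q1, h.vq.symm, hv, hqv⟩
  · exact ⟨hPr, Q1, h.vr.symm, hv, hrv⟩
  · exact ⟨hPs, r, h.rs.symm, hPr, by rw [cdg_comm]; exact hrs2⟩

/-- the link of a boundary vertex of degree four is a path -/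
theorem nc_path [Fintype V] [DecidableEq V] {G : SimpleGraph V} [DecidableRel G.Adj] {v : V}
    (ht : (G.induce (G.neighborSet v)).IsTree)
    (h2 : ∀ w, ((G.induce (G.neighborSet v)).neighborSet w).ncard ≤ 2) (h4 : G.degree v = 4) :
    ∃ p q r s, NcPth G v p q r s := by
  classical
  have hcard : Fintype.card (G.neighborSet v) = 4 := by
    rw [← h4, G.card_neighborSet_eq_degree]
  have h1 := tree_sum _ ht
  set N : Finset V := Finset.univ.filter (fun x => G.Adj v x) with hNdef
  have hmemN : ∀ x, x ∈ N ↔ G.Adj v x := fun x => by simp [hNdef]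
  have hmem : ∀ x, x ∈ N ↔ x ∈ G.neighborSet v := fun x => hmemN x
  have hNcard : N.card = 4 := by
    rw [← hcard]
    exact (Fintype.card_of_subtype N hmem).symm
  have hsum : ∑ w : G.neighborSet v, ((G.induce (G.neighborSet v)).neighborSet w).ncard =
      ∑ x ∈ N, cdg G v x := by
    rw [Finset.sum_subtype N hmem]
    exact Finset.sum_congr rfl fun w _ => link_ncard G v w
  rw [hsum, hcard] at h1
  have hpos : ∀ x, G.Adj v x → 1 ≤ cdg G v x := by
    intro x hx
    have hnt : Nontrivial (G.neighborSet v) := by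
      rw [← Fintype.one_lt_card_iff_nontrivial, hcard]
      norm_num
    obtain ⟨y, hy⟩ := ht.connected.preconnected.exists_adj_of_nontrivial ⟨x, hx⟩
    rw [← link_ncard G v ⟨x, hx⟩, Nat.one_le_iff_ne_zero, Ne,
      Set.ncard_eq_zero (Set.toFinite _)]
    intro h0
    have h5 : y ∈ (G.induce (G.neighborSet v)).neighborSet ⟨x, hx⟩ := hy
    rw [h0] at h5
    exact h5
  have hle : ∀ x, G.Adj v x → cdg G v x ≤ 2 := by
    intro x hx
    rw [← link_ncard G v ⟨x, hx⟩]
    exact h2 _
  set A := N.filter (fun x => cdg G v x = 2) with hA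
  set B := N.filter (fun x => ¬ cdg G v x = 2) with hB
  have hAB : A.card + B.card = 4 := by
    rw [← hNcard]
    exact Finset.card_filter_add_card_filter_not _
  have hs : ∑ x ∈ N, cdg G v x = ∑ x ∈ A, cdg G v x + ∑ x ∈ B, cdg G v x :=
    (Finset.sum_filter_add_sum_filter_not N _ _).symm
  have hsA : ∑ x ∈ A, cdg G v x = 2 * A.card := by
    rw [Finset.sum_congr rfl (fun x hx => (Finset.mem_filter.mp hx).2), Finset.sum_const,
      smul_eq_mul, mul_comm]
  have hsB : ∑ x ∈ B, cdg G v x = B.card := by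
    rw [Finset.sum_congr rfl (g := fun _ => 1), Finset.sum_const, smul_eq_mul, mul_one]
    intro x hx
    obtain ⟨hx1, hx2⟩ := Finset.mem_filter.mp hx
    have g1 := hpos x ((hmemN x).mp hx1)
    have g2 := hle x ((hmemN x).mp hx1)
    omega
  rw [hs, hsA, hsB] at h1
  have hA2 : A.card = 2 := by omega
  have hB2 : B.card = 2 := by omega
  rw [Finset.card_eq_two] at hA2 hB2
  obtain ⟨a, b, hab, eA⟩ := hA2
  obtain ⟨r, s, hrs, eB⟩ := hB2
  have ha : a ∈ A := by rw [eA]; simp
  have hb : b ∈ A := by rw [eA]; simp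
  have hr : r ∈ B := by rw [eB]; simp
  have hs' : s ∈ B := by rw [eB]; simp
  rw [hA, Finset.mem_filter] at ha hb
  rw [hB, Finset.mem_filter] at hr hs'
  have hne : ∀ x y, cdg G v x = 2 → ¬ cdg G v y = 2 → y ≠ x := by
    intro x y hx hy e
    rw [e] at hy
    exact hy hx
  have hN : ∀ x, G.Adj v x ↔ x ∈ ({r, s, a, b} : Finset V) := by
    intro x
    rw [← hmemN]
    simp only [Finset.mem_insert, Finset.mem_singleton]
    constructor
    · intro hx
      by_cases hx2 : cdg G v x = 2
      · have : x ∈ A := Finset.mem_filter.mpr ⟨hx, hx2⟩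
        rw [eA] at this
        simp only [Finset.mem_insert, Finset.mem_singleton] at this
        tauto
      · have : x ∈ B := Finset.mem_filter.mpr ⟨hx, hx2⟩
        rw [eB] at this
        simp only [Finset.mem_insert, Finset.mem_singleton] at this
        tauto
    · rintro (e | e | e | e) <;> rw [e]
      · exact hr.1
      · exact hs'.1
      · exact ha.1
      · exact hb.1
  obtain ⟨k1, k2, k3⟩ := bd_link ht hrs hab (hne _ _ ha.2 hr.2) (hne _ _ hb.2 hr.2)
    (hne _ _ ha.2 hs'.2) (hne _ _ hb.2 hs'.2) hN ha.2 hb.2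
  rcases k3 with ⟨g1, g2, g3, g4⟩ | ⟨g1, g2, g3, g4⟩
  · refine ⟨r, a, b, s, ⟨fun y => ?_, g1, k1, g4.symm, hne _ _ hb.2 hr.2, hrs,
      (hne _ _ ha.2 hs'.2).symm, g2, k2, fun g => g3 g.symm⟩⟩
    rw [hN]
    simp only [Finset.mem_insert, Finset.mem_singleton]
    tauto
  · refine ⟨r, b, a, s, ⟨fun y => ?_, g2, k1.symm, g3.symm, hne _ _ ha.2 hr.2, hrs,
      (hne _ _ hb.2 hs'.2).symm, g1, k2, fun g => g4 g.symm⟩⟩
    rw [hN]
    simp only [Finset.mem_insert, Finset.mem_singleton]
    tauto

end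

/-- If all boundary vertices have degree four, then every boundary vertex has exactly two boundary
neighbours and exactly two interior neighbours. -/
theorem nochord (V : Type) [Fintype V] [DecidableEq V] (G : SimpleGraph V) [DecidableRel G.Adj]
    (hconn : G.Connected)
    (hlink : ∀ v, ((G.induce (G.neighborSet v)).Connected ∧
            (∀ w, ((G.induce (G.neighborSet v)).neighborSet w).ncard = 2) ∧
            4 ≤ (G.neighborSet v).ncard) ∨
          ((G.induce (G.neighborSet v)).IsTree ∧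
            ∀ w, ((G.induce (G.neighborSet v)).neighborSet w).ncard ≤ 2))
    (hchi : (Fintype.card V : ℤ) - (G.edgeFinset.card : ℤ) + ((G.cliqueFinset 3).card : ℤ) = 1)
    (h4 : ∀ v, Bd G v → G.degree v = 4) :
    ∀ v, Bd G v → {u | G.Adj v u ∧ Bd G u}.ncard = 2 ∧ {u | G.Adj v u ∧ ¬ Bd G u}.ncard = 2 := by
  classical
  have hP : ∀ v, Bd G v → ∃ p q r s, NcPth G v p q r s := by
    intro v hv
    rcases hlink v with h | h
    · exact absurd hv (two_regular _ h.1 h.2.1)
    · exact nc_path h.1 h.2 (h4 v hv)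
  have hI : ∀ v, ¬ Bd G v → ∀ x, G.Adj v x → cdg G v x = 2 := by
    intro v hv x hx
    rcases hlink v with h | h
    · rw [← link_ncard G v ⟨x, hx⟩]
      exact h.2.1 _
    · exact absurd h.1.isAcyclic hv
  -- there is no chord
  have hno : ∀ v p q r s, Bd G v → NcPth G v p q r s → ¬ Bd G q := by
    intro v p q r s hv h hq
    have hall : ∀ u, Bd G u ∧ ∃ y, G.Adj u y ∧ Bd G y ∧ cdg G u y = 2 := by
      have hstep : ∀ u, (Bd G u ∧ ∃ y, G.Adj u y ∧ Bd G y ∧ cdg G u y = 2) → ∀ x, G.Adj u x →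
          (Bd G x ∧ ∃ y, G.Adj x y ∧ Bd G y ∧ cdg G x y = 2) := by
        rintro u ⟨hu, y, huy, hy, hc⟩ x hx
        obtain ⟨p', q', r', s', hh⟩ := hP u hu
        rcases hh.mid huy hc with e | e
        · exact nc_step hP hI hu hh (e ▸ hy) x hx
        · exact nc_step hP hI hu hh.rev (e ▸ hy) x hx
      intro u
      obtain ⟨w⟩ := hconn.preconnected v u
      have h0 : Bd G v ∧ ∃ y, G.Adj v y ∧ Bd G y ∧ cdg G v y = 2 :=
        ⟨hv, q, h.vq, hq, h.cdg_q⟩
      clear h hq
      induction w with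
      | nil => exact h0
      | cons hadj w' ih => exact ih (hstep _ h0 _ hadj).1 (hstep _ h0 _ hadj)
    -- all vertices are boundary vertices of degree four: Euler characteristic zero
    have h1 := chi_univ G
    rw [hchi] at h1
    have h2 : chi G Finset.univ = 0 := by
      unfold chi
      refine Finset.sum_eq_zero fun u _ => ?_
      obtain ⟨p', q', r', s', hh⟩ := hP u (hall u).1
      have hN : ∀ x, G.Adj u x ↔ x ∈ ({p', q', r', s'} : Finset V) := by
        intro x
        rw [hh.nb]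
        simp only [Finset.mem_insert, Finset.mem_singleton]
      have hpq := hh.pq.ne
      have hqr := hh.qr.ne
      have hrs := hh.rs.ne
      have e1 : dg G Finset.univ u = 4 := by
        rw [dg_nbS]
        have : nbS G Finset.univ u = {p', q', r', s'} := by
          ext x
          rw [mem_nbS, ← hN]
          simp
        rw [this, Finset.card_insert_of_notMem (by simp [hpq, hh.pr, hh.ps]),
          Finset.card_insert_of_notMem (by simp [hqr, hh.qs]), Finset.card_pair hrs]
      have e2 : (tr G Finset.univ u : ℤ) = 6 := by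
        rw [tr_nbS]
        have : nbS G Finset.univ u = {p', q', r', s'} := by
          ext x
          rw [mem_nbS, ← hN]
          simp
        rw [this]
        unfold pr
        rw [sum_four hpq hh.pr hh.ps hqr hh.qs hrs]
        rw [sum_four hpq hh.pr hh.ps hqr hh.qs hrs, sum_four hpq hh.pr hh.ps hqr hh.qs hrs,
          sum_four hpq hh.pr hh.ps hqr hh.qs hrs, sum_four hpq hh.pr hh.ps hqr hh.qs hrs]
        rw [ad_self, ad_self, ad_self, ad_self, ad_of G hh.pq, ad_of G hh.pq.symm,
          ad_of G hh.qr, ad_of G hh.qr.symm, ad_of G hh.rs, ad_of G hh.rs.symm,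
          ad_of_not G hh.npr, ad_of_not G hh.nps, ad_of_not G hh.nqs,
          ad_of_not G (fun g => hh.npr g.symm), ad_of_not G (fun g => hh.nps g.symm),
          ad_of_not G (fun g => hh.nqs g.symm)]
        norm_num
      rw [e1, e2]
      norm_num
    rw [h2] at h1
    norm_num at h1
  intro v hv
  obtain ⟨p, q, r, s, h⟩ := hP v hv
  have hq := hno v p q r s hv h
  have hr := hno v s r q p hv h.rev
  have hp : Bd G p := by
    by_contra hb
    have := hI p hb v h.vp.symm
    rw [cdg_comm, h.cdg_p] at this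
    exact absurd this (by norm_num)
  have hs : Bd G s := by
    by_contra hb
    have := hI s hb v h.vs.symm
    rw [cdg_comm, h.cdg_s] at this
    exact absurd this (by norm_num)
  constructor
  · rw [Set.ncard_eq_two]
    refine ⟨p, s, h.ps, ?_⟩
    ext x
    rw [Set.mem_insert_iff, Set.mem_singleton_iff]
    constructor
    · rintro ⟨h1, h2⟩
      rcases (h.nb x).mp h1 with e | e | e | e
      · exact Or.inl e
      · exact absurd (e ▸ h2) hq
      · exact absurd (e ▸ h2) hr
      · exact Or.inr e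
    · rintro (e | e) <;> rw [e]
      · exact ⟨h.vp, hp⟩
      · exact ⟨h.vs, hs⟩
  · rw [Set.ncard_eq_two]
    refine ⟨q, r, h.qr.ne, ?_⟩
    ext x
    rw [Set.mem_insert_iff, Set.mem_singleton_iff]
    constructor
    · rintro ⟨h1, h2⟩
      rcases (h.nb x).mp h1 with e | e | e | e
      · exact absurd (e ▸ hp) h2
      · exact Or.inl e
      · exact Or.inr e
      · exact absurd (e ▸ hs) h2
    · rintro (e | e) <;> rw [e]
      · exact ⟨h.vq, hq⟩
      · exact ⟨h.vr, hr⟩

end Pool.Agent.CLQD
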